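import Pool.Agent.Lib_MP_d8ed36_q1.ClausenM

/-!
# MP_d8ed36_nt Q1, piece SINT: the integral form of the sum
-/

namespace SunQ1

/-- `64^(p-1)` times the sum. -/
def Sint (p : ℕ) : ℕ :=
  ∑ k ∈ Finset.range p, Nat.choose (2 * k) k ^ 2 * Nat.choose (3 * k) k * 64 ^ (p - 1 - k)

theorem Sint_eq {R : Type} [CommRing R] {p : ℕ} (hp : p.Prime) (h5 : 5 ≤ p)
    (hR : (p : R) ^ 2 = 0) (x : R) (hx : 64 * (x * (1 - 27 * x)) = 1) :
    (Sint p : R) = 64 ^ (p - 1) * (AA p x) ^ 2 := by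
  rw [← clausen_mod hp h5 hR x, Finset.mul_sum]
  unfold Sint
  rw [Nat.cast_sum]
  refine Finset.sum_congr rfl fun k hk => ?_
  rw [Finset.mem_range] at hk
  have e1 : (64 : R) ^ (p - 1) = 64 ^ (p - 1 - k) * 64 ^ k := by
    rw [← pow_add]
    congr 1
    omega
  have e2 : (64 : R) ^ k * (x * (1 - 27 * x)) ^ k = 1 := by
    rw [← mul_pow, hx, one_pow]
  push_cast
  rw [e1]
  linear_combination (-((Nat.choose (2 * k) k : R) ^ 2 * (Nat.choose (3 * k) k : R) *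
    64 ^ (p - 1 - k))) * e2

end SunQ1
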