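import Pool.Agent.Lib_MP_d8ed36_q1.Defs

/-!
# MP_d8ed36_nt, Q1: the binomial congruences (B) of note 2634

`p = 2 h + 1` an odd prime, `m = (3 p - 1) / 2 = p + h`, `j < p`; with
`T2_j = C(h,j) 4^j C(p-1-2j,j)`, `T3_j = C(m,j) 4^j C(3p-1-2j,j)`,
`U_j = C(m,j) 4^j C(3p-1-2j,p+j)`, `W_j = C(m,j) 4^j C(3p-1-2j,2p+j)`,
`Q_j = C(m,p+j) 4^(p+j) C(p-1-2j,j)`, `c_j = C(2j,j) C(3j,j)`, modulo `p^2`:
`4 W_j = Q_j`, `4 U_j = 4 T3_j + Q_j`, `2 c_j = 3 T2_j - T3_j`.
-/

set_option autoImplicit false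

namespace Pool.Agent.D8ed36B

open Finset

/-- The general sequence; `r + g` is the first upper index. -/
def V (r g t j : ℕ) : ℕ := (r + g).choose (r + j) * 4 ^ (r + j) * (2 * g - 2 * j).choose (t + j)

theorem choose_step (N k : ℕ) : (N.choose (k + 1) : ℤ) * (k + 1) * (N + 2) * (N + 1) =
    ((N + 2).choose k : ℤ) * (N + 2 - k) * (N + 1 - k) * (N - k) := by
  rcases le_or_gt k N with h | h
  · have h1 := Nat.choose_succ_right_eq (N + 2) k
    have h2 := Nat.choose_mul_succ_eq (N + 1) (k + 1)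
    have h3 := Nat.choose_mul_succ_eq N (k + 1)
    have e1 : ((N + 2 - k : ℕ) : ℤ) = N + 2 - k := by omega
    have e2 : ((N + 1 + 1 - (k + 1) : ℕ) : ℤ) = N + 1 - k := by omega
    have e3 : ((N + 1 - (k + 1) : ℕ) : ℤ) = N - k := by omega
    have g1 : ((N + 2).choose (k + 1) : ℤ) * (k + 1) = (N + 2).choose k * (N + 2 - k) := by
      rw [← e1]
      exact_mod_cast h1
    have g2 : ((N + 1).choose (k + 1) : ℤ) * (N + 2) = (N + 2).choose (k + 1) * (N + 1 - k) := by
      rw [← e2]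
      have : ((N + 2 : ℕ) : ℤ) = (N : ℤ) + 2 := by push_cast; ring
      rw [← this]
      exact_mod_cast h2
    have g3 : (N.choose (k + 1) : ℤ) * (N + 1) = (N + 1).choose (k + 1) * (N - k) := by
      rw [← e3]
      exact_mod_cast h3
    linear_combination (N - k : ℤ) * (N + 1 - k) * g1 + (N - k : ℤ) * (k + 1) * g2 +
      (k + 1 : ℤ) * (N + 2) * g3
  · have h0 : N.choose (k + 1) = 0 := Nat.choose_eq_zero_of_lt (by omega)
    rw [h0]
    rcases Nat.lt_or_ge (N + 2) k with h1 | h1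
    · rw [Nat.choose_eq_zero_of_lt h1]
      simp
    · have : (k : ℤ) = N + 1 ∨ (k : ℤ) = N + 2 := by omega
      rcases this with h2 | h2 <;> rw [h2] <;> ring

theorem V_step (r g t j : ℕ) (hg : 0 < g) :
    (V r g t (j + 1) : ℤ) * (r + (j + 1)) * (t + (j + 1)) * ((2 * g + 1) - 2 * (j + 1)) =
      2 * V r g t j * ((2 * g + 1 - t) - (3 * j + 1)) * ((2 * g + 1 - t) - (3 * j + 2)) *
        ((2 * g + 1 - t) - (3 * j + 3)) := by
  rcases Nat.lt_or_ge j g with h | h
  · obtain ⟨G, hG⟩ : ∃ G, g = j + G + 1 := ⟨g - j - 1, by omega⟩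
    have e1 : 2 * g - 2 * (j + 1) = 2 * G := by omega
    have e2 : 2 * g - 2 * j = 2 * G + 2 := by omega
    unfold V
    rw [e1, e2]
    have h1 := Nat.choose_succ_right_eq (r + g) (r + j)
    have e3 : r + g - (r + j) = G + 1 := by omega
    rw [e3] at h1
    have g1 : ((r + g).choose (r + (j + 1)) : ℤ) * (r + (j + 1)) =
        (r + g).choose (r + j) * (G + 1) := by
      have : r + j + 1 = r + (j + 1) := by ring
      rw [this] at h1
      exact_mod_cast h1
    have g2 := choose_step (2 * G) (t + j)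
    have e4 : t + j + 1 = t + (j + 1) := by ring
    rw [e4] at g2
    push_cast at g2 ⊢
    have hgz : (g : ℤ) = j + G + 1 := by exact_mod_cast hG
    rw [hgz]
    rw [pow_add 4 r (j + 1), pow_succ 4 j, pow_add 4 r j]
    linear_combination (4 : ℤ) ^ r * 4 ^ j * 4 * ((2 * G).choose (t + (j + 1)) : ℤ) *
      (t + (j + 1)) * (2 * (j + G + 1) + 1 - 2 * (j + 1)) * g1 +
      2 * (4 : ℤ) ^ r * 4 ^ j * ((r + g).choose (r + j) : ℤ) * g2
  · have h1 : V r g t (j + 1) = 0 := by
      unfold V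
      rw [Nat.choose_eq_zero_of_lt (show r + g < r + (j + 1) by omega)]
      simp
    have h2 : V r g t j = 0 := by
      unfold V
      rcases Nat.lt_or_ge g j with h3 | h3
      · rw [Nat.choose_eq_zero_of_lt (show r + g < r + j by omega)]
        simp
      · have h4 : 2 * g - 2 * j = 0 := by omega
        rw [h4, Nat.choose_eq_zero_of_lt (show 0 < t + j by omega)]
        simp
    rw [h1, h2]
    push_cast
    ring

section ring

variable {R : Type*} [CommRing R]

/-- `(x + 1) ... (x + j)` -/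
def E (j : ℕ) (x : R) : R := ∏ i ∈ range j, (x + ((i : R) + 1))

/-- `(x - 1) ... (x - n)` -/
def N (n : ℕ) (x : R) : R := ∏ i ∈ range n, (x - ((i : R) + 1))

/-- `(x - 2) (x - 4) ... (x - 2 j)` -/
def D (j : ℕ) (x : R) : R := ∏ i ∈ range j, (x - 2 * ((i : R) + 1))

theorem V_prod (r g t : ℕ) (hg : 0 < g) (j : ℕ) :
    (V r g t j : R) * E j (r : R) * E j (t : R) * D j (2 * g + 1 : R) =
      V r g t 0 * 2 ^ j * N (3 * j) (2 * g + 1 - t : R) := by
  induction j with
  | zero => simp [E, N, D]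
  | succ j ih =>
    have h1 : (V r g t (j + 1) : R) * (r + (j + 1)) * (t + (j + 1)) *
        ((2 * g + 1) - 2 * (j + 1)) =
        2 * V r g t j * ((2 * g + 1 - t) - (3 * j + 1)) * ((2 * g + 1 - t) - (3 * j + 2)) *
          ((2 * g + 1 - t) - (3 * j + 3)) := by
      have := congrArg (fun z : ℤ => (z : R)) (V_step r g t j hg)
      push_cast at this
      exact this
    have e1 : E (j + 1) (r : R) = E j (r : R) * (r + ((j : R) + 1)) := by
      unfold E
      rw [prod_range_succ]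
    have e2 : E (j + 1) (t : R) = E j (t : R) * (t + ((j : R) + 1)) := by
      unfold E
      rw [prod_range_succ]
    have e3 : D (j + 1) (2 * g + 1 : R) = D j (2 * g + 1 : R) *
        ((2 * g + 1) - 2 * ((j : R) + 1)) := by
      unfold D
      rw [prod_range_succ]
    have e4 : N (3 * (j + 1)) (2 * g + 1 - t : R) = N (3 * j) (2 * g + 1 - t : R) *
        ((2 * g + 1 - t) - (3 * (j : R) + 1)) * ((2 * g + 1 - t) - (3 * (j : R) + 2)) *
          ((2 * g + 1 - t) - (3 * (j : R) + 3)) := by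
      unfold N
      rw [show 3 * (j + 1) = 3 * j + 1 + 1 + 1 by ring, prod_range_succ, prod_range_succ,
        prod_range_succ]
      push_cast
      ring
    rw [e1, e2, e3, e4, pow_succ]
    linear_combination E j (r : R) * E j (t : R) * D j (2 * g + 1 : R) * h1 +
      2 * ((2 * g + 1 - t) - (3 * (j : R) + 1)) * ((2 * g + 1 - t) - (3 * (j : R) + 2)) *
          ((2 * g + 1 - t) - (3 * (j : R) + 3)) * ih

theorem first_order {q : R} (hq : q * q = 0) (s : Finset ℕ) (u : ℕ → R) :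
    ∃ c : R, ∀ a : R, ∏ i ∈ s, (a * q + u i) = ∏ i ∈ s, u i + a * q * c := by
  classical
  induction s using Finset.induction_on with
  | empty => exact ⟨0, fun a => by simp⟩
  | insert i s hi ih =>
    obtain ⟨c, hc⟩ := ih
    refine ⟨∏ i ∈ s, u i + u i * c, fun a => ?_⟩
    rw [prod_insert hi, prod_insert hi, hc a]
    linear_combination a * a * c * hq

theorem E_first {q : R} (hq : q * q = 0) (j : ℕ) :
    ∃ c : R, ∀ a : R, E j (a * q) = E j 0 + a * q * c := by
  obtain ⟨c, hc⟩ := first_order hq (range j) (fun i => (i : R) + 1)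
  refine ⟨c, fun a => ?_⟩
  unfold E
  rw [hc a]
  simp

theorem N_first {q : R} (hq : q * q = 0) (n : ℕ) :
    ∃ c : R, ∀ a : R, N n (a * q) = N n 0 + a * q * c := by
  obtain ⟨c, hc⟩ := first_order hq (range n) (fun i => -((i : R) + 1))
  refine ⟨c, fun a => ?_⟩
  have h := hc a
  simp only [← sub_eq_add_neg] at h
  unfold N
  rw [h]
  simp [sub_eq_add_neg]

theorem D_eq (j : ℕ) (x : R) : D j (2 * x) = (-2) ^ j * E j (-x) := by
  unfold D E
  induction j with
  | zero => simp
  | succ j ih =>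
    rw [prod_range_succ, prod_range_succ, ih, pow_succ]
    ring

theorem E_zero (j : ℕ) : E j (0 : R) = (j.factorial : R) := by
  unfold E
  rw [← prod_range_add_one_eq_factorial]
  push_cast
  exact prod_congr rfl fun i _ => by ring

theorem N_zero (n : ℕ) : N n (0 : R) = (-1) ^ n * (n.factorial : R) := by
  unfold N
  induction n with
  | zero => simp
  | succ n ih =>
    rw [prod_range_succ, ih, pow_succ, Nat.factorial_succ]
    push_cast
    ring

theorem E_nat (j a : ℕ) : E j (a : R) = ((a + 1).ascFactorial j : R) := by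
  induction j with
  | zero => simp [E]
  | succ j ih =>
    have : E (j + 1) (a : R) = E j (a : R) * (a + ((j : R) + 1)) := by
      unfold E
      rw [prod_range_succ]
    rw [this, ih, Nat.ascFactorial_succ]
    push_cast
    ring

/-- The relation between the products with `2 x = p`. -/
theorem N_eq (j : ℕ) (x : R) : N j x = (-1) ^ j * E j (-x) := by
  unfold N E
  induction j with
  | zero => simp
  | succ j ih =>
    rw [prod_range_succ, prod_range_succ, ih, pow_succ]
    ring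

theorem E_reflect (h : ℕ) (x : R) :
    E (2 * h) (-(2 * (h : R) + 1) - x) = E (2 * h) x := by
  unfold E
  rw [← prod_range_reflect]
  have h1 : ∀ i ∈ range (2 * h), (-(2 * (h : R) + 1) - x + (((2 * h - 1 - i : ℕ) : R) + 1)) =
      (-1) * (x + ((i : R) + 1)) := by
    intro i hi
    rw [mem_range] at hi
    have h2 : 2 * h = (2 * h - 1 - i) + i + 1 := by omega
    have h3 : (2 * (h : R)) = ((2 * h - 1 - i : ℕ) : R) + i + 1 := by
      have := congrArg (fun n : ℕ => (n : R)) h2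
      push_cast at this
      exact this
    rw [h3]
    ring
  rw [prod_congr rfl h1, prod_mul_distrib, prod_const, card_range, pow_mul]
  simp

/-- even and odd factors -/
theorem fact_even_odd (h : ℕ) : ((2 * h).factorial : R) =
    2 ^ h * (h.factorial : R) * D h (2 * (h : R) + 1) := by
  have h1 : ∀ n : ℕ, ((2 * n).factorial : R) =
      2 ^ n * (n.factorial : R) * ∏ i ∈ range n, (2 * (i : R) + 1) := by
    intro n
    induction n with
    | zero => simp
    | succ n ih =>
      rw [prod_range_succ, show 2 * (n + 1) = 2 * n + 1 + 1 by ring, Nat.factorial_succ,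
        Nat.factorial_succ, Nat.factorial_succ]
      push_cast
      rw [ih, pow_succ]
      ring
  rw [h1 h]
  congr 1
  unfold D
  rw [← prod_range_reflect]
  refine prod_congr rfl fun i hi => ?_
  rw [mem_range] at hi
  have h2 : h = (h - 1 - i) + i + 1 := by omega
  have h3 : (h : R) = ((h - 1 - i : ℕ) : R) + i + 1 := by
    have := congrArg (fun n : ℕ => (n : R)) h2
    push_cast at this
    exact this
  rw [h3]
  ring

theorem fact_halves (h : ℕ) : ((2 * h).factorial : R) =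
    (h.factorial : R) * N h (2 * (h : R) + 1) := by
  have h1 : (((h + 1).ascFactorial h : ℕ) : R) = N h (2 * (h : R) + 1) := by
    rw [← E_nat]
    unfold E N
    rw [← prod_range_reflect]
    refine prod_congr rfl fun i hi => ?_
    rw [mem_range] at hi
    have h2 : h = (h - 1 - i) + i + 1 := by omega
    have h3 : (h : R) = ((h - 1 - i : ℕ) : R) + i + 1 := by
      have := congrArg (fun n : ℕ => (n : R)) h2
      push_cast at this
      exact this
    linear_combination (-1 : R) * h3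
  rw [← h1]
  have h2 := Nat.factorial_mul_ascFactorial h h
  have h3 : 2 * h = h + h := by ring
  rw [h3, ← h2]
  push_cast
  ring

/-- The standing assumptions: `p = 2 h + 1`, `2 q = p` and `q ^ 2 = 0` in `R`, factorials below `p`
and `2` are units. -/
structure Setting (R : Type*) [CommRing R] (h : ℕ) (q : R) : Prop where
  hq : q * q = 0
  two : 2 * q = 2 * (h : R) + 1
  unit2 : IsUnit (2 : R)
  unitF : ∀ j : ℕ, j < 2 * h + 1 → IsUnit (j.factorial : R)

theorem Setting.E_full {h : ℕ} {q : R} (S : Setting R h q) (a : R) :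
    E (2 * h) (a * q) = ((2 * h).factorial : R) := by
  obtain ⟨c, hc⟩ := E_first S.hq (2 * h)
  have h1 := E_reflect (R := R) h 0
  rw [← S.two, sub_zero, show -(2 * q) = (-2) * q by ring, hc (-2)] at h1
  have h2 : q * c = 0 := by
    have h3 : (2 : R) * (q * c) = 2 * 0 := by linear_combination -h1
    exact S.unit2.mul_left_cancel h3
  rw [hc a, E_zero]
  linear_combination a * h2

theorem Setting.base1 {h : ℕ} {q : R} (S : Setting R h q) :
    (((6 * h + 2).choose (2 * h) : ℕ) : R) = 1 := by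
  have h1 := E_nat (R := R) (2 * h) (2 * (2 * h + 1))
  rw [Nat.ascFactorial_eq_factorial_mul_choose] at h1
  have h2 : ((2 * (2 * h + 1) : ℕ) : R) = 4 * q := by
    push_cast
    linear_combination (-2 : R) * S.two
  rw [h2, S.E_full 4] at h1
  have h3 : 2 * (2 * h + 1) + 2 * h = 6 * h + 2 := by ring
  rw [h3] at h1
  push_cast at h1
  have h4 : ((2 * h).factorial : R) * (((6 * h + 2).choose (2 * h) : ℕ) : R) =
      ((2 * h).factorial : R) * 1 := by
    rw [mul_one]
    exact h1.symm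
  exact (S.unitF (2 * h) (by omega)).mul_left_cancel h4

theorem Setting.base2 {h : ℕ} {q : R} (S : Setting R h q) :
    (((6 * h + 2).choose (2 * h + 1) : ℕ) : R) = 2 := by
  have h1 := Nat.choose_succ_right_eq (6 * h + 2) (2 * h)
  have h2 : 6 * h + 2 - 2 * h = 2 * (2 * h + 1) := by omega
  rw [h2, ← mul_assoc] at h1
  have h3 := Nat.eq_of_mul_eq_mul_right (by omega) h1
  rw [h3]
  push_cast
  rw [S.base1]
  ring

theorem Setting.base3 {h : ℕ} {q : R} (S : Setting R h q) :
    (((6 * h + 2).choose (4 * h + 2) : ℕ) : R) = 1 := by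
  rw [← S.base1, Nat.choose_symm_of_eq_add (show 6 * h + 2 = 4 * h + 2 + 2 * h by ring)]

theorem Setting.base4 {h : ℕ} {q : R} (S : Setting R h q) :
    (((3 * h + 1).choose (2 * h + 1) * 4 ^ (2 * h + 1) : ℕ) : R) = 4 := by
  obtain ⟨c, hc⟩ := E_first S.hq h
  set e : R := E h 0 with he
  have heF : e = (h.factorial : R) := E_zero h
  have heU : IsUnit e := by
    rw [heF]
    exact S.unitF h (by omega)
  have hqq := S.hq
  -- two evaluations of (p - 1)!
  have h1 := fact_even_odd (R := R) h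
  have h2 := fact_halves (R := R) h
  rw [h1, ← S.two, D_eq, N_eq, ← heF] at h2
  have h3 : E h (-q) = e - q * c := by
    have := hc (-1)
    rw [neg_one_mul] at this
    rw [this]
    ring
  have h4 : E h (-(2 * q)) = e - 2 * q * c := by
    have := hc (-2)
    rw [show (-2 : R) * q = -(2 * q) by ring] at this
    rw [this]
    ring
  rw [h3, h4] at h2
  have h5 : (4 : R) ^ h * (e - q * c) = e - 2 * q * c := by
    have h6 : (2 : R) ^ h * (-2) ^ h = (-1) ^ h * 4 ^ h := by
      rw [← mul_pow, ← mul_pow]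
      norm_num
    have h7 : ((-1 : R) ^ h) * (-1) ^ h = 1 := by
      rw [← mul_pow]
      norm_num
    have h8 : e * ((4 : R) ^ h * (e - q * c)) = e * (e - 2 * q * c) := by
      linear_combination (-1 : R) ^ h * h2 - (-1 : R) ^ h * e * (e - q * c) * h6 -
        (4 ^ h * e * (e - q * c) - e * (e - 2 * q * c)) * h7
    exact heU.mul_left_cancel h8
  -- 4 ^ h * e = e - q c
  have hU2 : IsUnit (e - q * c) := by
    have h6 : (e - q * c) * (e + q * c) = e * e := by linear_combination (-(c * c)) * hqq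
    exact isUnit_of_mul_isUnit_left (by rw [h6]; exact heU.mul heU)
  have h6 : (4 : R) ^ h * e = e - q * c := by
    have h7 : (e - q * c) * ((4 : R) ^ h * e) = (e - q * c) * (e - q * c) := by
      linear_combination e * h5 - c * c * hqq
    exact hU2.mul_left_cancel h7
  -- the binomial coefficient
  have h7 := E_nat (R := R) h (2 * h + 1)
  rw [Nat.ascFactorial_eq_factorial_mul_choose] at h7
  have h8 : ((2 * h + 1 : ℕ) : R) = 2 * q := by
    push_cast
    rw [S.two]
  rw [h8, hc 2] at h7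
  have h9 : (3 * h + 1).choose (2 * h + 1) = (2 * h + 1 + h).choose h := by
    rw [Nat.choose_symm_of_eq_add (show 3 * h + 1 = 2 * h + 1 + h by ring)]
    congr 1
    ring
  rw [h9]
  push_cast at h7 ⊢
  rw [← heF] at h7
  have h10 : e * e * e * ((((2 * h + 1 + h).choose h : ℕ) : R) * 4 ^ (2 * h + 1)) =
      e * e * e * 4 := by
    rw [pow_succ, pow_mul', pow_two]
    linear_combination (-(e * e * (4 ^ h * 4 ^ h) * 4)) * h7 +
      (e + 2 * q * c) * 4 * (4 ^ h * e + (e - q * c)) * h6 +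
      (8 * c * c * c * q - 12 * c * c * e) * hqq
  exact ((heU.mul heU).mul heU).mul_left_cancel h10

/-- The three congruences in the ring. -/
theorem Setting.main {h : ℕ} {q : R} (S : Setting R h q) (hh : 0 < h) (j : ℕ)
    (hj : j < 2 * h + 1) :
    4 * (V 0 (3 * h + 1) (2 * (2 * h + 1)) j : R) = V (2 * h + 1) h 0 j ∧
    4 * (V 0 (3 * h + 1) (2 * h + 1) j : R) = 4 * V 0 (3 * h + 1) 0 j + V (2 * h + 1) h 0 j ∧
    2 * (((2 * j).choose j * (3 * j).choose j : ℕ) : R) =
      3 * V 0 h 0 j - V 0 (3 * h + 1) 0 j ∧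
    q * ((((2 * j).choose j * (3 * j).choose j : ℕ) : R) - V 0 h 0 j) = 0 := by
  obtain ⟨c, hc⟩ := E_first S.hq j
  obtain ⟨d, hd⟩ := N_first S.hq (3 * j)
  set e : R := E j 0 with he
  set n : R := N (3 * j) 0 with hn
  have heF : e = (j.factorial : R) := E_zero j
  have heU : IsUnit e := by
    rw [heF]
    exact S.unitF j hj
  have hqq := S.hq
  have htwo := S.two
  have hF : IsUnit (e * e * e * e * (-2) ^ j) :=
    (((heU.mul heU).mul heU).mul heU).mul (S.unit2.neg.pow j)
  have hp : ((2 * h + 1 : ℕ) : R) = 2 * q := by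
    push_cast
    rw [S.two]
  have h2p : ((2 * (2 * h + 1) : ℕ) : R) = 4 * q := by
    push_cast
    linear_combination (-2 : R) * S.two
  have hE0 : E j (((0 : ℕ) : R)) = e := by rw [Nat.cast_zero]
  have hE2 : E j (((2 * h + 1 : ℕ) : R)) = e + 2 * q * c := by rw [hp, hc 2]
  have hE4 : E j (((2 * (2 * h + 1) : ℕ) : R)) = e + 4 * q * c := by rw [h2p, hc 4]
  have hD1 : D j (2 * (h : R) + 1) = (-2) ^ j * (e - q * c) := by
    rw [← S.two, D_eq]
    have := hc (-1)
    rw [neg_one_mul] at this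
    rw [this]
    ring
  have hD3 : D j (2 * ((3 * h + 1 : ℕ) : R) + 1) = (-2) ^ j * (e - 3 * q * c) := by
    have h1 : 2 * ((3 * h + 1 : ℕ) : R) + 1 = 2 * (3 * q) := by
      push_cast
      linear_combination (-3 : R) * S.two
    rw [h1, D_eq]
    have := hc (-3)
    rw [show (-3 : R) * q = -(3 * q) by ring] at this
    rw [this]
    ring
  -- T2
  have t2 := V_prod (R := R) 0 h 0 hh j
  rw [hE0, hD1, show 2 * (h : R) + 1 - ((0 : ℕ) : R) = 2 * q by
    rw [Nat.cast_zero, sub_zero, S.two], hd 2] at t2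
  have v2 : V 0 h 0 0 = 1 := by simp [V]
  rw [v2, Nat.cast_one, one_mul] at t2
  -- T3
  have t3 := V_prod (R := R) 0 (3 * h + 1) 0 (by omega) j
  rw [hE0, hD3, show 2 * ((3 * h + 1 : ℕ) : R) + 1 - ((0 : ℕ) : R) = 6 * q by
    push_cast
    linear_combination (-3 : R) * S.two, hd 6] at t3
  have v3 : V 0 (3 * h + 1) 0 0 = 1 := by simp [V]
  rw [v3, Nat.cast_one, one_mul] at t3
  -- U
  have tU := V_prod (R := R) 0 (3 * h + 1) (2 * h + 1) (by omega) j
  rw [hE0, hE2, hD3, show 2 * ((3 * h + 1 : ℕ) : R) + 1 - ((2 * h + 1 : ℕ) : R) = 4 * q by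
    push_cast
    linear_combination (-2 : R) * S.two, hd 4] at tU
  have vU : (V 0 (3 * h + 1) (2 * h + 1) 0 : R) = 2 := by
    have h1 : V 0 (3 * h + 1) (2 * h + 1) 0 = (6 * h + 2).choose (2 * h + 1) := by
      unfold V
      rw [show 2 * (3 * h + 1) - 2 * 0 = 6 * h + 2 by omega]
      simp
    rw [h1]
    exact S.base2
  rw [vU] at tU
  -- W
  have tW := V_prod (R := R) 0 (3 * h + 1) (2 * (2 * h + 1)) (by omega) j
  rw [hE0, hE4, hD3, show 2 * ((3 * h + 1 : ℕ) : R) + 1 - ((2 * (2 * h + 1) : ℕ) : R) = 2 * q by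
    push_cast
    linear_combination (-1 : R) * S.two, hd 2] at tW
  have vW : (V 0 (3 * h + 1) (2 * (2 * h + 1)) 0 : R) = 1 := by
    have h1 : V 0 (3 * h + 1) (2 * (2 * h + 1)) 0 = (6 * h + 2).choose (4 * h + 2) := by
      unfold V
      rw [show 2 * (3 * h + 1) - 2 * 0 = 6 * h + 2 by omega,
        show 2 * (2 * h + 1) + 0 = 4 * h + 2 by omega]
      simp
    rw [h1]
    exact S.base3
  rw [vW] at tW
  -- Q
  have tQ := V_prod (R := R) (2 * h + 1) h 0 hh j
  rw [hE0, hE2, hD1, show 2 * (h : R) + 1 - ((0 : ℕ) : R) = 2 * q by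
    rw [Nat.cast_zero, sub_zero, S.two], hd 2] at tQ
  have vQ : (V (2 * h + 1) h 0 0 : R) = 4 := by
    have h1 : V (2 * h + 1) h 0 0 = (3 * h + 1).choose (2 * h + 1) * 4 ^ (2 * h + 1) := by
      unfold V
      rw [show 2 * h + 1 + h = 3 * h + 1 by ring]
      simp
    rw [h1]
    exact S.base4
  rw [vQ] at tQ
  -- c
  have tc : (((2 * j).choose j * (3 * j).choose j : ℕ) : R) * (e * e * e * e * (-2) ^ j) =
      2 ^ j * n * e := by
    have h1 : (2 * j).choose j * j.factorial * j.factorial = (2 * j).factorial := by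
      have := Nat.choose_mul_factorial_mul_factorial (show j ≤ 2 * j by omega)
      rwa [show 2 * j - j = j by omega] at this
    have h2 : (3 * j).choose j * j.factorial * (2 * j).factorial = (3 * j).factorial := by
      have := Nat.choose_mul_factorial_mul_factorial (show j ≤ 3 * j by omega)
      rwa [show 3 * j - j = 2 * j by omega] at this
    have h3 : (((2 * j).choose j * (3 * j).choose j : ℕ) : R) * (e * e * e) =
        ((3 * j).factorial : R) := by
      rw [← h2, ← h1, heF]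
      push_cast
      ring
    have h4 : n = (-1) ^ (3 * j) * ((3 * j).factorial : R) := N_zero (3 * j)
    have h5 : (2 : R) ^ j * (-1) ^ (3 * j) = (-2) ^ j := by
      rw [pow_mul, ← mul_pow]
      norm_num
    rw [h4, ← h3, ← h5]
    ring
  generalize (2 : R) ^ j = P at *
  generalize (-2 : R) ^ j = M at *
  generalize (V 0 h 0 j : R) = T2 at *
  generalize (V 0 (3 * h + 1) 0 j : R) = T3 at *
  generalize (V 0 (3 * h + 1) (2 * h + 1) j : R) = U at *
  generalize (V 0 (3 * h + 1) (2 * (2 * h + 1)) j : R) = W at *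
  generalize (V (2 * h + 1) h 0 j : R) = Q at *
  generalize (((2 * j).choose j * (3 * j).choose j : ℕ) : R) = C at *
  have f2 : T2 * (e * e * e * e * M) = P * ((n + 2 * q * d) * (e + q * c)) := by
    linear_combination (e + q * c) * t2 + T2 * e * e * M * c * c * hqq
  have f3 : T3 * (e * e * e * e * M) = P * ((n + 6 * q * d) * (e + 3 * q * c)) := by
    linear_combination (e + 3 * q * c) * t3 + 9 * T3 * e * e * M * c * c * hqq
  have fU : U * (e * e * e * e * M) = 2 * P * ((n + 4 * q * d) * (e + q * c)) := by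
    linear_combination (e + q * c) * tU + U * e * M * (7 * e * c * c + 6 * q * c * c * c) * hqq
  have fW : W * (e * e * e * e * M) = P * ((n + 2 * q * d) * (e - q * c)) := by
    linear_combination (e - q * c) * tW + W * e * M * (13 * e * c * c - 12 * q * c * c * c) * hqq
  have fQ : Q * (e * e * e * e * M) = 4 * P * ((n + 2 * q * d) * (e - q * c)) := by
    linear_combination (e - q * c) * tQ + Q * e * M * (3 * e * c * c - 2 * q * c * c * c) * hqq
  refine ⟨hF.mul_right_cancel ?_, hF.mul_right_cancel ?_, hF.mul_right_cancel ?_,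
    hF.mul_right_cancel ?_⟩
  · linear_combination 4 * fW - fQ
  · linear_combination 4 * fU - 4 * f3 - fQ - 32 * P * d * c * hqq
  · linear_combination 2 * tc - 3 * f2 + f3 + 12 * P * d * c * hqq
  · linear_combination q * tc - q * f2 - P * (n * c + 2 * d * e + 2 * q * d * c) * hqq

end ring

/-! ### The congruences for the integers -/

theorem setting_zmod {p h : ℕ} (hp : p.Prime) (hh : p = 2 * h + 1) :
    ∃ q : ZMod (p ^ 2), Setting (ZMod (p ^ 2)) h q := by
  have hpp : ((p : ℕ) : ZMod (p ^ 2)) ^ 2 = 0 := by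
    have h1 : ((p ^ 2 : ℕ) : ZMod (p ^ 2)) = 0 := ZMod.natCast_self _
    rwa [Nat.cast_pow] at h1
  have h2 : (2 : ZMod (p ^ 2)) * ((((p ^ 2 + 1) / 2 : ℕ)) : ZMod (p ^ 2)) = 1 := by
    have h3 : 2 * ((p ^ 2 + 1) / 2) = p ^ 2 + 1 := by
      have h4 : p ^ 2 + 1 = 2 * (2 * h ^ 2 + 2 * h + 1) := by
        rw [hh]
        ring
      rw [h4, Nat.mul_div_cancel_left _ (by norm_num)]
    have h4 := congrArg (fun n : ℕ => (n : ZMod (p ^ 2))) h3
    simp only [Nat.cast_mul, Nat.cast_add, Nat.cast_pow, Nat.cast_one, Nat.cast_ofNat] at h4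
    rw [hpp, zero_add] at h4
    exact h4
  refine ⟨(p : ZMod (p ^ 2)) * ((((p ^ 2 + 1) / 2 : ℕ)) : ZMod (p ^ 2)), ?_, ?_, ?_, ?_⟩
  · linear_combination ((((p ^ 2 + 1) / 2 : ℕ)) : ZMod (p ^ 2)) ^ 2 * hpp
  · have h3 : ((p : ℕ) : ZMod (p ^ 2)) = 2 * (h : ZMod (p ^ 2)) + 1 := by
      have := congrArg (fun n : ℕ => (n : ZMod (p ^ 2))) hh
      push_cast at this
      exact this
    rw [← h3]
    linear_combination (p : ZMod (p ^ 2)) * h2
  · exact IsUnit.of_mul_eq_one _ h2
  · intro j hj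
    rw [ZMod.isUnit_iff_coprime]
    apply Nat.Coprime.pow_right
    rw [Nat.coprime_comm, hp.coprime_iff_not_dvd, hp.dvd_factorial]
    omega

theorem bin_zmod {p : ℕ} (hp : p.Prime) (h2 : p ≠ 2) {j : ℕ} (hj : j < p) :
    4 * (SunQ1.WW p j : ZMod (p ^ 2)) = SunQ1.QQ p j ∧
    4 * (SunQ1.UU p j : ZMod (p ^ 2)) = 4 * SunQ1.T3 p j + SunQ1.QQ p j ∧
    2 * (SunQ1.cc j : ZMod (p ^ 2)) = 3 * SunQ1.T2 p j - SunQ1.T3 p j ∧
    (p : ZMod (p ^ 2)) * (SunQ1.cc j - SunQ1.T2 p j) = 0 := by
  obtain ⟨h, hh⟩ : ∃ h, p = 2 * h + 1 := hp.odd_of_ne_two h2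
  have hh0 : 0 < h := by
    have := hp.two_le
    omega
  obtain ⟨q, S⟩ := setting_zmod hp hh
  have e1 : (p - 1) / 2 = h := by omega
  have e2 : (3 * p - 1) / 2 = 3 * h + 1 := by omega
  have e3 : p - 1 = 2 * h := by omega
  have e4 : 3 * p - 1 = 2 * (3 * h + 1) := by omega
  have a1 : SunQ1.WW p j = V 0 (3 * h + 1) (2 * (2 * h + 1)) j := by
    unfold SunQ1.WW V
    rw [e2, e4, ← hh, zero_add, zero_add]
  have a2 : SunQ1.UU p j = V 0 (3 * h + 1) (2 * h + 1) j := by
    unfold SunQ1.UU V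
    rw [e2, e4, ← hh, zero_add, zero_add]
  have a3 : SunQ1.T3 p j = V 0 (3 * h + 1) 0 j := by
    unfold SunQ1.T3 V
    rw [e2, e4, zero_add, zero_add]
  have a4 : SunQ1.T2 p j = V 0 h 0 j := by
    unfold SunQ1.T2 V
    rw [e1, e3, zero_add, zero_add]
  have a5 : SunQ1.QQ p j = V (2 * h + 1) h 0 j := by
    unfold SunQ1.QQ V
    rw [e2, e3, ← hh, zero_add, show 3 * h + 1 = p + h by omega]
  rw [a1, a2, a3, a4, a5]
  obtain ⟨m1, m2, m3, m4⟩ := S.main hh0 j (by omega)
  refine ⟨m1, m2, m3, ?_⟩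
  have h3 : ((p : ℕ) : ZMod (p ^ 2)) = 2 * q := by
    have := congrArg (fun n : ℕ => (n : ZMod (p ^ 2))) hh
    simp only [Nat.cast_mul, Nat.cast_add, Nat.cast_one, Nat.cast_ofNat] at this
    rw [this, S.two]
  have h4 : ((SunQ1.cc j : ℕ) : ZMod (p ^ 2)) =
      (((2 * j).choose j * (3 * j).choose j : ℕ) : ZMod (p ^ 2)) := rfl
  rw [h3, h4]
  linear_combination 2 * m4

theorem dvd_of_zmod {p : ℕ} (z : ℤ) (hz : ((z : ℤ) : ZMod (p ^ 2)) = 0) : (p : ℤ) ^ 2 ∣ z := by
  have := (ZMod.intCast_zmod_eq_zero_iff_dvd z (p ^ 2)).1 hz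
  rwa [Nat.cast_pow] at this

theorem bin_int {p : ℕ} (hp : p.Prime) (h2 : p ≠ 2) {j : ℕ} (hj : j < p) :
    ((p : ℤ) ^ 2 ∣ 4 * (SunQ1.WW p j : ℤ) - SunQ1.QQ p j) ∧
    ((p : ℤ) ^ 2 ∣ 4 * (SunQ1.UU p j : ℤ) - (4 * SunQ1.T3 p j + SunQ1.QQ p j)) ∧
    ((p : ℤ) ^ 2 ∣ 2 * (SunQ1.cc j : ℤ) - (3 * SunQ1.T2 p j - SunQ1.T3 p j)) ∧
    ((p : ℤ) ∣ (SunQ1.cc j : ℤ) - SunQ1.T2 p j) := by
  obtain ⟨h1, h3, h4, h5⟩ := bin_zmod hp h2 hj
  refine ⟨dvd_of_zmod _ ?_, dvd_of_zmod _ ?_, dvd_of_zmod _ ?_, ?_⟩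
  · push_cast
    rw [h1, sub_self]
  · push_cast
    rw [h3, sub_self]
  · push_cast
    rw [h4, sub_self]
  · have h6 : (p : ℤ) ^ 2 ∣ p * ((SunQ1.cc j : ℤ) - SunQ1.T2 p j) := by
      apply dvd_of_zmod
      push_cast
      exact h5
    rw [pow_two] at h6
    exact Int.dvd_of_mul_dvd_mul_left (by exact_mod_cast hp.ne_zero) h6

theorem base_int {p : ℕ} (hp : p.Prime) (h2 : p ≠ 2) :
    ((p : ℤ) ^ 2 ∣ (Nat.choose (3 * p - 1) (p - 1) : ℤ) - 1) ∧
    ((p : ℤ) ^ 2 ∣ (4 : ℤ) ^ p * (Nat.choose ((3 * p - 1) / 2) p : ℤ) - 4) := by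
  obtain ⟨h, hh⟩ : ∃ h, p = 2 * h + 1 := hp.odd_of_ne_two h2
  obtain ⟨q, S⟩ := setting_zmod hp hh
  refine ⟨dvd_of_zmod _ ?_, dvd_of_zmod _ ?_⟩
  · have h1 := S.base1
    rw [show 3 * p - 1 = 6 * h + 2 by omega, show p - 1 = 2 * h by omega]
    push_cast
    rw [h1, sub_self]
  · have h1 := S.base4
    rw [show (3 * p - 1) / 2 = 3 * h + 1 by omega]
    rw [← hh] at h1
    push_cast at h1 ⊢
    linear_combination h1

end Pool.Agent.D8ed36B
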