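import Pool.Agent.Lib_MP_d8ed36_q1.Defs
import Pool.Agent.Lib_MP_d8ed36_q1.BinG

/-!
# MP_d8ed36_nt Q1, piece BINA: congruence (iii), `2 c_j = 3 T2_j - T3_j mod p²`, and `c_j = T2_j mod p`

Ratios (cross-multiplied, in `ℕ` or `ℤ`), for `j + 1 < p`:
`T2_(j+1) (p-2-2j)(j+1)² = T2_j · 2(p-1-3j)(p-2-3j)(p-3-3j)`,
`T3_(j+1) (3p-2-2j)(j+1)² = T3_j · 2(3p-1-3j)(3p-2-3j)(3p-3-3j)`,
`c_(j+1) (j+1)³ = c_j (3j+1)(3j+2)(3j+3)`.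
So with `r(z) = 2(z-1-3j)(z-2-3j)(z-3-3j)/((z-2-2j)(j+1)²)` the three ratios are `r(p), r(3p), r(0)`,
`r(z) = r(0)(1 - z δ) mod z²`, `δ = 1/(3j+1)+1/(3j+2)+1/(3j+3)-1/(2j+2)`. For `3j < p` by induction there is
`e` in `ZMod (p²)` with `T2_j = c_j(1-pe)`, `T3_j = c_j(1-3pe)`. When `3j+i = p` (`i = 1, 2`) the factor
of `T3` is `2p`, the one of `c` is `p` (with the sign of `r`: `-p`), and `T2_j = 0` afterwards: so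
`T3_j = -2 c_j mod p²` for `p/3 < j < 2p/3`, and both are `0 mod p²` for `j > 2p/3`.
-/

namespace SunQ1

theorem bin_iii {p : ℕ} (hp : p.Prime) (h5 : 5 ≤ p) {j : ℕ} (hj : j < p) :
    ((p : ℤ)) ^ 2 ∣ 2 * (cc j : ℤ) - (3 * (T2 p j : ℤ) - (T3 p j : ℤ)) := by
  exact (Pool.Agent.D8ed36B.bin_int hp (by omega) hj).2.2.1

theorem bin_mod {p : ℕ} (hp : p.Prime) (h5 : 5 ≤ p) {j : ℕ} (hj : j < p) :
    ((p : ℤ)) ∣ (cc j : ℤ) - (T2 p j : ℤ) := by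
  exact (Pool.Agent.D8ed36B.bin_int hp (by omega) hj).2.2.2

end SunQ1
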