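import Pool.Agent.Lib_MP_d8ed36_q1.BinG

/-!
# MP_d8ed36_nt Q1, piece BASE: the start of the inductions

`C(3p-1,p-1) = 1 mod p²` (it is `∏_(l<p) (2p+l)/l`), and `4^p C((3p-1)/2, p) = 4 mod p²`
(`C(p+h,p) = ∏_(l≤h) (p+l)/l`, `h = (p-1)/2`, and `(2^p-2)/p = ∑_(0<l<p) C(p,l)/p = ∑ (-1)^(l-1)/l
= - ∑_(l≤h) 1/l mod p`, the even `l` giving `∑_(l ≤ h) 1/(2l)` and `∑_(l<p) 1/l = 0 mod p`).
-/

namespace SunQ1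

theorem base_choose {p : ℕ} (hp : p.Prime) (h5 : 5 ≤ p) :
    ((p : ℤ)) ^ 2 ∣ (Nat.choose (3 * p - 1) (p - 1) : ℤ) - 1 := by
  exact (Pool.Agent.D8ed36B.base_int hp (by omega)).1

theorem base_four {p : ℕ} (hp : p.Prime) (h5 : 5 ≤ p) :
    ((p : ℤ)) ^ 2 ∣ (4 : ℤ) ^ p * (Nat.choose ((3 * p - 1) / 2) p : ℤ) - 4 := by
  exact (Pool.Agent.D8ed36B.base_int hp (by omega)).2

end SunQ1
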