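import Pool.Agent.Lib_MP_d8ed36_q1.Defs
import Pool.Agent.Lib_MP_d8ed36_q1.Base
import Pool.Agent.Lib_MP_d8ed36_q1.BinG

/-!
# MP_d8ed36_nt Q1, piece BINB: congruence (i), `4 W_j = Q_j mod p²`

Both vanish for `3j ≥ p`. `j = 0` is `base_choose`, `base_four` (`C(3p-1,2p) = C(3p-1,p-1)`). Ratios for
`3(j+1) < p` (or `≤`; afterwards both are `0`):
`W_(j+1) (j+1)(3p-2-2j)(2p+j+1) = W_j · 2(p-1-3j)(p-2-3j)(p-3-3j)`,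
`Q_(j+1) (j+1)(p-2-2j)(p+j+1) = Q_j · 2(p-1-3j)(p-2-3j)(p-3-3j)`,
and `(p-2-2j)(p+j+1) - (3p-2-2j)(2p+j+1) = -5p²`.
-/

namespace SunQ1

theorem bin_i {p : ℕ} (hp : p.Prime) (h5 : 5 ≤ p) {j : ℕ} (hj : j < p) :
    ((p : ℤ)) ^ 2 ∣ 4 * (WW p j : ℤ) - (QQ p j : ℤ) := by
  exact (Pool.Agent.D8ed36B.bin_int hp (by omega) hj).1

end SunQ1
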