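import Pool.Agent.Lib_MP_d8ed36_q1.Defs
import Pool.Agent.Lib_MP_d8ed36_q1.Base
import Pool.Agent.Lib_MP_d8ed36_q1.BinG

/-!
# MP_d8ed36_nt Q1, piece BINC: congruence (ii), `4 U_j = 4 T3_j + Q_j mod p²`

Ratios:
`U_(j+1) (j+1)(3p-2-2j)(p+j+1) = U_j · 2(2p-1-3j)(2p-2-3j)(2p-3-3j)` (`3j+3 ≤ 2p-1`),
`T3_(j+1) (j+1)²(3p-2-2j) = T3_j · 2(3p-1-3j)(3p-2-3j)(3p-3-3j)`,
`Q_(j+1) (j+1)(p-2-2j)(p+j+1) = Q_j · 2(p-1-3j)(p-2-3j)(p-3-3j)`,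
`T2_(j+1) (j+1)²(p-2-2j) = T2_j · 2(p-1-3j)(p-2-3j)(p-3-3j)`.
For `3j < p`: there are `a`, `b` in `ZMod (p²)` with `T3_j = T2_j(1-pa)`, `Q_j = 4T2_j(1-pb)`,
`U_j = T2_j(2-p(a+b))` (start `j = 0`: `T2 = T3 = 1`, `Q_0 = 4^p C((3p-1)/2,p)` = 4,
`U_0 = C(3p-1,p) = 2 C(3p-1,p-1) = 2 mod p²`). For `p/3 < j < 2p/3`: `Q_j = 0`, `U_j = T3_j mod p²` (both are
divisible by `p`, at the crossing `3j+i = p` the factors are `p` and `2p`, afterwards the ratios agree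
mod `p`); for `j > 2p/3`: `U_j = 0` and `p² ∣ T3_j`.
-/

namespace SunQ1

theorem bin_ii {p : ℕ} (hp : p.Prime) (h5 : 5 ≤ p) {j : ℕ} (hj : j < p) :
    ((p : ℤ)) ^ 2 ∣ 4 * (UU p j : ℤ) - (4 * (T3 p j : ℤ) + (QQ p j : ℤ)) := by
  exact (Pool.Agent.D8ed36B.bin_int hp (by omega) hj).2.1

end SunQ1
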