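import Pool.Agent.Lib_MP_d8ed36_q1.Coeff
import Pool.Agent.Lib_MP_d8ed36_q1.BinA
import Pool.Agent.Lib_MP_d8ed36_q1.BinB
import Pool.Agent.Lib_MP_d8ed36_q1.BinC

/-!
# MP_d8ed36_nt Q1, piece SUMS: the three congruences for the coefficients of `F^((3p-1)/2)`
-/

namespace SunQ1

open Polynomial

variable {R : Type} [CommRing R]

private theorem odd_of {p : ℕ} (hp : p.Prime) (h5 : 5 ≤ p) : p % 2 = 1 := by
  rcases hp.eq_two_or_odd with h | h
  · omega
  · exact h

private theorem dvd_cast {a b : ℤ} (h : a ∣ b) : ((a : ℤ) : R) ∣ (b : R) := by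
  obtain ⟨c, rfl⟩ := h
  exact ⟨(c : R), by push_cast; ring⟩

private theorem dvd_sum_sub {p : ℕ} (t : R) (c : R) (a b : ℕ → R)
    (h : ∀ j, j < p → c ∣ a j - b j) :
    c ∣ ∑ j ∈ Finset.range p, a j * t ^ j - ∑ j ∈ Finset.range p, b j * t ^ j := by
  rw [← Finset.sum_sub_distrib]
  refine Finset.dvd_sum fun j hj => ?_
  rw [← sub_mul]
  exact Dvd.dvd.mul_right (h j (Finset.mem_range.1 hj)) _

theorem cong_i {p : ℕ} (hp : p.Prime) (h5 : 5 ≤ p) (t : R) :
    (p : R) ^ 2 ∣ 4 * ((FF t) ^ ((3 * p - 1) / 2)).coeff (p - 1) -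
      t ^ (2 * p) * ((FF t) ^ ((3 * p - 1) / 2)).coeff (4 * p - 1) := by
  have ho := odd_of hp h5
  rw [coeff_g0 ho, coeff_g3 ho]
  have h1 := dvd_sum_sub (p := p) t ((p : R) ^ 2) (fun j => 4 * (WW p j : R))
    (fun j => (QQ p j : R)) fun j hj => by
      have := dvd_cast (R := R) (bin_i hp h5 hj)
      push_cast at this
      exact this
  have e : 4 * (t ^ (2 * p) * ∑ j ∈ Finset.range p, (WW p j : R) * t ^ j) -
      t ^ (2 * p) * ∑ j ∈ Finset.range p, (QQ p j : R) * t ^ j =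
      t ^ (2 * p) * (∑ j ∈ Finset.range p, 4 * (WW p j : R) * t ^ j -
        ∑ j ∈ Finset.range p, (QQ p j : R) * t ^ j) := by
    have e1 : ∑ j ∈ Finset.range p, 4 * (WW p j : R) * t ^ j =
        4 * ∑ j ∈ Finset.range p, (WW p j : R) * t ^ j := by
      rw [Finset.mul_sum]
      exact Finset.sum_congr rfl fun j _ => by ring
    rw [e1]
    ring
  rw [e]
  exact Dvd.dvd.mul_left h1 _

theorem cong_ii {p : ℕ} (hp : p.Prime) (h5 : 5 ≤ p) (t : R) :
    (p : R) ^ 2 ∣ 4 * ((FF t) ^ ((3 * p - 1) / 2)).coeff (2 * p - 1) -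
      t ^ p * (4 * ((FF t) ^ ((3 * p - 1) / 2)).coeff (3 * p - 1) +
        ((FF t) ^ ((3 * p - 1) / 2)).coeff (4 * p - 1)) := by
  have ho := odd_of hp h5
  rw [coeff_g1 ho, coeff_g2 ho, coeff_g3 ho]
  have h1 := dvd_sum_sub (p := p) t ((p : R) ^ 2) (fun j => 4 * (UU p j : R))
    (fun j => 4 * (T3 p j : R) + (QQ p j : R)) fun j hj => by
      have := dvd_cast (R := R) (bin_ii hp h5 hj)
      push_cast at this
      exact this
  have e : 4 * (t ^ p * ∑ j ∈ Finset.range p, (UU p j : R) * t ^ j) -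
      t ^ p * (4 * ∑ j ∈ Finset.range p, (T3 p j : R) * t ^ j +
        ∑ j ∈ Finset.range p, (QQ p j : R) * t ^ j) =
      t ^ p * (∑ j ∈ Finset.range p, 4 * (UU p j : R) * t ^ j -
        ∑ j ∈ Finset.range p, (4 * (T3 p j : R) + (QQ p j : R)) * t ^ j) := by
    have e1 : ∑ j ∈ Finset.range p, 4 * (UU p j : R) * t ^ j =
        4 * ∑ j ∈ Finset.range p, (UU p j : R) * t ^ j := by
      rw [Finset.mul_sum]
      exact Finset.sum_congr rfl fun j _ => by ring
    have e2 : ∑ j ∈ Finset.range p, (4 * (T3 p j : R) + (QQ p j : R)) * t ^ j =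
        4 * ∑ j ∈ Finset.range p, (T3 p j : R) * t ^ j +
          ∑ j ∈ Finset.range p, (QQ p j : R) * t ^ j := by
      rw [Finset.mul_sum, ← Finset.sum_add_distrib]
      exact Finset.sum_congr rfl fun j _ => by ring
    rw [e1, e2]
    ring
  rw [e]
  exact Dvd.dvd.mul_left h1 _

theorem cong_iii {p : ℕ} (hp : p.Prime) (h5 : 5 ≤ p) (t : R) :
    (p : R) ^ 2 ∣ 2 * AA p t - (3 * ((FF t) ^ ((p - 1) / 2)).coeff (p - 1) -
      ((FF t) ^ ((3 * p - 1) / 2)).coeff (3 * p - 1)) := by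
  have ho := odd_of hp h5
  rw [coeff_h0 ho, coeff_g2 ho]
  have h1 := dvd_sum_sub (p := p) t ((p : R) ^ 2) (fun j => 2 * (cc j : R))
    (fun j => 3 * (T2 p j : R) - (T3 p j : R)) fun j hj => by
      have := dvd_cast (R := R) (bin_iii hp h5 hj)
      push_cast at this
      exact this
  have e1 : ∑ j ∈ Finset.range p, 2 * (cc j : R) * t ^ j = 2 * AA p t := by
    unfold AA
    rw [Finset.mul_sum]
    exact Finset.sum_congr rfl fun j _ => by ring
  have e2 : ∑ j ∈ Finset.range p, (3 * (T2 p j : R) - (T3 p j : R)) * t ^ j =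
      3 * ∑ j ∈ Finset.range p, (T2 p j : R) * t ^ j -
        ∑ j ∈ Finset.range p, (T3 p j : R) * t ^ j := by
    rw [Finset.mul_sum, ← Finset.sum_sub_distrib]
    exact Finset.sum_congr rfl fun j _ => by ring
  rw [e1, e2] at h1
  exact h1

theorem cong_mod {p : ℕ} (hp : p.Prime) (h5 : 5 ≤ p) (t : R) :
    (p : R) ∣ AA p t - ((FF t) ^ ((p - 1) / 2)).coeff (p - 1) := by
  have ho := odd_of hp h5
  rw [coeff_h0 ho]
  have h1 := dvd_sum_sub (p := p) t (p : R) (fun j => (cc j : R))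
    (fun j => (T2 p j : R)) fun j hj => by
      have := dvd_cast (R := R) (bin_mod hp h5 hj)
      push_cast at this
      exact this
  exact h1

end SunQ1
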