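import Pool.Agent.Lib_MP_d8ed36_q1.InertB
import Pool.Agent.Lib_MP_d8ed36_q1.Sums
import Pool.Agent.Lib_MP_d8ed36_q1.Sint

/-!
# MP_d8ed36_nt Q1, piece INERTC: the inert case

Let `u` be an integer with `216 u = 1 mod p²` and `τ = u (4 + √-11)` in `ℤ√(-11)` (`Zsqrtd (-11)`). In
`R = ℤ√(-11) / (p²)`: `64 τ(1-27τ) = 1`, so `Sint p = 64^(p-1) A(τ)²`. In `k = AlgebraicClosure (ZMod p)` let
`s² = -11`; `s` is not in `ZMod p`, so `s^p ≠ s`, and `A((4+s)/216) = 0` by `cong_mod` (`(p:k) = 0`) and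
`inert_hasse`. The image of `A(τ) = α + β √-11` under `√-11 ↦ s` is `A((4+s)/216) = 0`, so `α = β = 0 mod p`
(`s` not in `ZMod p`), `A(τ)² ∈ (p²)`, so `p² ∣ Sint p` in `ℤ√(-11)`, hence in `ℤ`.
-/

namespace SunQ1

theorem AA_map {R S : Type} [CommRing R] [CommRing S] (f : R →+* S) (p : ℕ) (t : R) :
    f (AA p t) = AA p (f t) := by
  unfold AA
  rw [map_sum]
  refine Finset.sum_congr rfl fun j _ => by rw [map_mul, map_pow, map_natCast]

/-- the part in characteristic `p`. -/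
theorem inert_char {k : Type} [Field k] {p : ℕ} [Fact p.Prime] [CharP k p] (h5 : 5 ≤ p)
    {s : k} (hs : s ^ 2 = -11) (hns : ∀ z : ZMod p, ZMod.castHom (dvd_refl p) k z ≠ s)
    {u v : ℤ} (huv : u * 216 + v * (p : ℤ) ^ 2 = 1) :
    (p : ℤ√(-11)) ∣ AA p ((u : ℤ√(-11)) * (4 + ⟨0, 1⟩)) := by
  have hp : p.Prime := Fact.out
  set Z : ℤ√(-11) := AA p ((u : ℤ√(-11)) * (4 + ⟨0, 1⟩)) with hZ
  have hsp : s ^ p ≠ s := by
    intro h
    have h1 := (Subfield.mem_bot_iff_pow_eq_self k p (x := s)).mpr h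
    rw [← ZMod.fieldRange_castHom_eq_bot p] at h1
    obtain ⟨z, hz⟩ := h1
    exact hns z hz
  have hA0 : AA p ((4 + s) / 216) = 0 := by
    have h1 := cong_mod (R := k) hp h5 ((4 + s) / 216)
    rw [CharP.cast_eq_zero k p, zero_dvd_iff, inert_hasse h5 hs hsp, sub_zero] at h1
    exact h1
  let f : ℤ√(-11) →+* k := Zsqrtd.lift ⟨s, by push_cast; rw [← sq, hs]⟩
  have hf : ∀ z : ℤ√(-11), f z = (z.re : k) + (z.im : k) * s := fun z => rfl
  have h216 : (216 : k) * (u : k) = 1 := by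
    have := congrArg (Int.cast : ℤ → k) huv
    push_cast at this
    rw [CharP.cast_eq_zero k p] at this
    linear_combination this
  have h0 : (216 : k) ≠ 0 := left_ne_zero_of_mul_eq_one h216
  have hfτ : f ((u : ℤ√(-11)) * (4 + ⟨0, 1⟩)) = (4 + s) / 216 := by
    rw [map_mul, map_add, hf ⟨0, 1⟩, map_intCast, map_ofNat, eq_div_iff h0]
    push_cast
    linear_combination (4 + s) * h216
  have hfZ : f Z = 0 := by
    rw [hZ, AA_map, hfτ, hA0]
  have h1 : ((Z.re : ℤ) : k) + (Z.im : k) * s = 0 := by rw [← hf, hfZ]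
  have him : (p : ℤ) ∣ Z.im := by
    by_contra hnd
    have hne : ((Z.im : ℤ) : k) ≠ 0 := by
      rw [Ne, CharP.intCast_eq_zero_iff k p]; exact hnd
    apply hns (-(Z.re : ZMod p) / (Z.im : ZMod p))
    rw [map_div₀, map_neg, map_intCast, map_intCast, div_eq_iff hne]
    linear_combination -h1
  have hre : (p : ℤ) ∣ Z.re := by
    have h2 : (Z.im : k) = 0 := (CharP.intCast_eq_zero_iff k p _).mpr him
    rw [h2, zero_mul, add_zero] at h1
    exact (CharP.intCast_eq_zero_iff k p _).mp h1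
  have := (Zsqrtd.intCast_dvd (p : ℤ) Z).mpr ⟨hre, him⟩
  simpa using this

theorem inert_dvd {p : ℕ} [Fact p.Prime] (h5 : 5 ≤ p) (hno : ∀ s : ZMod p, s ^ 2 ≠ -11) :
    (p : ℤ) ^ 2 ∣ (Sint p : ℤ) := by
  have hp : p.Prime := Fact.out
  -- the inverse of 216
  have hcop : IsCoprime (216 : ℤ) ((p : ℤ) ^ 2) := by
    apply IsCoprime.pow_right
    rw [Int.isCoprime_iff_gcd_eq_one]
    have h1 : Nat.Coprime p 216 := by
      rw [Nat.Prime.coprime_iff_not_dvd hp]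
      intro h
      rw [show 216 = 2 ^ 3 * 3 ^ 3 by norm_num] at h
      rcases (Nat.Prime.dvd_mul hp).mp h with h | h
      · have := Nat.le_of_dvd (by norm_num) (hp.dvd_of_dvd_pow h); omega
      · have := Nat.le_of_dvd (by norm_num) (hp.dvd_of_dvd_pow h); omega
    have h2 : Nat.gcd 216 p = 1 := Nat.Coprime.symm h1
    simpa [Int.gcd] using h2
  obtain ⟨u, v, huv⟩ := hcop
  -- in characteristic p
  have hpZ : (p : ℤ√(-11)) ∣ AA p ((u : ℤ√(-11)) * (4 + ⟨0, 1⟩)) := by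
    obtain ⟨s, hs⟩ := IsAlgClosed.exists_pow_nat_eq
      (-11 : AlgebraicClosure (ZMod p)) (n := 2) (by norm_num)
    have : CharP (AlgebraicClosure (ZMod p)) p :=
      charP_of_injective_algebraMap (algebraMap (ZMod p) _).injective p
    refine inert_char h5 hs (fun z hz => hno z ?_) huv
    apply (ZMod.castHom (dvd_refl p) (AlgebraicClosure (ZMod p))).injective
    rw [map_pow, hz, hs, map_neg, map_ofNat]
  -- the element of ℤ[√-11]
  set σ : ℤ√(-11) := ⟨0, 1⟩ with hσ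
  have hσ2 : σ ^ 2 = -11 := by
    rw [hσ, sq]
    ext <;> simp
  set τ : ℤ√(-11) := (u : ℤ√(-11)) * (4 + σ) with hτ
  set Z : ℤ√(-11) := AA p τ with hZ
  -- the quotient
  let I : Ideal (ℤ√(-11)) := Ideal.span {(p : ℤ√(-11)) ^ 2}
  let π : ℤ√(-11) →+* (ℤ√(-11)) ⧸ I := Ideal.Quotient.mk I
  have hπ : ∀ z : ℤ√(-11), (p : ℤ√(-11)) ^ 2 ∣ z → π z = 0 := by
    intro z hz
    exact Ideal.Quotient.eq_zero_iff_mem.mpr (Ideal.mem_span_singleton.mpr hz)
  have hR : ((p : ℕ) : (ℤ√(-11)) ⧸ I) ^ 2 = 0 := by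
    have := hπ _ (dvd_refl _)
    simpa using this
  have hx : 64 * (π τ * (1 - 27 * π τ)) = 1 := by
    have h1 : (64 * (τ * (1 - 27 * τ)) - 1 : ℤ√(-11)) =
        (p : ℤ√(-11)) ^ 2 * ((v : ℤ√(-11)) * (8 * u * (5 + 8 * σ) - 1)) := by
      have h2 : ((u : ℤ) : ℤ√(-11)) * 216 + (v : ℤ√(-11)) * (p : ℤ√(-11)) ^ 2 = 1 := by
        have := congrArg (Int.cast : ℤ → ℤ√(-11)) huv
        push_cast at this
        exact this
      rw [hτ]
      linear_combination (1728 * (u : ℤ√(-11)) ^ 2 * (-1)) * hσ2 +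
        (1 - 8 * (u : ℤ√(-11)) * (5 + 8 * σ)) * h2
    have h2 : π (64 * (τ * (1 - 27 * τ)) - 1) = 0 := by
      rw [h1]
      exact hπ _ (Dvd.intro _ rfl)
    rw [map_sub, map_one, sub_eq_zero] at h2
    have h3 : π (64 * (τ * (1 - 27 * τ))) = 64 * (π τ * (1 - 27 * π τ)) := by
      simp only [map_mul, map_sub, map_one, map_ofNat]
    rw [← h3, h2]
  have hS := Sint_eq hp h5 hR (π τ) hx
  rw [← AA_map, ← hZ] at hS
  have hZ2 : π Z ^ 2 = 0 := by
    rw [← map_pow]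
    exact hπ _ (pow_dvd_pow_of_dvd hpZ 2)
  rw [hZ2, mul_zero] at hS
  have h3 : π ((Sint p : ℕ) : ℤ√(-11)) = 0 := by
    rw [map_natCast]; exact hS
  have h4 : (p : ℤ√(-11)) ^ 2 ∣ ((Sint p : ℕ) : ℤ√(-11)) :=
    Ideal.mem_span_singleton.mp (Ideal.Quotient.eq_zero_iff_mem.mp h3)
  have h5' : (((p : ℤ) ^ 2 : ℤ) : ℤ√(-11)) ∣ (((Sint p : ℕ) : ℤ) : ℤ√(-11)) := by
    push_cast
    exact h4
  exact (Zsqrtd.intCast_dvd_intCast _ _).mp h5'

end SunQ1
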