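import Mathlib

/-!
# MP_d8ed36_nt Q1, piece ARITH

Quadratic reciprocity: `(-11/p) = (p/11)` for odd primes `p ≠ 11`; Hensel for `s² = -11` (`p ∤ 22`).
`4p = x²+11y²`: `x`, `y` have the same parity, `π = (x ∓ ys)/2 = m + n(1-s)/2` with `n = ±y`,
`m = (x-n)/2`; `((x-ys)/2)((x+ys)/2) = p` in `ℤ_p`, so exactly one factor is divisible by `p`: call it `π`
(choose the sign), `π'` the other, `π + π' = x`, so `π'² = x² - 2p - π²`.
-/

namespace SunQ1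

private theorem odd_of {p : ℕ} [hp : Fact p.Prime] (h5 : 5 ≤ p) : Odd p :=
  hp.out.odd_of_ne_two (by omega)

private theorem jac {p : ℕ} [hp : Fact p.Prime] (h5 : 5 ≤ p) :
    jacobiSym (-11) p = jacobiSym (p : ℤ) 11 := by
  have hodd := odd_of h5
  have h1 : jacobiSym (-11) p = ZMod.χ₄ p * jacobiSym 11 p := jacobiSym.neg 11 hodd
  have h2 : p % 4 = 1 ∨ p % 4 = 3 := by
    obtain ⟨k, hk⟩ := hodd
    omega
  rw [h1]
  rcases h2 with h | h
  · have h3 := jacobiSym.quadratic_reciprocity_one_mod_four h (show Odd 11 by decide)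
    have h4 := ZMod.χ₄_nat_one_mod_four h
    rw [h3, h4]
    norm_num
  · have h3 := jacobiSym.quadratic_reciprocity_three_mod_four h (show 11 % 4 = 3 by norm_num)
    have h4 := ZMod.χ₄_nat_three_mod_four h
    rw [h3, h4]
    norm_num

private theorem two_unit {p : ℕ} [hp : Fact p.Prime] (h5 : 5 ≤ p) : IsUnit (2 : ℤ_[p]) := by
  have h : IsUnit ((2 : ℤ) : ℤ_[p]) := by
    rw [PadicInt.isUnit_iff, PadicInt.norm_intCast_eq_one_iff]
    have h1 : IsCoprime (2 : ℤ) (p : ℤ) := by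
      rw [Int.isCoprime_iff_gcd_eq_one]
      have := (Nat.coprime_primes Nat.prime_two hp.out).2 (by omega)
      simpa [Int.gcd] using this
    exact h1
  simpa using h

theorem exists_sqrt {p : ℕ} [Fact p.Prime] (h5 : 5 ≤ p) (h11 : p ≠ 11)
    (hj : jacobiSym (p : ℤ) 11 = 1) : ∃ s : ℤ_[p], s ^ 2 = -11 := by
  have hp : p.Prime := Fact.out
  have h := jac h5
  rw [hj] at h
  obtain ⟨r, hr⟩ := ZMod.isSquare_of_jacobiSym_eq_one h
  have hdvd : (p : ℤ) ∣ (r.val : ℤ) ^ 2 + 11 := by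
    rw [← ZMod.intCast_zmod_eq_zero_iff_dvd]
    push_cast
    rw [ZMod.natCast_val, ZMod.cast_id', id, sq, ← hr]
    push_cast
    ring
  have hcop : IsCoprime (2 * (r.val : ℤ)) (p : ℤ) := by
    have hpp : Prime (p : ℤ) := Nat.prime_iff_prime_int.1 hp
    refine ((Prime.coprime_iff_not_dvd hpp).2 ?_).symm
    intro hd
    rcases hpp.dvd_or_dvd hd with h2 | h2
    · have := Int.le_of_dvd (by norm_num) h2
      omega
    · have h3 : (p : ℤ) ∣ 11 := by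
        have h4 := dvd_sub hdvd (dvd_pow h2 two_ne_zero)
        simpa using h4
      have h5' : p ∣ 11 := by exact_mod_cast h3
      exact h11 ((Nat.prime_dvd_prime_iff_eq hp (by norm_num)).1 h5')
  have hn1 : ‖(((r.val : ℤ) ^ 2 + 11 : ℤ) : ℤ_[p])‖ < 1 := PadicInt.norm_intCast_lt_one_iff.2 hdvd
  have hn2 : ‖((2 * (r.val : ℤ) : ℤ) : ℤ_[p])‖ = 1 := PadicInt.norm_intCast_eq_one_iff.2 hcop
  have hH := hensels_lemma (p := p) (R := ℤ_[p])
    (F := (Polynomial.X ^ 2 + 11 : Polynomial ℤ_[p])) (a := ((r.val : ℤ) : ℤ_[p])) ?_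
  · obtain ⟨z, hz, -⟩ := hH
    refine ⟨z, ?_⟩
    have h6 : z ^ 2 + 11 = 0 := by simpa using hz
    linear_combination h6
  · have e1 : (Polynomial.aeval ((r.val : ℤ) : ℤ_[p]))
        (Polynomial.X ^ 2 + 11 : Polynomial ℤ_[p]) = (((r.val : ℤ) ^ 2 + 11 : ℤ) : ℤ_[p]) := by
      simp
    have e2 : (Polynomial.aeval ((r.val : ℤ) : ℤ_[p]))
        (Polynomial.derivative (Polynomial.X ^ 2 + 11 : Polynomial ℤ_[p])) =
          ((2 * (r.val : ℤ) : ℤ) : ℤ_[p]) := by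
      simp
      left
      norm_num
    rw [e1, e2, hn2]
    simpa using hn1

theorem no_sqrt {p : ℕ} [Fact p.Prime] (h5 : 5 ≤ p)
    (hj : jacobiSym (p : ℤ) 11 = -1) : ∀ s : ZMod p, s ^ 2 ≠ -11 := by
  intro s hs
  have h := jac h5
  rw [hj] at h
  have h1 := ZMod.nonsquare_of_jacobiSym_eq_neg_one h
  apply h1
  refine ⟨s, ?_⟩
  push_cast
  rw [← hs, sq]

theorem exists_pi {p : ℕ} [Fact p.Prime] (h5 : 5 ≤ p) (h11 : p ≠ 11) {s : ℤ_[p]}
    (hs : s ^ 2 = -11) {x y : ℤ} (hxy : 4 * (p : ℤ) = x ^ 2 + 11 * y ^ 2) :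
    ∃ (m n : ℤ) (π π' : ℤ_[p]), m ^ 2 + m * n + 3 * n ^ 2 = p ∧
      2 * π = 2 * (m : ℤ_[p]) + (n : ℤ_[p]) * (1 - s) ∧ π * π' = (p : ℤ_[p]) ∧ IsUnit π' ∧
      (p : ℤ_[p]) ^ 2 ∣ π' ^ 2 - ((x : ℤ_[p]) ^ 2 - 2 * (p : ℤ_[p])) := by
  have hpp : Prime (p : ℤ_[p]) := PadicInt.prime_p
  obtain ⟨u, hu⟩ := two_unit (p := p) h5
  obtain ⟨h, h2⟩ : ∃ h : ℤ_[p], 2 * h = 1 := ⟨(u⁻¹ : ℤ_[p]ˣ), by rw [← hu]; simp⟩
  have h2ne : (2 : ℤ_[p]) ≠ 0 := by rw [← hu]; exact u.ne_zero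
  have hxy' : 4 * (p : ℤ_[p]) = (x : ℤ_[p]) ^ 2 + 11 * (y : ℤ_[p]) ^ 2 := by exact_mod_cast hxy
  -- parity
  have hpar : (2 : ℤ) ∣ x - y := by
    have h1 : (2 : ℤ) ∣ (x - y) * (x + y) := ⟨2 * (p : ℤ) - 6 * y ^ 2, by linear_combination -hxy⟩
    rcases Int.prime_two.dvd_or_dvd h1 with h | h
    · exact h
    · have : x - y = x + y - 2 * y := by ring
      rw [this]
      exact dvd_sub h (Dvd.intro y rfl)
  have key : ∀ n : ℤ, n ^ 2 = y ^ 2 → (2 : ℤ) ∣ x - n → (p : ℤ_[p]) ∣ h * (x - n * s) →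
      ∃ (m n : ℤ) (π π' : ℤ_[p]), m ^ 2 + m * n + 3 * n ^ 2 = p ∧
      2 * π = 2 * (m : ℤ_[p]) + (n : ℤ_[p]) * (1 - s) ∧ π * π' = (p : ℤ_[p]) ∧ IsUnit π' ∧
      (p : ℤ_[p]) ^ 2 ∣ π' ^ 2 - ((x : ℤ_[p]) ^ 2 - 2 * (p : ℤ_[p])) := by
    intro n hn hd hdvd
    obtain ⟨m, hm⟩ := hd
    have hn' : (n : ℤ_[p]) ^ 2 = (y : ℤ_[p]) ^ 2 := by exact_mod_cast hn
    have hm' : (x : ℤ_[p]) - n = 2 * m := by exact_mod_cast hm
    have hprod : h * (x - n * s) * (h * (x + n * s)) = (p : ℤ_[p]) := by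
      have e1 : h * (x - n * s) * (h * (x + n * s)) = h * h * (x ^ 2 - n ^ 2 * s ^ 2) := by ring
      have e2 : (x : ℤ_[p]) ^ 2 - n ^ 2 * s ^ 2 = 4 * p := by rw [hs, hn', hxy']; ring
      rw [e1, e2]
      linear_combination (2 * h + 1) * (p : ℤ_[p]) * h2
    refine ⟨m, n, h * (x - n * s), h * (x + n * s), ?_, ?_, hprod, ?_, ?_⟩
    · have hx : x = 2 * m + n := by linarith
      have : 4 * (m ^ 2 + m * n + 3 * n ^ 2) = 4 * (p : ℤ) := by
        rw [hxy, ← hn, hx]; ring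
      linarith
    · linear_combination (x - n * s : ℤ_[p]) * h2 + hm'
    · obtain ⟨w, hw⟩ := hdvd
      have h3 : w * (h * (x + n * s)) = 1 := by
        have h4 : (p : ℤ_[p]) * (w * (h * (x + n * s))) = (p : ℤ_[p]) * 1 := by
          rw [mul_one, ← mul_assoc, ← hw, hprod]
        exact mul_left_cancel₀ hpp.ne_zero h4
      exact IsUnit.of_mul_eq_one_right _ h3
    · obtain ⟨w, hw⟩ := hdvd
      refine ⟨-w ^ 2, ?_⟩
      have e3 : h * (x - n * s) + h * (x + n * s) = (x : ℤ_[p]) := by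
        linear_combination (x : ℤ_[p]) * h2
      have e4 : (p : ℤ_[p]) ^ 2 * -w ^ 2 = -(h * (x - n * s)) ^ 2 := by rw [hw]; ring
      rw [e4]
      have e5 : (x : ℤ_[p]) ^ 2 - 2 * (p : ℤ_[p]) =
          (h * (x - n * s) + h * (x + n * s)) ^ 2 -
            2 * (h * (x - n * s) * (h * (x + n * s))) := by rw [e3, hprod]
      rw [e5]
      ring
  have hprod : h * (x - y * s) * (h * (x + y * s)) = (p : ℤ_[p]) := by
    have e1 : h * (x - y * s) * (h * (x + y * s)) = h * h * (x ^ 2 - y ^ 2 * s ^ 2) := by ring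
    have e2 : (x : ℤ_[p]) ^ 2 - y ^ 2 * s ^ 2 = 4 * p := by rw [hs, hxy']; ring
    rw [e1, e2]
    linear_combination (2 * h + 1) * (p : ℤ_[p]) * h2
  rcases hpp.dvd_or_dvd (dvd_of_eq hprod.symm) with h3 | h3
  · exact key y rfl hpar h3
  · refine key (-y) (by ring) ?_ ?_
    · have : x - -y = x - y + 2 * y := by ring
      rw [this]
      exact dvd_add hpar (Dvd.intro y rfl)
    · push_cast
      have e : h * ((x : ℤ_[p]) - -(y : ℤ_[p]) * s) = h * (x + y * s) := by ring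
      rw [e]
      exact h3

end SunQ1
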