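import Pool.Agent.Lib_MP_d8ed36_q1.Defs

/-!
# MP_d8ed36_nt Q1, piece CLAUSENF: the formal identity (Clausen)

`(∑ c_k x^k)² = ∑ C(2k,k) c_k (x(1-27x))^k`, coefficient of `x^m`.

Both sides satisfy `m³ g_m = 3(2m-1)(9m²-9m+4) g_(m-1) - 81(m-1)(3m-2)(3m-4) g_(m-2)`. For the left side
with summand `F(m,k)` the certificate is `G(m,k) = - m k² F(m,k)`; for the right side, `g = f²` with
`u θ² f = 27 x θ f + 6 x f`, `u = 1 - 27 x`, `θ = x d/dx`, satisfies `u θ G = 27 x G + 12 x u θ g`,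
`G = u θ² g - 27 x θ g - 12 x g = 2 u (θ f)²`.
-/

namespace SunQ1

private theorem cc_fact (k : ℕ) : cc k * k.factorial ^ 3 = (3 * k).factorial := by
  have h1 := Nat.choose_mul_factorial_mul_factorial (show k ≤ 2 * k by omega)
  have h2 := Nat.choose_mul_factorial_mul_factorial (show k ≤ 3 * k by omega)
  rw [show 2 * k - k = k by omega] at h1
  rw [show 3 * k - k = 2 * k by omega] at h2
  unfold cc
  calc (2 * k).choose k * (3 * k).choose k * k.factorial ^ 3
      = (3 * k).choose k * k.factorial * ((2 * k).choose k * k.factorial * k.factorial) := by ring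
    _ = (3 * k).factorial := by rw [h1, h2]

private theorem cc_rec (k : ℕ) :
    cc (k + 1) * (k + 1) ^ 2 = 3 * (3 * k + 1) * (3 * k + 2) * cc k := by
  have h1 := cc_fact (k + 1)
  have h0 := cc_fact k
  rw [show 3 * (k + 1) = 3 * k + 1 + 1 + 1 by ring, Nat.factorial_succ, Nat.factorial_succ,
    Nat.factorial_succ, Nat.factorial_succ, ← h0] at h1
  have hk : 0 < k.factorial ^ 3 * (k + 1) := by positivity
  refine Nat.eq_of_mul_eq_mul_right hk ?_
  calc cc (k + 1) * (k + 1) ^ 2 * (k.factorial ^ 3 * (k + 1))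
      = cc (k + 1) * ((k + 1) * k.factorial) ^ 3 := by ring
    _ = _ := by rw [h1]; ring

/-- `a_k = C(2k,k) c_k`. -/
private def aa (k : ℕ) : ℚ := (Nat.choose (2 * k) k : ℚ) * (cc k : ℚ)

private theorem aa_rec (k : ℕ) :
    aa (k + 1) * ((k : ℚ) + 1) ^ 3 = 6 * (2 * k + 1) * (3 * k + 1) * (3 * k + 2) * aa k := by
  have h1 : ((k : ℚ) + 1) * (Nat.choose (2 * (k + 1)) (k + 1) : ℚ) =
      2 * (2 * k + 1) * (Nat.choose (2 * k) k : ℚ) := by
    have := Nat.succ_mul_centralBinom_succ k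
    unfold Nat.centralBinom at this
    exact_mod_cast this
  have h2 : (cc (k + 1) : ℚ) * ((k : ℚ) + 1) ^ 2 = 3 * (3 * k + 1) * (3 * k + 2) * cc k := by
    exact_mod_cast cc_rec k
  unfold aa
  calc (Nat.choose (2 * (k + 1)) (k + 1) : ℚ) * (cc (k + 1) : ℚ) * ((k : ℚ) + 1) ^ 3
      = (((k : ℚ) + 1) * (Nat.choose (2 * (k + 1)) (k + 1) : ℚ)) *
          ((cc (k + 1) : ℚ) * ((k : ℚ) + 1) ^ 2) := by ring
    _ = _ := by rw [h1, h2]; ring

/-- the summand of the left side -/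
private def Fn (n k : ℕ) : ℚ :=
  if k ≤ n then aa k * (Nat.choose k (n - k) : ℚ) * (-27) ^ (n - k) else 0

private theorem choose_rat (k i : ℕ) :
    (Nat.choose k (i + 1) : ℚ) * (i + 1) = Nat.choose k i * ((k : ℚ) - i) := by
  rcases le_or_gt i k with h | h
  · have := Nat.choose_succ_right_eq k i
    have h2 : ((k - i : ℕ) : ℚ) = (k : ℚ) - i := by push_cast [h]; ring
    rw [← h2]
    exact_mod_cast this
  · rw [Nat.choose_eq_zero_of_lt h, Nat.choose_eq_zero_of_lt (by omega : k < i + 1)]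
    simp

private theorem wz (n k : ℕ) (hk : k < n + 3) :
    ((n : ℚ) + 2) ^ 3 * Fn (n + 2) k -
        3 * (2 * n + 3) * (9 * (n + 2) * (n + 1) + 4) * Fn (n + 1) k +
        81 * (n + 1) * (3 * n + 4) * (3 * n + 2) * Fn n k =
      (-((n : ℚ) + 2) * ((k + 1 : ℕ) : ℚ) ^ 2 * Fn (n + 2) (k + 1)) -
        (-((n : ℚ) + 2) * (k : ℚ) ^ 2 * Fn (n + 2) k) := by
  have hr := aa_rec k
  have hk1 : ((k : ℚ) + 1) ≠ 0 := by positivity
  have ha : aa (k + 1) = 6 * (2 * k + 1) * (3 * k + 1) * (3 * k + 2) * aa k / ((k : ℚ) + 1) ^ 3 := by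
    field_simp
    linarith
  rcases (by omega : k ≤ n ∨ k = n + 1 ∨ k = n + 2) with h | h | h
  · obtain ⟨i, rfl⟩ := Nat.exists_eq_add_of_le h
    have e0 : Fn (k + i) k = aa k * (Nat.choose k i : ℚ) * (-27) ^ i := by
      unfold Fn; rw [if_pos (by omega), show k + i - k = i by omega]
    have e1 : Fn (k + i + 1) k = aa k * (Nat.choose k (i + 1) : ℚ) * (-27) ^ (i + 1) := by
      unfold Fn; rw [if_pos (by omega), show k + i + 1 - k = i + 1 by omega]
    have e2 : Fn (k + i + 2) k = aa k * (Nat.choose k (i + 2) : ℚ) * (-27) ^ (i + 2) := by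
      unfold Fn; rw [if_pos (by omega), show k + i + 2 - k = i + 2 by omega]
    have e3 : Fn (k + i + 2) (k + 1) =
        aa (k + 1) * (Nat.choose (k + 1) (i + 1) : ℚ) * (-27) ^ (i + 1) := by
      unfold Fn; rw [if_pos (by omega), show k + i + 2 - (k + 1) = i + 1 by omega]
    rw [e0, e1, e2, e3, ha, Nat.choose_succ_succ]
    have c1 : (Nat.choose k (i + 1) : ℚ) = Nat.choose k i * ((k : ℚ) - i) / (i + 1) := by
      rw [eq_div_iff (by positivity)]; exact choose_rat k i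
    have c2 : (Nat.choose k (i + 2) : ℚ) =
        Nat.choose k i * ((k : ℚ) - i) / (i + 1) * ((k : ℚ) - i - 1) / (i + 2) := by
      rw [eq_div_iff (by positivity), ← c1]
      have := choose_rat k (i + 1)
      push_cast at this
      linarith
    push_cast
    rw [c1, c2]
    field_simp
    ring
  · subst h
    have e0 : Fn n (n + 1) = 0 := by unfold Fn; rw [if_neg (by omega)]
    have e1 : Fn (n + 1) (n + 1) = aa (n + 1) := by
      unfold Fn; rw [if_pos (by omega)]; simp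
    have e2 : Fn (n + 2) (n + 1) = aa (n + 1) * ((n : ℚ) + 1) * (-27) := by
      unfold Fn; rw [if_pos (by omega), show n + 2 - (n + 1) = 1 by omega]; simp
    have e3 : Fn (n + 2) (n + 1 + 1) = aa (n + 1 + 1) := by
      unfold Fn; rw [if_pos (by omega)]; simp
    rw [e0, e1, e2, e3, ha]
    push_cast
    field_simp
    ring
  · subst h
    have e0 : Fn n (n + 2) = 0 := by unfold Fn; rw [if_neg (by omega)]
    have e1 : Fn (n + 1) (n + 2) = 0 := by unfold Fn; rw [if_neg (by omega)]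
    have e3 : Fn (n + 2) (n + 2 + 1) = 0 := by unfold Fn; rw [if_neg (by omega)]
    rw [e0, e1, e3]
    push_cast
    ring

private def Lf (n : ℕ) : ℚ := ∑ k ∈ Finset.range (n + 1), Fn n k

private theorem Lf_eq (n m : ℕ) (h : n ≤ m) : Lf n = ∑ k ∈ Finset.range (m + 1), Fn n k := by
  unfold Lf
  refine Finset.sum_subset (Finset.range_subset_range.2 (by omega)) fun k _ hk => ?_
  have : ¬ k ≤ n := by simpa [Nat.lt_succ_iff] using hk
  unfold Fn; rw [if_neg this]

private theorem Lf_rec (n : ℕ) :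
    ((n : ℚ) + 2) ^ 3 * Lf (n + 2) =
        3 * (2 * n + 3) * (9 * (n + 2) * (n + 1) + 4) * Lf (n + 1) -
        81 * (n + 1) * (3 * n + 4) * (3 * n + 2) * Lf n := by
  have h : ∑ k ∈ Finset.range (n + 3), (((n : ℚ) + 2) ^ 3 * Fn (n + 2) k -
        3 * (2 * n + 3) * (9 * (n + 2) * (n + 1) + 4) * Fn (n + 1) k +
        81 * (n + 1) * (3 * n + 4) * (3 * n + 2) * Fn n k) = 0 := by
    rw [Finset.sum_congr rfl fun k hk => wz n k (Finset.mem_range.1 hk),
      Finset.sum_range_sub (fun k : ℕ => -((n : ℚ) + 2) * (k : ℚ) ^ 2 * Fn (n + 2) k)]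
    have e3 : Fn (n + 2) (n + 3) = 0 := by unfold Fn; rw [if_neg (by omega)]
    rw [e3]
    simp
  rw [Finset.sum_add_distrib, Finset.sum_sub_distrib, ← Finset.mul_sum, ← Finset.mul_sum,
    ← Finset.mul_sum, ← Lf_eq (n + 2) (n + 2) le_rfl, ← Lf_eq (n + 1) (n + 2) (by omega),
    ← Lf_eq n (n + 2) (by omega)] at h
  linarith

section Series

open PowerSeries

private noncomputable def th : Derivation ℚ ℚ⟦X⟧ ℚ⟦X⟧ := (X : ℚ⟦X⟧) • d⁄dX ℚ

private theorem coeff_th (f : ℚ⟦X⟧) (n : ℕ) : coeff n (th f) = (n : ℚ) * coeff n f := by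
  have h : th f = X * d⁄dX ℚ f := rfl
  rw [h]
  cases n with
  | zero => simp
  | succ n => rw [coeff_succ_X_mul, coeff_derivative]; push_cast; ring

private theorem coeff_num (a : ℕ) (f : ℚ⟦X⟧) (n : ℕ) :
    coeff n ((a : ℚ⟦X⟧) * f) = (a : ℚ) * coeff n f := by
  have : (a : ℚ⟦X⟧) = C (a : ℚ) := (map_natCast (C : ℚ →+* ℚ⟦X⟧) a).symm
  rw [this, coeff_C_mul]

private theorem th_num (a : ℕ) (f : ℚ⟦X⟧) : th ((a : ℚ⟦X⟧) * f) = (a : ℚ⟦X⟧) * th f := by
  rw [Derivation.leibniz, Derivation.map_natCast]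
  simp [smul_eq_mul]

private theorem th_X : th (X : ℚ⟦X⟧) = X := by
  ext n
  rw [coeff_th, coeff_X]
  split_ifs with h
  · subst h; simp
  · simp

private noncomputable def ff : ℚ⟦X⟧ := PowerSeries.mk fun k => (cc k : ℚ)

private theorem ode : th (th ff) = X * (((27 : ℕ) : ℚ⟦X⟧) * th (th ff)) +
    X * (((27 : ℕ) : ℚ⟦X⟧) * th ff) + X * (((6 : ℕ) : ℚ⟦X⟧) * ff) := by
  ext n
  cases n with
  | zero => simp [coeff_th]
  | succ n =>
    simp only [map_add, coeff_succ_X_mul, coeff_num, coeff_th]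
    have h2 : (cc (n + 1) : ℚ) * ((n : ℚ) + 1) ^ 2 = 3 * (3 * n + 1) * (3 * n + 2) * cc n := by
      exact_mod_cast cc_rec n
    simp only [ff, coeff_mk]
    push_cast
    linarith

private theorem ode_sq (g G : ℚ⟦X⟧) (hg : g = ff * ff)
    (hG : G = th (th g) - X * (((27 : ℕ) : ℚ⟦X⟧) * th (th g)) - X * (((27 : ℕ) : ℚ⟦X⟧) * th g) -
      X * (((12 : ℕ) : ℚ⟦X⟧) * g)) :
    th G = X * (((27 : ℕ) : ℚ⟦X⟧) * th G) + X * (((27 : ℕ) : ℚ⟦X⟧) * G) +
      X * (((12 : ℕ) : ℚ⟦X⟧) * th g) - X * (X * (((324 : ℕ) : ℚ⟦X⟧) * th g)) := by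
  have h0 := ode
  generalize h1 : th ff = f1 at h0
  generalize h2 : th f1 = f2 at h0
  have e1 : th g = 2 * (ff * f1) := by
    rw [hg, Derivation.leibniz, h1]; simp only [smul_eq_mul]; ring
  have e2 : th (th g) = 2 * (f1 * f1 + ff * f2) := by
    rw [e1, Derivation.leibniz, Derivation.leibniz, h1, h2,
      show (2 : ℚ⟦X⟧) = ((2 : ℕ) : ℚ⟦X⟧) by norm_num, Derivation.map_natCast]
    simp only [smul_eq_mul]; push_cast; ring
  have e3 : G = ((2 : ℕ) : ℚ⟦X⟧) * (f1 * f1) - X * (((54 : ℕ) : ℚ⟦X⟧) * (f1 * f1)) := by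
    rw [hG, e2, e1, hg]
    push_cast at h0 ⊢
    linear_combination (2 * ff) * h0
  have e4 : th G = X * (((54 : ℕ) : ℚ⟦X⟧) * (f1 * f1)) + X * (((24 : ℕ) : ℚ⟦X⟧) * (ff * f1)) := by
    rw [e3, Derivation.map_sub, th_num, Derivation.leibniz, Derivation.leibniz, th_num,
      Derivation.leibniz, h2, th_X]
    simp only [smul_eq_mul]
    push_cast at h0 ⊢
    linear_combination (4 * f1) * h0
  rw [e4, e3, e1]
  push_cast
  ring

private theorem Rf_rec (n : ℕ) :
    ((n : ℚ) + 2) ^ 3 * coeff (n + 2) (ff * ff) =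
        3 * (2 * n + 3) * (9 * (n + 2) * (n + 1) + 4) * coeff (n + 1) (ff * ff) -
        81 * (n + 1) * (3 * n + 4) * (3 * n + 2) * coeff n (ff * ff) := by
  have h := ode_sq (ff * ff) _ rfl rfl
  have h' := congrArg (coeff (n + 2)) h
  simp only [map_add, map_sub, coeff_succ_X_mul, coeff_num, coeff_th] at h'
  push_cast at h'
  linear_combination h'

private theorem coeff_ff (n : ℕ) : coeff n (ff * ff) =
    ∑ k ∈ Finset.range (n + 1), (cc k : ℚ) * (cc (n - k) : ℚ) := by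
  rw [coeff_mul, Finset.Nat.sum_antidiagonal_eq_sum_range_succ_mk]
  simp [ff]

private theorem Lf_eq_coeff (n : ℕ) : Lf n = coeff n (ff * ff) ∧
    Lf (n + 1) = coeff (n + 1) (ff * ff) := by
  induction n with
  | zero =>
    rw [coeff_ff, coeff_ff]
    constructor
    · simp [Lf, Fn, aa, cc]
    · simp [Lf, Fn, aa, cc, Finset.sum_range_succ, Nat.choose]
      norm_num
  | succ n ih =>
    refine ⟨ih.2, ?_⟩
    have h1 := Lf_rec n
    have h2 := Rf_rec n
    rw [ih.1, ih.2, ← h2] at h1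
    exact mul_left_cancel₀ (by positivity) h1

end Series

theorem clausen_coeff (m : ℕ) :
    ∑ k ∈ Finset.range (m + 1), (Nat.choose (2 * k) k : ℤ) * (cc k : ℤ) *
        (Nat.choose k (m - k) : ℤ) * (-27) ^ (m - k) =
      ∑ k ∈ Finset.range (m + 1), (cc k : ℤ) * (cc (m - k) : ℤ) := by
  have h := (Lf_eq_coeff m).1
  rw [coeff_ff] at h
  have h2 : Lf m = ∑ k ∈ Finset.range (m + 1), (Nat.choose (2 * k) k : ℚ) * (cc k : ℚ) *
        (Nat.choose k (m - k) : ℚ) * (-27) ^ (m - k) := by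
    refine Finset.sum_congr rfl fun k hk => ?_
    unfold Fn aa
    rw [if_pos (by simpa [Nat.lt_succ_iff] using hk)]
  rw [h2] at h
  exact_mod_cast h

end SunQ1
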