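import Mathlib

/-!
# Clausen's formula modulo `p ^ 2`

With `c_k = C(2k,k) C(3k,k)`: in every commutative ring in which `p ^ 2 = 0`, `p` an odd prime,
`∑_{k<p} C(2k,k) c_k (x (1 - 27 x)) ^ k = (∑_{k<p} c_k x ^ k) ^ 2`.
-/

set_option autoImplicit false

namespace Pool.Agent.D8ed36C

open Finset PowerSeries

/-- `c_k = C(2k,k) C(3k,k) = (3k)! / k! ^ 3` -/
def cc (k : ℕ) : ℕ := (2 * k).choose k * (3 * k).choose k

/-- `a_k = C(2k,k) ^ 2 C(3k,k)` -/
def aa (k : ℕ) : ℕ := (2 * k).choose k ^ 2 * (3 * k).choose k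

lemma cc_mul (k : ℕ) : cc k * k.factorial ^ 3 = (3 * k).factorial := by
  have h1 : (2 * k).choose k * k.factorial * k.factorial = (2 * k).factorial := by
    have h := Nat.choose_mul_factorial_mul_factorial (n := 2 * k) (k := k) (by omega)
    rwa [show 2 * k - k = k by omega] at h
  have h2 : (3 * k).choose k * k.factorial * (2 * k).factorial = (3 * k).factorial := by
    have h := Nat.choose_mul_factorial_mul_factorial (n := 3 * k) (k := k) (by omega)
    rwa [show 3 * k - k = 2 * k by omega] at h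
  rw [← h2, ← h1, cc]
  ring

lemma cc_succ (k : ℕ) : (k + 1) ^ 2 * cc (k + 1) = 3 * (3 * k + 1) * (3 * k + 2) * cc k := by
  have h1 := cc_mul k
  have h2 := cc_mul (k + 1)
  have h3 : (3 * (k + 1)).factorial
      = (3 * k + 3) * ((3 * k + 2) * ((3 * k + 1) * (3 * k).factorial)) := by
    rw [show 3 * (k + 1) = 3 * k + 2 + 1 by ring, Nat.factorial_succ, Nat.factorial_succ,
      Nat.factorial_succ]
  have hpos : 0 < k.factorial ^ 3 * (k + 1) := by positivity
  apply Nat.eq_of_mul_eq_mul_right hpos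
  rw [h3, ← h1, Nat.factorial_succ] at h2
  calc (k + 1) ^ 2 * cc (k + 1) * (k.factorial ^ 3 * (k + 1))
      = cc (k + 1) * ((k + 1) * k.factorial) ^ 3 := by ring
    _ = _ := by rw [h2]; ring

lemma aa_eq (k : ℕ) : aa k = k.centralBinom * cc k := by
  rw [aa, cc, Nat.centralBinom]; ring

lemma aa_succ (k : ℕ) :
    (k + 1) ^ 3 * aa (k + 1) = 6 * (2 * k + 1) * (3 * k + 1) * (3 * k + 2) * aa k := by
  have h1 := cc_succ k
  have h2 := Nat.succ_mul_centralBinom_succ k
  rw [aa_eq, aa_eq]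
  calc (k + 1) ^ 3 * ((k + 1).centralBinom * cc (k + 1))
      = ((k + 1) * (k + 1).centralBinom) * ((k + 1) ^ 2 * cc (k + 1)) := by ring
    _ = _ := by rw [h1, h2]; ring

/-! ### The operator `θ = X d/dX` on power series -/

/-- `θ = X d/dX` -/
noncomputable def th : Derivation ℚ ℚ⟦X⟧ ℚ⟦X⟧ := (X : ℚ⟦X⟧) • PowerSeries.derivative ℚ

lemma th_apply (f : ℚ⟦X⟧) : th f = X * PowerSeries.derivative ℚ f := rfl

lemma th_mul (f g : ℚ⟦X⟧) : th (f * g) = f * th g + g * th f := by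
  rw [Derivation.leibniz, smul_eq_mul, smul_eq_mul]

lemma coeff_th (f : ℚ⟦X⟧) (n : ℕ) : coeff n (th f) = n * coeff n f := by
  rw [th_apply]
  cases n with
  | zero => simp
  | succ n =>
    rw [coeff_succ_X_mul, PowerSeries.coeff_derivative]
    push_cast; ring

lemma th_X : th (X : ℚ⟦X⟧) = X := by
  ext n
  rw [coeff_th, coeff_X]
  split_ifs with h
  · rw [h]; norm_num
  · simp

lemma th_natCast (n : ℕ) : th (n : ℚ⟦X⟧) = 0 := by
  simp

/-- the third order operator -/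
noncomputable def LL (u : ℚ⟦X⟧) : ℚ⟦X⟧ :=
  (1 - 27 * X) ^ 2 * th (th (th u)) - 81 * X * (1 - 27 * X) * th (th u)
    + (2106 * X ^ 2 - 51 * X) * th u + (648 * X ^ 2 - 12 * X) * u

lemma LL_sub (u v : ℚ⟦X⟧) : LL (u - v) = LL u - LL v := by
  simp only [LL, map_sub]; ring

/-- `f = ∑ c_k X ^ k` -/
noncomputable def ff : ℚ⟦X⟧ := PowerSeries.mk fun k => (cc k : ℚ)

lemma ode_ff : (1 - 27 * X) * th (th ff) = 27 * X * th ff + 6 * X * ff := by
  have h : th (th ff) = X * (27 * th (th ff) + 27 * th ff + 6 * ff) := by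
    ext n
    cases n with
    | zero => simp [coeff_th]
    | succ n =>
      rw [coeff_succ_X_mul]
      have e27 : ∀ g : ℚ⟦X⟧, coeff n (27 * g) = 27 * coeff n g := fun g => by
        rw [← map_ofNat (C (R := ℚ)) 27, coeff_C_mul]
      have e6 : ∀ g : ℚ⟦X⟧, coeff n (6 * g) = 6 * coeff n g := fun g => by
        rw [← map_ofNat (C (R := ℚ)) 6, coeff_C_mul]
      rw [map_add, map_add, e27, e27, e6]
      simp only [coeff_th, ff, coeff_mk]
      have h := cc_succ n
      have h' : ((n : ℚ) + 1) ^ 2 * (cc (n + 1) : ℚ)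
          = 3 * (3 * n + 1) * (3 * n + 2) * (cc n : ℚ) := by exact_mod_cast h
      push_cast
      linear_combination h'
  linear_combination h

lemma th_const_mul (n : ℕ) (f : ℚ⟦X⟧) : th ((n : ℚ⟦X⟧) * f) = n * th f := by
  rw [th_mul, th_natCast]; ring

/-- `1 - 27 X` -/
noncomputable def s1 : ℚ⟦X⟧ := 1 - 27 * X

/-- `1 - 54 X` -/
noncomputable def r1 : ℚ⟦X⟧ := 1 - 54 * X

lemma th_27X : th (27 * X : ℚ⟦X⟧) = 27 * X := by
  have h := th_const_mul 27 X
  rw [th_X] at h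
  exact_mod_cast h

lemma th_54X : th (54 * X : ℚ⟦X⟧) = 54 * X := by
  have h := th_const_mul 54 X
  rw [th_X] at h
  exact_mod_cast h

lemma th_6X : th (6 * X : ℚ⟦X⟧) = 6 * X := by
  have h := th_const_mul 6 X
  rw [th_X] at h
  exact_mod_cast h

lemma th_s1 : th s1 = -(27 * X) := by
  rw [s1, map_sub, th_27X, Derivation.map_one_eq_zero]; ring

lemma th_r1 : th r1 = -(54 * X) := by
  rw [r1, map_sub, th_54X, Derivation.map_one_eq_zero]; ring

/-- the square of `f` satisfies the third order equation -/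
lemma LL_sq : LL (ff * ff) = 0 := by
  have R1 : s1 * th (th ff) = 27 * X * th ff + 6 * X * ff := ode_ff
  have R2 : s1 * th (th (th ff)) = 54 * X * th (th ff) + 33 * X * th ff + 6 * X * ff := by
    have h := congrArg th R1
    rw [th_mul, th_s1, map_add, th_mul, th_27X, th_mul (6 * X) ff, th_6X] at h
    linear_combination h
  have e1 : th (ff * ff) = 2 * (ff * th ff) := by rw [th_mul]; ring
  have e2 : th (th (ff * ff)) = 2 * (th ff * th ff) + 2 * (ff * th (th ff)) := by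
    rw [e1]
    have h := th_const_mul 2 (ff * th ff)
    push_cast at h
    rw [h, th_mul]; ring
  have e3 : th (th (th (ff * ff))) = 6 * (th ff * th (th ff)) + 2 * (ff * th (th (th ff))) := by
    rw [e2, map_add]
    have h := th_const_mul 2 (th ff * th ff)
    have h' := th_const_mul 2 (ff * th (th ff))
    push_cast at h h'
    rw [h, h', th_mul, th_mul]; ring
  rw [LL, e3, e2, e1]
  rw [s1] at R1 R2
  linear_combination (6 * th ff * (1 - 27 * X) - 54 * X * ff) * R1 + 2 * ff * (1 - 27 * X) * R2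

/-- `y = X (1 - 27 X)` -/
noncomputable def yy : ℚ⟦X⟧ := X * s1

lemma th_yy : th yy = X * r1 := by
  rw [yy, th_mul, th_X, th_s1, s1, r1]; ring

lemma s1_th_pow (k : ℕ) : s1 * th (yy ^ k) = k * (r1 * yy ^ k) := by
  induction k with
  | zero => simp
  | succ k ih =>
    rw [pow_succ, th_mul, th_yy]
    push_cast
    have : s1 * (yy ^ k * (X * r1) + yy * th (yy ^ k))
        = yy ^ k * (yy * r1) + yy * (s1 * th (yy ^ k)) := by rw [yy]; ring
    rw [this, ih]; ring

/-- `w_j = ∑_{k ≤ N} k ^ j a_k y ^ k` -/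
noncomputable def ww (N j : ℕ) : ℚ⟦X⟧ := ∑ k ∈ range (N + 1), ((k ^ j * aa k : ℕ) : ℚ⟦X⟧) * yy ^ k

lemma s1_th_ww (N j : ℕ) : s1 * th (ww N j) = r1 * ww N (j + 1) := by
  rw [ww, ww, map_sum, mul_sum, mul_sum]
  refine sum_congr rfl fun k _ => ?_
  rw [th_const_mul]
  have h := s1_th_pow k
  push_cast
  linear_combination ((k : ℚ⟦X⟧) ^ j * (aa k : ℚ⟦X⟧)) * h

lemma ww_three (N : ℕ) : ww N 3 = yy * (108 * ww N 3 + 162 * ww N 2 + 78 * ww N 1 + 12 * ww N 0)
    - (((N + 1) ^ 3 * aa (N + 1) : ℕ) : ℚ⟦X⟧) * yy ^ (N + 1) := by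
  have h1 : ww (N + 1) 3 = ww N 3 + (((N + 1) ^ 3 * aa (N + 1) : ℕ) : ℚ⟦X⟧) * yy ^ (N + 1) := by
    rw [ww, sum_range_succ, ww]
  have h2 : ww (N + 1) 3
      = yy * (108 * ww N 3 + 162 * ww N 2 + 78 * ww N 1 + 12 * ww N 0) := by
    rw [ww, sum_range_succ']
    simp only [ww, mul_add, mul_sum, ← sum_add_distrib]
    have h0 : (((0 ^ 3 * aa 0 : ℕ)) : ℚ⟦X⟧) * yy ^ 0 = 0 := by simp
    rw [h0, add_zero]
    refine sum_congr rfl fun k _ => ?_
    have h := aa_succ k
    have h' : (((k + 1) ^ 3 * aa (k + 1) : ℕ) : ℚ⟦X⟧)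
        = ((6 * (2 * k + 1) * (3 * k + 1) * (3 * k + 2) * aa k : ℕ) : ℚ⟦X⟧) := by rw [h]
    rw [h']
    push_cast
    ring
  rw [← h2, h1]; ring

/-- the truncated composite satisfies the equation up to a high power of `X` -/
lemma LL_ww (N : ℕ) : X ^ (N + 1) ∣ LL (ww N 0) := by
  have t27 : th (27 : ℚ⟦X⟧) = 0 := by exact_mod_cast th_natCast 27
  have t54 : th (54 : ℚ⟦X⟧) = 0 := by exact_mod_cast th_natCast 54
  have E1 : s1 * th (ww N 0) = r1 * ww N 1 := s1_th_ww N 0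
  have E2 : s1 * th (ww N 1) = r1 * ww N 2 := s1_th_ww N 1
  have E3 : s1 * th (ww N 2) = r1 * ww N 3 := s1_th_ww N 2
  have D1 := congrArg th E1
  rw [th_mul, th_mul, th_s1, th_r1] at D1
  have DD1 := congrArg th D1
  have D2 := congrArg th E2
  rw [th_mul, th_mul, th_s1, th_r1] at D2
  simp only [map_add, th_mul, map_neg, th_s1, th_r1, th_X, t27, t54] at DD1
  have W := ww_three N
  have key : s1 * LL (ww N 0)
      = -(r1 * ((((N + 1) ^ 3 * aa (N + 1) : ℕ) : ℚ⟦X⟧) * yy ^ (N + 1))) := by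
    rw [LL]
    generalize (((N + 1) ^ 3 * aa (N + 1) : ℕ) : ℚ⟦X⟧) * yy ^ (N + 1) = e at *
    generalize th (th (th (ww N 0))) = v3 at *
    generalize th (th (ww N 0)) = v2 at *
    generalize th (ww N 0) = v1 at *
    generalize th (th (ww N 1)) = p2 at *
    generalize th (ww N 1) = p1 at *
    generalize th (ww N 2) = q1 at *
    generalize ww N 0 = w0 at *
    generalize ww N 1 = w1 at *
    generalize ww N 2 = w2 at *
    generalize ww N 3 = w3 at *
    rw [yy] at W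
    simp only [s1, r1] at *
    linear_combination (1 - 27 * X) ^ 2 * DD1 - 27 * X * (1 - 27 * X) * D1
      + (648 * X ^ 2 - 24 * X) * E1 + (1 - 54 * X) * (1 - 27 * X) * D2
      - 108 * X * (1 - 27 * X) * E2 + (1 - 54 * X) ^ 2 * E3 + (1 - 54 * X) * W
  have hu : IsUnit s1 := by
    rw [PowerSeries.isUnit_iff_constantCoeff, s1]
    simp
  have h1 : X ^ (N + 1) ∣ s1 * LL (ww N 0) := by
    rw [key, yy, mul_pow]
    exact Dvd.dvd.neg_right (Dvd.intro_left
      (r1 * (((N + 1) ^ 3 * aa (N + 1) : ℕ) : ℚ⟦X⟧) * s1 ^ (N + 1)) (by ring))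
  exact (hu.dvd_mul_left).1 h1

/-- uniqueness: a series with `LL z = O(X ^ (N+1))` and no constant term vanishes to that order -/
lemma unique (N : ℕ) (z : ℚ⟦X⟧) (h0 : coeff 0 z = 0) (hz : X ^ (N + 1) ∣ LL z) :
    ∀ m ≤ N, coeff m z = 0 := by
  intro m
  induction m using Nat.strong_induction_on with
  | _ m ih =>
    intro hm
    rcases m with _ | n
    · exact h0
    have h1 : coeff (n + 1) (LL z) = 0 := (X_pow_dvd_iff.1 hz) (n + 1) (by omega)
    have e : LL z = th (th (th z)) + X * ((-54 : ℚ) • th (th (th z)) - (81 : ℚ) • th (th z)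
        - (51 : ℚ) • th z - (12 : ℚ) • z + X * ((729 : ℚ) • th (th (th z))
        + (2187 : ℚ) • th (th z) + (2106 : ℚ) • th z + (648 : ℚ) • z)) := by
      have c : ∀ (q : ℕ) (g : ℚ⟦X⟧), ((q : ℕ) : ℚ) • g = (q : ℚ⟦X⟧) * g := fun q g => by
        rw [Nat.cast_smul_eq_nsmul, nsmul_eq_mul]
      have c54 := c 54; have c81 := c 81; have c51 := c 51; have c12 := c 12
      have c729 := c 729; have c2187 := c 2187; have c2106 := c 2106; have c648 := c 648
      push_cast at c54 c81 c51 c12 c729 c2187 c2106 c648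
      rw [neg_smul, c54, c81, c51, c12, c729, c2187, c2106, c648, LL]
      ring
    rw [e, map_add, coeff_succ_X_mul] at h1
    have hn : coeff n z = 0 := ih n (by omega) (by omega)
    have h2 : coeff n (X * ((729 : ℚ) • th (th (th z))
        + (2187 : ℚ) • th (th z) + (2106 : ℚ) • th z + (648 : ℚ) • z)) = 0 := by
      rcases n with _ | k
      · simp
      · rw [coeff_succ_X_mul]
        have hk : coeff k z = 0 := ih k (by omega) (by omega)
        simp [coeff_th, hk]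
    rw [map_add, h2] at h1
    simp only [map_sub, map_smul, coeff_th, hn, smul_eq_mul] at h1
    have hne : (((n + 1 : ℕ) : ℚ)) ≠ 0 := by positivity
    have h3 : (((n + 1 : ℕ) : ℚ)) ^ 3 * coeff (n + 1) z = 0 := by linear_combination h1
    exact (mul_eq_zero.1 h3).resolve_left (pow_ne_zero 3 hne)

/-- the formal identity: the coefficients of the truncated composite agree with those of `f ^ 2` -/
lemma coeff_formal (N m : ℕ) (hm : m ≤ N) :
    coeff m (∑ k ∈ range (N + 1), ((aa k : ℕ) : ℚ⟦X⟧) * yy ^ k) = coeff m (ff * ff) := by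
  have h1 : ∑ k ∈ range (N + 1), ((aa k : ℕ) : ℚ⟦X⟧) * yy ^ k = ww N 0 := by
    rw [ww]; refine sum_congr rfl fun k _ => ?_
    rw [pow_zero, one_mul]
  rw [h1]
  have h2 := unique N (ww N 0 - ff * ff) ?_ ?_ m hm
  · rw [map_sub, sub_eq_zero] at h2; exact h2
  · rw [map_sub, ww, map_sum, sum_range_succ']
    have hz : ∀ k ∈ range N, coeff 0 ((((k + 1) ^ 0 * aa (k + 1) : ℕ) : ℚ⟦X⟧) * yy ^ (k + 1)) = 0 := by
      intro k _
      rw [yy]
      simp
    rw [sum_eq_zero hz]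
    simp [ff, aa, cc]
  · rw [LL_sub, LL_sq, sub_zero]
    exact LL_ww N

/-! ### Integer polynomials -/

/-- `∑_{k<p} a_k (X (1 - 27 X)) ^ k` -/
noncomputable def P1 (p : ℕ) : Polynomial ℤ :=
  ∑ k ∈ range p, ((aa k : ℕ) : Polynomial ℤ) * (Polynomial.X * (1 - 27 * Polynomial.X)) ^ k

/-- `∑_{k<p} c_k X ^ k` -/
noncomputable def P2 (p : ℕ) : Polynomial ℤ :=
  ∑ k ∈ range p, ((cc k : ℕ) : Polynomial ℤ) * Polynomial.X ^ k

lemma coeff_P2 (p m : ℕ) : (P2 p).coeff m = if m < p then (cc m : ℤ) else 0 := by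
  rw [P2, Polynomial.finsetSum_coeff]
  have h : ∀ k ∈ range p, (((cc k : ℕ) : Polynomial ℤ) * Polynomial.X ^ k).coeff m
      = if m = k then (cc k : ℤ) else 0 := by
    intro k _
    rw [← Polynomial.C_eq_natCast, Polynomial.coeff_C_mul_X_pow]
  rw [sum_congr rfl h, sum_ite_eq]
  simp only [mem_range]

/-- the ring homomorphism `ℤ[X] → ℚ⟦X⟧` -/
noncomputable def phi : Polynomial ℤ →+* ℚ⟦X⟧ :=
  (Polynomial.coeToPowerSeries.ringHom (R := ℚ)).comp
    (Polynomial.mapRingHom (Int.castRingHom ℚ))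

lemma coeff_phi (f : Polynomial ℤ) (m : ℕ) : coeff m (phi f) = (f.coeff m : ℚ) := by
  simp [phi, Polynomial.coeff_coe]

lemma phi_X : phi Polynomial.X = (X : ℚ⟦X⟧) := by
  simp [phi]

lemma coeff_low (p m : ℕ) (hm : m < p) : (P1 p).coeff m = (P2 p * P2 p).coeff m := by
  obtain ⟨N, rfl⟩ : ∃ N, p = N + 1 := ⟨p - 1, by omega⟩
  have h1 : phi (P1 (N + 1)) = ∑ k ∈ range (N + 1), ((aa k : ℕ) : ℚ⟦X⟧) * yy ^ k := by
    rw [P1, map_sum]
    refine sum_congr rfl fun k _ => ?_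
    rw [map_mul, map_natCast, map_pow, map_mul, map_sub, map_mul, phi_X, map_one, map_ofNat, yy, s1]
  have h2 : coeff m (phi (P2 (N + 1) * P2 (N + 1))) = coeff m (ff * ff) := by
    rw [map_mul, coeff_mul, coeff_mul]
    refine sum_congr rfl fun x hx => ?_
    have hx' := mem_antidiagonal.1 hx
    rw [coeff_phi, coeff_phi, coeff_P2, coeff_P2, if_pos (by omega), if_pos (by omega), ff,
      coeff_mk, coeff_mk]
    push_cast; rfl
  have h3 := coeff_formal N m (by omega)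
  rw [← h1, ← h2, coeff_phi, coeff_phi] at h3
  exact_mod_cast h3

lemma coprime_fac (p k : ℕ) (hp : p.Prime) (hk : k < p) : Nat.Coprime p (k.factorial ^ 3) := by
  apply Nat.Coprime.pow_right
  rw [hp.coprime_iff_not_dvd, hp.dvd_factorial]
  omega

lemma dvd_cc_one (p k : ℕ) (hp : p.Prime) (hk : k < p) (h : p ≤ 3 * k) : p ∣ cc k := by
  have h1 : p ∣ cc k * k.factorial ^ 3 := by
    rw [cc_mul]; exact (hp.dvd_factorial).2 h
  exact (coprime_fac p k hp hk).dvd_of_dvd_mul_right h1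

lemma sq_dvd_fac (p n : ℕ) (hp : p.Prime) (h : 2 * p ≤ n) : p ^ 2 ∣ n.factorial := by
  have h1 : p ^ 2 ∣ (2 * p).factorial := by
    obtain ⟨q, hq⟩ : ∃ q, 2 * p = q + 1 := ⟨2 * p - 1, by have := hp.pos; omega⟩
    have h2 : p ∣ q.factorial := (hp.dvd_factorial).2 (by have := hp.two_le; omega)
    rw [hq, Nat.factorial_succ, ← hq, pow_two]
    exact mul_dvd_mul (Dvd.intro_left 2 rfl) h2
  exact h1.trans (Nat.factorial_dvd_factorial h)

lemma dvd_cc_two (p k : ℕ) (hp : p.Prime) (hk : k < p) (h : 2 * p ≤ 3 * k) : p ^ 2 ∣ cc k := by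
  have h1 : p ^ 2 ∣ cc k * k.factorial ^ 3 := by
    rw [cc_mul]; exact sq_dvd_fac p _ hp h
  exact ((coprime_fac p k hp hk).pow_left 2).dvd_of_dvd_mul_right h1

lemma dvd_aa (p k : ℕ) (hp : p.Prime) (hk : k < p) (h : p ≤ 2 * k) : p ^ 2 ∣ aa k := by
  have h1 : p ∣ (2 * k).choose k := hp.dvd_choose hk (by omega) h
  exact Dvd.dvd.mul_right (pow_dvd_pow_of_dvd h1 2) _

lemma coeff_high_one (p m : ℕ) (hp : p.Prime) (hm : p ≤ m) : ((p : ℤ) ^ 2) ∣ (P1 p).coeff m := by
  rw [P1, Polynomial.finsetSum_coeff]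
  refine dvd_sum fun k hk => ?_
  have hk' := mem_range.1 hk
  rw [← Polynomial.C_eq_natCast, Polynomial.coeff_C_mul]
  rcases Nat.lt_or_ge (2 * k) p with h | h
  · have hdeg : ((Polynomial.X * (1 - 27 * Polynomial.X) : Polynomial ℤ) ^ k).natDegree < m := by
      have h1 : (Polynomial.X * (1 - 27 * Polynomial.X) : Polynomial ℤ).natDegree ≤ 2 := by
        compute_degree
      have h2 := Polynomial.natDegree_pow_le_of_le k h1
      omega
    rw [Polynomial.coeff_eq_zero_of_natDegree_lt hdeg, mul_zero]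
    exact dvd_zero _
  · have h1 := dvd_aa p k hp hk' h
    have h2 : ((p : ℤ) ^ 2) ∣ ((aa k : ℕ) : ℤ) := by exact_mod_cast h1
    exact h2.mul_right _

lemma coeff_high_two (p m : ℕ) (hp : p.Prime) (hm : p ≤ m) :
    ((p : ℤ) ^ 2) ∣ (P2 p * P2 p).coeff m := by
  rw [Polynomial.coeff_mul]
  refine dvd_sum fun x hx => ?_
  have hx' := mem_antidiagonal.1 hx
  rw [coeff_P2, coeff_P2]
  split_ifs with h1 h2 h3
  · rcases Nat.lt_or_ge (3 * x.1) p with h4 | h4
    · have h5 := dvd_cc_two p x.2 hp h2 (by omega)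
      have h6 : ((p : ℤ) ^ 2) ∣ ((cc x.2 : ℕ) : ℤ) := by exact_mod_cast h5
      exact h6.mul_left _
    · rcases Nat.lt_or_ge (3 * x.2) p with h5 | h5
      · have h6 := dvd_cc_two p x.1 hp h1 (by omega)
        have h7 : ((p : ℤ) ^ 2) ∣ ((cc x.1 : ℕ) : ℤ) := by exact_mod_cast h6
        exact h7.mul_right _
      · have h6 := dvd_cc_one p x.1 hp h1 h4
        have h7 := dvd_cc_one p x.2 hp h2 h5
        have h6' : (p : ℤ) ∣ ((cc x.1 : ℕ) : ℤ) := by exact_mod_cast h6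
        have h7' : (p : ℤ) ∣ ((cc x.2 : ℕ) : ℤ) := by exact_mod_cast h7
        rw [pow_two]
        exact mul_dvd_mul h6' h7'
  all_goals simp

/-- **Clausen's formula modulo `p ^ 2`**, as a divisibility in any commutative ring -/
theorem clausen_dvd (p : ℕ) (hp : p.Prime) {R : Type*} [CommRing R] (x : R) :
    (p : R) ^ 2 ∣ (∑ k ∈ range p, ((aa k : ℕ) : R) * (x * (1 - 27 * x)) ^ k)
      - (∑ k ∈ range p, ((cc k : ℕ) : R) * x ^ k) ^ 2 := by
  have h1 : Polynomial.C ((p : ℤ) ^ 2) ∣ P1 p - P2 p * P2 p := by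
    rw [Polynomial.C_dvd_iff_dvd_coeff]
    intro m
    rw [Polynomial.coeff_sub]
    rcases Nat.lt_or_ge m p with h | h
    · rw [coeff_low p m h, sub_self]; exact dvd_zero _
    · exact dvd_sub (coeff_high_one p m hp h) (coeff_high_two p m hp h)
  obtain ⟨Q, hQ⟩ := h1
  have h2 := congrArg (Polynomial.eval₂RingHom (Int.castRingHom R) x) hQ
  refine ⟨Polynomial.eval₂RingHom (Int.castRingHom R) x Q, ?_⟩
  rw [map_mul, map_sub, map_mul] at h2
  have eX : Polynomial.eval₂RingHom (Int.castRingHom R) x Polynomial.X = x :=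
    Polynomial.eval₂_X _ _
  have e1 : Polynomial.eval₂RingHom (Int.castRingHom R) x (P1 p)
      = ∑ k ∈ range p, ((aa k : ℕ) : R) * (x * (1 - 27 * x)) ^ k := by
    rw [P1, map_sum]
    refine sum_congr rfl fun k _ => ?_
    rw [map_mul, map_natCast, map_pow, map_mul, map_sub, map_mul, map_one, map_ofNat, eX]
  have e2 : Polynomial.eval₂RingHom (Int.castRingHom R) x (P2 p)
      = ∑ k ∈ range p, ((cc k : ℕ) : R) * x ^ k := by
    rw [P2, map_sum]
    refine sum_congr rfl fun k _ => ?_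
    rw [map_mul, map_natCast, map_pow, eX]
  rw [e1, e2] at h2
  have e3 : Polynomial.eval₂RingHom (Int.castRingHom R) x (Polynomial.C ((p : ℤ) ^ 2))
      = (p : R) ^ 2 := by
    rw [map_pow, map_natCast, map_pow, map_natCast]
  rw [e3] at h2
  rw [← h2]; ring

/-- **Clausen's formula modulo `p ^ 2`** -/
theorem clausen (p : ℕ) (hp : p.Prime) {R : Type*} [CommRing R] (hR : (p : R) ^ 2 = 0) (x : R) :
    ∑ k ∈ range p, ((aa k : ℕ) : R) * (x * (1 - 27 * x)) ^ k
      = (∑ k ∈ range p, ((cc k : ℕ) : R) * x ^ k) ^ 2 := by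
  have h := clausen_dvd p hp x
  rw [hR, zero_dvd_iff, sub_eq_zero] at h
  exact h

end Pool.Agent.D8ed36C
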