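import Pool.Agent.Lib_MP_d8ed36_q1.Defs
import Pool.Agent.Lib_MP_d8ed36_q1.ClausenP

/-!
# MP_d8ed36_nt Q1, piece CLAUSENM: Clausen modulo `p²`

Compare the coefficients of `x^m`: for `m < p` this is the formal identity (file ClausenP); for
`m ≥ p` every term on both sides is divisible by `p²`: on the left `k ≥ m/2 ≥ p/2` and
`p ∣ C(2k,k)`; on the right `p ∣ c_k` for `k ≥ p/3` and `p² ∣ c_k` for `k ≥ 2p/3` (`k < p`).
-/

namespace SunQ1

open Pool.Agent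

/-- `p ∣ c_k` for `p/3 < k < p`. -/
theorem dvd_cc {p : ℕ} (hp : p.Prime) {k : ℕ} (h1 : p ≤ 3 * k) (h2 : k < p) : p ∣ cc k :=
  D8ed36C.dvd_cc_one p k hp h2 h1

/-- `p² ∣ c_k` for `2p/3 < k < p`. -/
theorem sq_dvd_cc {p : ℕ} (hp : p.Prime) {k : ℕ} (h1 : 2 * p ≤ 3 * k) (h2 : k < p) :
    p ^ 2 ∣ cc k :=
  D8ed36C.dvd_cc_two p k hp h2 h1

theorem clausen_mod {R : Type} [CommRing R] {p : ℕ} (hp : p.Prime) (h5 : 5 ≤ p)
    (hR : (p : R) ^ 2 = 0) (x : R) :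
    ∑ k ∈ Finset.range p, (Nat.choose (2 * k) k : R) ^ 2 * (Nat.choose (3 * k) k : R) *
        (x * (1 - 27 * x)) ^ k = (AA p x) ^ 2 := by
  have h := D8ed36C.clausen p hp hR x
  rw [AA]
  refine Eq.trans (Finset.sum_congr rfl fun k _ => ?_) h
  rw [D8ed36C.aa]
  push_cast
  rfl

/-- the same as a divisibility, in any commutative ring -/
theorem clausen_dvd {R : Type} [CommRing R] {p : ℕ} (hp : p.Prime) (x : R) :
    (p : R) ^ 2 ∣ (∑ k ∈ Finset.range p, (Nat.choose (2 * k) k : R) ^ 2 *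
      (Nat.choose (3 * k) k : R) * (x * (1 - 27 * x)) ^ k) - (AA p x) ^ 2 := by
  have h := D8ed36C.clausen_dvd p hp x
  have e : (∑ k ∈ Finset.range p, (Nat.choose (2 * k) k : R) ^ 2 *
      (Nat.choose (3 * k) k : R) * (x * (1 - 27 * x)) ^ k)
      = ∑ k ∈ Finset.range p, ((D8ed36C.aa k : ℕ) : R) * (x * (1 - 27 * x)) ^ k := by
    refine Finset.sum_congr rfl fun k _ => ?_
    rw [D8ed36C.aa]
    push_cast
    rfl
  rw [e]
  exact h

end SunQ1
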