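import Pool.Agent.Lib_MP_d8ed36_q1.Defs

/-!
# MP_d8ed36_nt Q1, piece COEFF: coefficients of the powers of `F = 4X³ + (X+t)²`

`[X^n] F^m = ∑_(3i ≤ n) C(m,i) 4^i C(2(m-i), n-3i) t^(2(m-i)-(n-3i))`; with `m = (3p-1)/2` (`2m = 3p-1`)
and `n = p-1, 2p-1, 3p-1, 4p-1` this gives the four formulas below (`C(a,b) = C(a,a-b)`; terms
outside the range vanish; for `n = 4p-1` the index is `i = p + j`).
-/

namespace SunQ1

open Polynomial

variable {R : Type} [CommRing R]

theorem coeff_FF_pow (t : R) (m n : ℕ) :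
    ((FF t) ^ m).coeff n = ∑ i ∈ Finset.range (m + 1), if 3 * i ≤ n then
      (Nat.choose m i : R) * 4 ^ i * (Nat.choose (2 * (m - i)) (n - 3 * i) : R) *
        t ^ (2 * (m - i) - (n - 3 * i)) else 0 := by
  unfold FF
  rw [add_pow, Polynomial.finsetSum_coeff]
  refine Finset.sum_congr rfl fun i _ => ?_
  have h1 : (4 * X ^ 3 : R[X]) ^ i * ((X + C t) ^ 2) ^ (m - i) * ((m.choose i : ℕ) : R[X]) =
      X ^ (3 * i) * (C ((m.choose i : R) * 4 ^ i) * (X + C t) ^ (2 * (m - i))) := by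
    rw [mul_pow, ← pow_mul, ← pow_mul]
    have h4 : (C (4 : R) : R[X]) = 4 := map_ofNat C 4
    rw [map_mul, map_pow, h4, map_natCast]
    ring
  rw [h1, coeff_X_pow_mul']
  split_ifs with h
  · rw [coeff_C_mul, coeff_X_add_C_pow]
    ring
  · rfl

private theorem two_half {p : ℕ} (hp : p % 2 = 1) : ∃ h, p = 2 * h + 1 := ⟨p / 2, by omega⟩

theorem coeff_h0 {p : ℕ} (hp : p % 2 = 1) (t : R) :
    ((FF t) ^ ((p - 1) / 2)).coeff (p - 1) = ∑ j ∈ Finset.range p, (T2 p j : R) * t ^ j := by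
  obtain ⟨h, rfl⟩ := two_half hp
  have e1 : (2 * h + 1 - 1) / 2 = h := by omega
  rw [coeff_FF_pow, e1]
  refine Eq.trans (Finset.sum_congr rfl fun i hi => ?_)
    (Finset.sum_subset (Finset.range_mono (by omega : h + 1 ≤ 2 * h + 1)) fun i _ hi => ?_)
  · have hi' : i ≤ h := by
      have := Finset.mem_range.1 hi
      omega
    unfold T2
    rw [e1]
    split_ifs with h3
    · have e2 : 2 * (h - i) = 2 * h + 1 - 1 - 2 * i := by omega
      have e3 : Nat.choose (2 * h + 1 - 1 - 2 * i) (2 * h + 1 - 1 - 3 * i) =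
          Nat.choose (2 * h + 1 - 1 - 2 * i) i :=
        Nat.choose_symm_of_eq_add (by omega)
      have e4 : 2 * h + 1 - 1 - 2 * i - (2 * h + 1 - 1 - 3 * i) = i := by omega
      rw [e2, e3, e4]
      push_cast
      ring
    · have e5 : Nat.choose (2 * h + 1 - 1 - 2 * i) i = 0 := Nat.choose_eq_zero_of_lt (by omega)
      rw [e5]
      simp
  · have hi' : h < i := by
      have := hi
      rw [Finset.mem_range] at this
      omega
    unfold T2
    rw [e1, Nat.choose_eq_zero_of_lt hi']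
    simp

private theorem sum_cut {p m : ℕ} (f g : ℕ → R) (hpm : p ≤ m) (h1 : ∀ i, i < p → f i = g i)
    (h2 : ∀ i, p ≤ i → i < m → f i = 0) :
    ∑ i ∈ Finset.range m, f i = ∑ i ∈ Finset.range p, g i := by
  rw [← Finset.sum_congr rfl fun i hi => h1 i (Finset.mem_range.1 hi)]
  refine (Finset.sum_subset (Finset.range_mono hpm) fun i hi hi' => ?_).symm
  rw [Finset.mem_range] at hi hi'
  exact h2 i (by omega) hi

theorem coeff_g0 {p : ℕ} (hp : p % 2 = 1) (t : R) :
    ((FF t) ^ ((3 * p - 1) / 2)).coeff (p - 1) =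
      t ^ (2 * p) * ∑ j ∈ Finset.range p, (WW p j : R) * t ^ j := by
  obtain ⟨h, rfl⟩ := two_half hp
  have e1 : (3 * (2 * h + 1) - 1) / 2 = 3 * h + 1 := by omega
  rw [coeff_FF_pow, e1, Finset.mul_sum]
  refine sum_cut _ _ (by omega) (fun i hi => ?_) fun i hi _ => if_neg (by omega)
  unfold WW
  rw [e1]
  have e2 : 2 * (3 * h + 1 - i) = 3 * (2 * h + 1) - 1 - 2 * i := by omega
  split_ifs with h3
  · have e3 : Nat.choose (3 * (2 * h + 1) - 1 - 2 * i) (2 * h + 1 - 1 - 3 * i) =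
        Nat.choose (3 * (2 * h + 1) - 1 - 2 * i) (2 * (2 * h + 1) + i) :=
      Nat.choose_symm_of_eq_add (by omega)
    have e4 : 3 * (2 * h + 1) - 1 - 2 * i - (2 * h + 1 - 1 - 3 * i) = 2 * (2 * h + 1) + i := by
      omega
    rw [e2, e3, e4, pow_add]
    push_cast
    ring
  · have e5 : Nat.choose (3 * (2 * h + 1) - 1 - 2 * i) (2 * (2 * h + 1) + i) = 0 :=
      Nat.choose_eq_zero_of_lt (by omega)
    rw [e5]
    simp

theorem coeff_g1 {p : ℕ} (hp : p % 2 = 1) (t : R) :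
    ((FF t) ^ ((3 * p - 1) / 2)).coeff (2 * p - 1) =
      t ^ p * ∑ j ∈ Finset.range p, (UU p j : R) * t ^ j := by
  obtain ⟨h, rfl⟩ := two_half hp
  have e1 : (3 * (2 * h + 1) - 1) / 2 = 3 * h + 1 := by omega
  rw [coeff_FF_pow, e1, Finset.mul_sum]
  refine sum_cut _ _ (by omega) (fun i hi => ?_) fun i hi _ => if_neg (by omega)
  unfold UU
  rw [e1]
  have e2 : 2 * (3 * h + 1 - i) = 3 * (2 * h + 1) - 1 - 2 * i := by omega
  split_ifs with h3
  · have e3 : Nat.choose (3 * (2 * h + 1) - 1 - 2 * i) (2 * (2 * h + 1) - 1 - 3 * i) =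
        Nat.choose (3 * (2 * h + 1) - 1 - 2 * i) ((2 * h + 1) + i) :=
      Nat.choose_symm_of_eq_add (by omega)
    have e4 : 3 * (2 * h + 1) - 1 - 2 * i - (2 * (2 * h + 1) - 1 - 3 * i) = (2 * h + 1) + i := by
      omega
    rw [e2, e3, e4, pow_add]
    push_cast
    ring
  · have e5 : Nat.choose (3 * (2 * h + 1) - 1 - 2 * i) ((2 * h + 1) + i) = 0 :=
      Nat.choose_eq_zero_of_lt (by omega)
    rw [e5]
    simp

theorem coeff_g2 {p : ℕ} (hp : p % 2 = 1) (t : R) :
    ((FF t) ^ ((3 * p - 1) / 2)).coeff (3 * p - 1) =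
      ∑ j ∈ Finset.range p, (T3 p j : R) * t ^ j := by
  obtain ⟨h, rfl⟩ := two_half hp
  have e1 : (3 * (2 * h + 1) - 1) / 2 = 3 * h + 1 := by omega
  rw [coeff_FF_pow, e1]
  refine sum_cut _ _ (by omega) (fun i hi => ?_) fun i hi _ => if_neg (by omega)
  unfold T3
  rw [e1]
  have e2 : 2 * (3 * h + 1 - i) = 3 * (2 * h + 1) - 1 - 2 * i := by omega
  have h3 : 3 * i ≤ 3 * (2 * h + 1) - 1 := by omega
  rw [if_pos h3]
  have e3 : Nat.choose (3 * (2 * h + 1) - 1 - 2 * i) (3 * (2 * h + 1) - 1 - 3 * i) =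
      Nat.choose (3 * (2 * h + 1) - 1 - 2 * i) i :=
    Nat.choose_symm_of_eq_add (by omega)
  have e4 : 3 * (2 * h + 1) - 1 - 2 * i - (3 * (2 * h + 1) - 1 - 3 * i) = i := by
    omega
  rw [e2, e3, e4]
  push_cast
  ring

theorem coeff_g3 {p : ℕ} (hp : p % 2 = 1) (t : R) :
    ((FF t) ^ ((3 * p - 1) / 2)).coeff (4 * p - 1) =
      ∑ j ∈ Finset.range p, (QQ p j : R) * t ^ j := by
  obtain ⟨h, rfl⟩ := two_half hp
  have e1 : (3 * (2 * h + 1) - 1) / 2 = 3 * h + 1 := by omega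
  have e0 : 3 * h + 1 + 1 = (2 * h + 1) + (h + 1) := by omega
  rw [coeff_FF_pow, e1, e0, Finset.sum_range_add]
  rw [Finset.sum_eq_zero (s := Finset.range (2 * h + 1)) fun i hi => ?_, zero_add]
  · refine Eq.trans (Finset.sum_congr rfl fun j hj => ?_)
      (Finset.sum_subset (Finset.range_mono (by omega : h + 1 ≤ 2 * h + 1)) fun j _ hj => ?_)
    · have hj' : j ≤ h := by
        have := Finset.mem_range.1 hj
        omega
      unfold QQ
      rw [e1]
      split_ifs with h3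
      · have e2 : 2 * (3 * h + 1 - (2 * h + 1 + j)) = 2 * h + 1 - 1 - 2 * j := by omega
        have e3 : Nat.choose (2 * h + 1 - 1 - 2 * j) (4 * (2 * h + 1) - 1 - 3 * (2 * h + 1 + j)) =
            Nat.choose (2 * h + 1 - 1 - 2 * j) j :=
          Nat.choose_symm_of_eq_add (by omega)
        have e4 : 2 * h + 1 - 1 - 2 * j - (4 * (2 * h + 1) - 1 - 3 * (2 * h + 1 + j)) = j := by
          omega
        rw [e2, e3, e4]
        push_cast
        ring
      · have e5 : Nat.choose (2 * h + 1 - 1 - 2 * j) j = 0 := Nat.choose_eq_zero_of_lt (by omega)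
        rw [e5]
        simp
    · have hj' : h < j := by
        have := hj
        rw [Finset.mem_range] at this
        omega
      unfold QQ
      rw [e1, Nat.choose_eq_zero_of_lt (by omega : 3 * h + 1 < 2 * h + 1 + j)]
      simp
  · have hi' := Finset.mem_range.1 hi
    split_ifs with h3
    · rw [Nat.choose_eq_zero_of_lt
        (by omega : 2 * (3 * h + 1 - i) < 4 * (2 * h + 1) - 1 - 3 * i)]
      simp
    · rfl

end SunQ1
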