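import Pool.Agent.Lib_MP_d8ed36_q1.Sums
import Pool.Agent.Lib_d8ed36.Alg

/-!
# MP_d8ed36_nt Q1, piece CORE: the algebra (steps (3) and (4) of board note 2634)

The proof is in `Pool.Agent.Lib_d8ed36.Alg` (theorem `alg`).
-/

namespace SunQ1

open Polynomial

private theorem toZMod_eq_zero_iff {p : ℕ} [Fact p.Prime] (x : ℤ_[p]) :
    PadicInt.toZMod x = 0 ↔ (p : ℤ_[p]) ∣ x := by
  rw [← RingHom.mem_ker, PadicInt.ker_toZMod, PadicInt.maximalIdeal_eq_span_p,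
    Ideal.mem_span_singleton]

private theorem FF_same {R : Type} [CommRing R] (t : R) : Pool.Agent.D8ed36Alg.FF t = FF t := rfl

theorem core {p : ℕ} [Fact p.Prime] (h5 : 5 ≤ p) {t π π' : ℤ_[p]} (ht : IsUnit t)
    (hu : IsUnit π') (hπ : π * π' = (p : ℤ_[p])) {N D V : ℤ_[p][X]} (hN : N.natDegree ≤ p)
    (hD : D.natDegree < p) (hNr : N.map PadicInt.toZMod = X ^ p)
    (hDr : D.map PadicInt.toZMod = 1)
    (E1 : derivative N * D - N * derivative D = C π * V)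
    (E2 : FF t * V ^ 2 = D * (4 * N ^ 3 + D * (N + C t * D) ^ 2)) :
    (p : ℤ_[p]) ^ 2 ∣ π' - AA p t ∨ (p : ℤ_[p]) ^ 2 ∣ π' + AA p t := by
  have hr : ∀ x : ℤ_[p], PadicInt.toZMod x = 0 ↔ (p : ℤ_[p]) ∣ x := toZMod_eq_zero_iff
  have hp0 : (p : ℤ_[p]) ≠ 0 := by
    exact_mod_cast (Fact.out : p.Prime).ne_zero
  have hunit : ∀ x : ℤ_[p], IsUnit x → PadicInt.toZMod x ≠ 0 := fun x hx =>
    (hx.map (PadicInt.toZMod (p := p))).ne_zero
  obtain ⟨N1, hN1⟩ := Pool.Agent.D8ed36Alg.poly_ker PadicInt.toZMod hr (N - X ^ p)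
    (by rw [Polynomial.map_sub, hNr]; simp)
  obtain ⟨D1, hD1⟩ := Pool.Agent.D8ed36Alg.poly_ker PadicInt.toZMod hr (D - 1)
    (by rw [Polynomial.map_sub, hDr]; simp)
  have hN1d : N1.natDegree ≤ p := by
    rw [← natDegree_C_mul (a := (p : ℤ_[p])) hp0, ← hN1]
    refine (natDegree_sub_le _ _).trans (max_le hN ?_)
    rw [natDegree_X_pow]
  have hD1d : D1.natDegree < p := by
    rw [← natDegree_C_mul (a := (p : ℤ_[p])) hp0, ← hD1]
    refine (natDegree_sub_le _ _).trans_lt (max_lt hD ?_)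
    rw [natDegree_one]; omega
  have hN2 : N = X ^ p + C (p : ℤ_[p]) * N1 := by rw [← hN1]; ring
  have hD2 : D = 1 + C (p : ℤ_[p]) * D1 := by rw [← hD1]; ring
  rw [hN2, hD2] at E1 E2
  have B3 : (p : ℤ_[p]) ^ 2 ∣ 2 * AA p t - 3 * ((FF t) ^ ((p - 1) / 2)).coeff (p - 1) +
      ((FF t) ^ ((3 * p - 1) / 2)).coeff (3 * p - 1) := by
    have := cong_iii (R := ℤ_[p]) (Fact.out : p.Prime) h5 t
    have e : 2 * AA p t - 3 * ((FF t) ^ ((p - 1) / 2)).coeff (p - 1) +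
      ((FF t) ^ ((3 * p - 1) / 2)).coeff (3 * p - 1) =
      2 * AA p t - (3 * ((FF t) ^ ((p - 1) / 2)).coeff (p - 1) -
      ((FF t) ^ ((3 * p - 1) / 2)).coeff (3 * p - 1)) := by ring
    rw [e]; exact this
  obtain ⟨ε, hε, h⟩ := Pool.Agent.D8ed36Alg.alg h5 PadicInt.toZMod hr hp0 t π π' (AA p t)
    (hunit t ht) (hunit π' hu) hπ N1 D1 V hN1d hD1d E1 E2
    (cong_i (Fact.out : p.Prime) h5 t) (cong_ii (Fact.out : p.Prime) h5 t) B3
  rcases hε with h1 | h1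
  · left; rw [h1, one_mul] at h; exact h
  · right
    rw [h1] at h
    have e : π' + AA p t = π' - -1 * AA p t := by ring
    rw [e]; exact h

end SunQ1
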