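import Mathlib

/-!
# MP_d8ed36_nt Q1 (frozen S18649): definitions

`c_k = C(2k,k) C(3k,k) = (3k)!/k!^3`, `A(t) = ∑_(k<p) c_k t^k`, `F(X) = 4X³ + (X+t)²`, and the five
families of binomial terms which are the coefficients of `F^((p-1)/2)` and `F^((3p-1)/2)`.
-/

namespace SunQ1

open Polynomial

/-- `c_k = C(2k,k) C(3k,k)`. -/
def cc (k : ℕ) : ℕ := Nat.choose (2 * k) k * Nat.choose (3 * k) k

/-- `A(t) = ∑_(k<p) c_k t^k`. -/
def AA {R : Type} [CommRing R] (p : ℕ) (t : R) : R := ∑ k ∈ Finset.range p, (cc k : R) * t ^ k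

/-- `F(X) = 4X³ + (X+t)²`. -/
noncomputable def FF {R : Type} [CommRing R] (t : R) : R[X] := 4 * X ^ 3 + (X + C t) ^ 2

/-- `F(X^p)`. -/
noncomputable def FFp {R : Type} [CommRing R] (p : ℕ) (t : R) : R[X] :=
  4 * X ^ (3 * p) + (X ^ p + C t) ^ 2

/-- `F'(X^p)`. -/
noncomputable def FDp {R : Type} [CommRing R] (p : ℕ) (t : R) : R[X] :=
  12 * X ^ (2 * p) + 2 * (X ^ p + C t)

/-- coefficient of `t^j` in `[X^(p-1)] F^((p-1)/2)`. -/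
def T2 (p j : ℕ) : ℕ := Nat.choose ((p - 1) / 2) j * 4 ^ j * Nat.choose (p - 1 - 2 * j) j

/-- coefficient of `t^j` in `[X^(3p-1)] F^((3p-1)/2)`. -/
def T3 (p j : ℕ) : ℕ := Nat.choose ((3 * p - 1) / 2) j * 4 ^ j * Nat.choose (3 * p - 1 - 2 * j) j

/-- coefficient of `t^(p+j)` in `[X^(2p-1)] F^((3p-1)/2)`. -/
def UU (p j : ℕ) : ℕ :=
  Nat.choose ((3 * p - 1) / 2) j * 4 ^ j * Nat.choose (3 * p - 1 - 2 * j) (p + j)

/-- coefficient of `t^(2p+j)` in `[X^(p-1)] F^((3p-1)/2)`. -/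
def WW (p j : ℕ) : ℕ :=
  Nat.choose ((3 * p - 1) / 2) j * 4 ^ j * Nat.choose (3 * p - 1 - 2 * j) (2 * p + j)

/-- coefficient of `t^j` in `[X^(4p-1)] F^((3p-1)/2)`. -/
def QQ (p j : ℕ) : ℕ :=
  Nat.choose ((3 * p - 1) / 2) (p + j) * 4 ^ (p + j) * Nat.choose (p - 1 - 2 * j) j

end SunQ1
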