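import Pool.Agent.Lib_MP_f1937f_nt.FDif

/-!
# MP_d8ed36_nt Q1, piece FROBX: a map of degree `p` with differential `0` is the Frobenius on `x`

`dR (uu P) = 0`, so by `FDer.der_eq_zero` numerator and denominator are polynomials in `X^p`; degree
`p` and `InO`: the denominator is `1` and the numerator `α X^p + β`, `α ≠ 0`. With `f = X³ + aX + b`,
`f · vv² = (αX^p+β)³ + a(αX^p+β) + b = q(X)^p`, `q = (αX+β)³ + a(αX+β) + b` (coefficients in `F_p`). `f` is
squarefree (`dsc ≠ 0`), so `f ∣ q^p` (write `vv = r/s`, `s² ∣ f`), so `f ∣ q`, `q = α³ f`: compare the coefficients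
of `X²`, `X`, `1`: `3α²β = 0`, `α³ a = α a`, `α³ b = b`: `β = 0`, `α = 1`.
-/

namespace SunQ1

open Polynomial LT

private theorem frob_deriv {k : Type} [Field k] (a b : k) :
    derivative (fP a b) = 3 * X ^ 2 + C a := by
  unfold fP
  simp only [derivative_add, derivative_mul, derivative_X_pow, derivative_C, derivative_X]
  simp
  exact C_ofNat (R := k) 3

private theorem frob_sqf {k : Type} [Field k] {a b : k} (hd : dsc a b ≠ 0) :
    Squarefree (fP a b) := by
  apply Separable.squarefree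
  rw [separable_def, frob_deriv]
  refine ⟨C (dsc a b)⁻¹ * (-18 * C a * X + 27 * C b),
    C (dsc a b)⁻¹ * (6 * C a * X ^ 2 - 9 * C b * X + 4 * C a ^ 2), ?_⟩
  have h1 : C (dsc a b)⁻¹ * (4 * C a ^ 3 + 27 * C b ^ 2) = 1 := by
    have h2 : (4 * C a ^ 3 + 27 * C b ^ 2 : k[X]) = C (dsc a b) := by
      unfold dsc
      simp only [map_add, map_mul, map_pow, map_ofNat]
    rw [h2, ← map_mul, inv_mul_cancel₀ hd, map_one]
  rw [← h1]
  unfold fP
  ring

/-- a polynomial of degree `p` with derivative zero -/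
private theorem frob_shape {p : ℕ} [Fact p.Prime] {f : (ZMod p)[X]} (hf : derivative f = 0)
    (hdeg : f.natDegree = p) : ∃ α β : ZMod p, α ≠ 0 ∧ f = C α * X ^ p + C β := by
  have hp : p.Prime := Fact.out
  refine ⟨f.coeff p, f.coeff 0, ?_, ?_⟩
  · have h0 : f ≠ 0 := by
      rintro rfl
      rw [natDegree_zero] at hdeg
      exact hp.ne_zero hdeg.symm
    have h1 : f.coeff f.natDegree ≠ 0 := by
      rw [coeff_natDegree]
      exact leadingCoeff_ne_zero.2 h0
    rw [hdeg] at h1
    exact h1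
  · ext n
    rw [coeff_add, coeff_C_mul, coeff_X_pow, coeff_C]
    by_cases hn0 : n = 0
    · subst hn0
      rw [if_neg hp.ne_zero.symm, if_pos rfl]
      simp
    · rw [if_neg hn0, add_zero]
      by_cases hnp : n = p
      · subst hnp
        rw [if_pos rfl, mul_one]
      · rw [if_neg hnp, mul_zero]
        by_cases hlt : p < n
        · exact coeff_eq_zero_of_natDegree_lt (by rw [hdeg]; exact hlt)
        · have h2 : (derivative f).coeff (n - 1) = 0 := by rw [hf, coeff_zero]
          rw [coeff_derivative] at h2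
          have h3 : n - 1 + 1 = n := by omega
          rw [h3] at h2
          have h4 : ((n - 1 : ℕ) : ZMod p) + 1 = ((n : ℕ) : ZMod p) := by
            have h5 : ((n - 1 + 1 : ℕ) : ZMod p) = ((n - 1 : ℕ) : ZMod p) + 1 := by push_cast; ring
            rw [← h5, h3]
          rw [h4] at h2
          rcases mul_eq_zero.1 h2 with h5 | h5
          · exact h5
          · exfalso
            rw [ZMod.natCast_eq_zero_iff] at h5
            have h6 := Nat.le_of_dvd (by omega) h5
            omega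

/-- the two monomials are `p`-th powers -/
private theorem frob_pow {p : ℕ} [Fact p.Prime] (a b : ZMod p) (W : (ZMod p)[X]) :
    (W ^ 3 + C a * W + C b) ^ p = (W ^ p) ^ 3 + C a * W ^ p + C b := by
  rw [add_pow_char, add_pow_char, mul_pow, ← map_pow, ← map_pow, ZMod.pow_card, ZMod.pow_card]
  ring

private theorem frob_lin {p : ℕ} [Fact p.Prime] (α β : ZMod p) :
    (C α * X + C β : (ZMod p)[X]) ^ p = C α * X ^ p + C β := by
  rw [add_pow_char, mul_pow, ← map_pow, ← map_pow, ZMod.pow_card, ZMod.pow_card]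

/-- squarefree `f`, and `r² f = s² g` with `r`, `s` coprime: `f ∣ g` -/
private theorem frob_dvd {k : Type} [Field k] {f g r s : k[X]} (hf : Squarefree f)
    (hrs : IsCoprime r s) (h : r ^ 2 * f = s ^ 2 * g) : f ∣ g := by
  have h1 : s ^ 2 ∣ r ^ 2 * f := ⟨g, h⟩
  have h2 : IsCoprime (s ^ 2) (r ^ 2) := (hrs.symm.pow (m := 2) (n := 2))
  have h3 : s ^ 2 ∣ f := h2.dvd_of_dvd_mul_left h1
  have h4 : IsUnit s := hf s (by rw [← sq]; exact h3)
  have h5 : IsUnit (s ^ 2) := h4.pow 2
  have h6 : f ∣ s ^ 2 * g := ⟨r ^ 2, by rw [← h]; ring⟩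
  exact (h5.dvd_mul_left).1 h6

theorem uu_frob {p : ℕ} [Fact p.Prime] (h5 : 5 ≤ p) {a b : ZMod p} (ha : a ≠ 0) (hb : b ≠ 0)
    (hd : dsc a b ≠ 0) {P : MM a b a b} (hC : HasC P 0) (hI : InO P) (hP : hh P = p) :
    uu P = RatFunc.X ^ p := by
  have hp : p.Prime := Fact.out
  have hP0 : P ≠ .zero := by
    rintro rfl
    rw [hh_zero] at hP
    omega
  have hlt : (uu P).denom.natDegree < (uu P).num.natDegree := by
    rcases hI with h | h
    · exact absurd h hP0
    · exact h
  have hnum : (uu P).num.natDegree = p := by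
    unfold hh at hP
    rw [max_eq_left hlt.le] at hP
    exact hP
  have hdu : dR (uu P) = 0 := by
    rw [hC.1, map_zero, zero_mul]
  obtain ⟨hn', hd'⟩ := FDer.der_eq_zero (uu P) hdu
  have hdd : p ∣ (uu P).denom.natDegree := FDer.dvd_natDegree p _ hd'
  have hd0 : (uu P).denom.natDegree = 0 :=
    Nat.eq_zero_of_dvd_of_lt hdd (lt_of_lt_of_eq hlt hnum)
  have hden : (uu P).denom = 1 := eq_one_of_monic_natDegree_zero (RatFunc.monic_denom (uu P)) hd0
  obtain ⟨α, β, hα, hshape⟩ := frob_shape hn' hnum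
  have huP : uu P = algebraMap _ _ (C α * X ^ p + C β : (ZMod p)[X]) := by
    rw [← hshape]
    conv_lhs => rw [← RatFunc.num_div_denom (uu P)]
    rw [hden, map_one, div_one]
  -- the curve equation
  have hcurve := uu_vv_eq hP0
  set q : (ZMod p)[X] := (C α * X + C β) ^ 3 + C a * (C α * X + C β) + C b with hq
  have hqp : uu P ^ 3 + RatFunc.C a * uu P + RatFunc.C b = algebraMap _ _ (q ^ p) := by
    rw [hq, frob_pow, frob_lin, huP]
    simp only [map_add, map_mul, map_pow, RatFunc.algebraMap_C]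
  rw [hqp] at hcurve
  have hs0 : (algebraMap (ZMod p)[X] (RatFunc (ZMod p)) (vv P).denom) ≠ 0 :=
    FDer.am_ne (RatFunc.denom_ne_zero (vv P))
  have hpoly : (vv P).num ^ 2 * fP a b = (vv P).denom ^ 2 * q ^ p := by
    apply FDer.am_inj
    rw [map_mul, map_mul, map_pow, map_pow]
    have h1 : vv P = algebraMap _ _ (vv P).num / algebraMap _ _ (vv P).denom :=
      (RatFunc.num_div_denom (vv P)).symm
    have h2 : algebraMap (ZMod p)[X] (RatFunc (ZMod p)) (vv P).num =
        vv P * algebraMap _ _ (vv P).denom := by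
      rw [eq_comm, ← eq_div_iff hs0]
      exact h1
    rw [h2, mul_pow, ← hcurve]
    unfold fR
    ring
  have hdvd : fP a b ∣ q := by
    have h1 := frob_dvd (frob_sqf hd) (RatFunc.isCoprime_num_denom (vv P)) hpoly
    exact ((frob_sqf hd).dvd_pow_iff_dvd hp.ne_zero).1 h1
  have hr : q - C (α ^ 3) * fP a b = 0 := by
    apply eq_zero_of_dvd_of_degree_lt (dvd_sub hdvd (Dvd.intro_left _ rfl))
    have h1 : q - C (α ^ 3) * fP a b = C (3 * α ^ 2 * β) * X ^ 2 +
        C (3 * α * β ^ 2 + a * α - α ^ 3 * a) * X + C (β ^ 3 + a * β + b - α ^ 3 * b) := by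
      rw [hq]
      unfold fP
      simp only [map_add, map_mul, map_pow, map_sub, map_ofNat]
      ring
    rw [h1, degree_eq_natDegree (FPtAux.fP_monic a b).ne_zero, FPtAux.fP_natDegree]
    refine lt_of_le_of_lt degree_quadratic_le ?_
    norm_num
  have hco : ∀ n, (C (3 * α ^ 2 * β) * X ^ 2 +
        C (3 * α * β ^ 2 + a * α - α ^ 3 * a) * X +
        C (β ^ 3 + a * β + b - α ^ 3 * b) : (ZMod p)[X]).coeff n = 0 := by
    intro n
    have h1 : q - C (α ^ 3) * fP a b = C (3 * α ^ 2 * β) * X ^ 2 +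
        C (3 * α * β ^ 2 + a * α - α ^ 3 * a) * X + C (β ^ 3 + a * β + b - α ^ 3 * b) := by
      rw [hq]
      unfold fP
      simp only [map_add, map_mul, map_pow, map_sub, map_ofNat]
      ring
    rw [← h1, hr, coeff_zero]
  have hc2 := hco 2
  have hc1 := hco 1
  have hc0 := hco 0
  simp only [coeff_add, coeff_C_mul, coeff_X_pow, coeff_X, coeff_C] at hc2 hc1 hc0
  norm_num at hc2 hc1 hc0
  have h3 : (3 : ZMod p) ≠ 0 := by
    intro h
    have h' : ((3 : ℕ) : ZMod p) = 0 := by exact_mod_cast h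
    rw [ZMod.natCast_eq_zero_iff] at h'
    have := Nat.le_of_dvd (by norm_num) h'
    omega
  have hβ : β = 0 := by
    rcases hc2 with (h | h) | h
    · exact absurd h h3
    · exact absurd h hα
    · exact h
  subst hβ
  have h6 : a * α * (1 - α ^ 2) = 0 := by linear_combination hc1
  have h7 : b * (1 - α ^ 3) = 0 := by linear_combination hc0
  have h8 : 1 - α ^ 2 = 0 := by
    rcases mul_eq_zero.1 h6 with h | h
    · exact absurd h (mul_ne_zero ha hα)
    · exact h
  have h9 : 1 - α ^ 3 = 0 := by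
    rcases mul_eq_zero.1 h7 with h | h
    · exact absurd h hb
    · exact h
  have hα1 : α = 1 := by linear_combination α * h8 - h9
  rw [huP, hα1]
  simp only [map_one, one_mul, map_zero, add_zero, map_pow, RatFunc.algebraMap_X]

end SunQ1
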