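import Pool.Agent.Lib_MP_f1937f_nt.Red

/-!
# MP_d8ed36_nt Q1, piece GAUSS: the Gauss valuation ring of `ℚ_p(x)` and its residue map to `F_p(x)`

`OG p` = the fractions `P/Q`, `P`, `Q` in `ℤ_p[x]`, `Q ≠ 0 mod p`; `rG p (P/Q) = P̄/Q̄`. (Pattern: `OO`, `rr` in
Lib_MP_f1937f_nt/FEv.lean.) Valuation ring: scale `u = P/Q` by a power of `p` so that `P`, `Q` are
integral and one of them is nonzero mod `p`.
-/

namespace SunQ1

open Polynomial LT

variable (p : ℕ) [Fact p.Prime]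

/-- `ℤ_p[x] → ℚ_p(x)`. -/
noncomputable def em (P : ℤ_[p][X]) : RatFunc ℚ_[p] :=
  algebraMap ℚ_[p][X] (RatFunc ℚ_[p]) (P.map (algebraMap ℤ_[p] ℚ_[p]))

/-- `ℤ_p[x] → F_p(x)`. -/
noncomputable def er (P : ℤ_[p][X]) : RatFunc (ZMod p) :=
  algebraMap (ZMod p)[X] (RatFunc (ZMod p)) (P.map PadicInt.toZMod)

/-! ### the ring

* `gI : ℤ_p[X] → ℚ_p(X)`, `gR : ℤ_p[X] → F_p(X)` : `em`, `er` as homomorphisms;
* `GO` : all `P / Q` with `P`, `Q` in `ℤ_p[X]`, `Q` nonzero modulo `p`; `gr : GO → F_p(X)`;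
* `gauss_rep` : an element of `GO` is `N / D` with `N`, `D` in `ℤ_p[X]` proportional to numerator and
  denominator, `D` nonzero modulo `p`.
-/

namespace GaussAux

section

/-- The inclusion of `ℤ_p[X]` in `ℚ_p(X)`. -/
noncomputable def gI : ℤ_[p][X] →+* RatFunc ℚ_[p] :=
  (algebraMap ℚ_[p][X] (RatFunc ℚ_[p])).comp (Polynomial.mapRingHom PadicInt.Coe.ringHom)

/-- The reduction `ℤ_p[X] → F_p(X)`. -/
noncomputable def gR : ℤ_[p][X] →+* RatFunc (ZMod p) :=
  (algebraMap (ZMod p)[X] (RatFunc (ZMod p))).comp (Polynomial.mapRingHom PadicInt.toZMod)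

theorem coe_inj : Function.Injective (PadicInt.Coe.ringHom : ℤ_[p] →+* ℚ_[p]) :=
  Subtype.val_injective

variable {p}

theorem gI_apply (P : ℤ_[p][X]) :
    gI p P = algebraMap ℚ_[p][X] (RatFunc ℚ_[p]) (P.map PadicInt.Coe.ringHom) := rfl

theorem gR_apply (P : ℤ_[p][X]) :
    gR p P = algebraMap (ZMod p)[X] (RatFunc (ZMod p)) (P.map PadicInt.toZMod) := rfl

theorem gI_inj : Function.Injective (gI p) := by
  intro P Q h
  rw [gI_apply, gI_apply] at h
  exact Polynomial.map_injective _ (coe_inj p) (RatFunc.algebraMap_injective ℚ_[p] h)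

theorem gR_eq_zero {P : ℤ_[p][X]} : gR p P = 0 ↔ P.map PadicInt.toZMod = 0 := by
  rw [gR_apply]
  exact map_eq_zero_iff _ (RatFunc.algebraMap_injective _)

theorem gR_eq {P Q : ℤ_[p][X]} :
    gR p P = gR p Q ↔ P.map PadicInt.toZMod = Q.map PadicInt.toZMod := by
  rw [gR_apply, gR_apply]
  exact (RatFunc.algebraMap_injective _).eq_iff

theorem gI_ne {P : ℤ_[p][X]} (h : gR p P ≠ 0) : gI p P ≠ 0 := by
  intro h0
  apply h
  have : P = 0 := gI_inj (by rw [h0, map_zero])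
  rw [this, map_zero]

/-- `ℤ_p → F_p` is zero exactly on the multiples of `p` -/
theorem toZMod_eq_zero {z : ℤ_[p]} : PadicInt.toZMod z = 0 ↔ ‖z‖ < 1 := by
  rw [← RingHom.mem_ker, PadicInt.ker_toZMod, IsLocalRing.mem_maximalIdeal,
    PadicInt.mem_nonunits]

/-- An element of norm at most one as a `p`-adic integer. -/
def zp (c : ℚ_[p]) (h : ‖c‖ ≤ 1) : ℤ_[p] := ⟨c, h⟩

theorem gI_zp {c : ℚ_[p]} (h : ‖c‖ ≤ 1) : gI p (C (zp c h)) = RatFunc.C c := by
  rw [gI_apply, Polynomial.map_C, RatFunc.algebraMap_C]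
  rfl

/-- A nonzero polynomial over `ℚ_p` is a constant times a polynomial over `ℤ_p` which is nonzero
modulo `p`. -/
theorem exists_prim {P : ℚ_[p][X]} (hP : P ≠ 0) :
    ∃ c : ℚ_[p], c ≠ 0 ∧ ∃ P1 : ℤ_[p][X], gR p P1 ≠ 0 ∧
      P1.map PadicInt.Coe.ringHom = C c⁻¹ * P := by
  obtain ⟨i, hi, hmax⟩ := P.support.exists_max_image (fun i => ‖P.coeff i‖)
    (Polynomial.nonempty_support_iff.mpr hP)
  have hc : P.coeff i ≠ 0 := Polynomial.mem_support_iff.mp hi
  have hcn : 0 < ‖P.coeff i‖ := norm_pos_iff.mpr hc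
  refine ⟨P.coeff i, hc, ?_⟩
  have hl : C (P.coeff i)⁻¹ * P ∈ Polynomial.lifts (PadicInt.Coe.ringHom : ℤ_[p] →+* ℚ_[p]) := by
    rw [Polynomial.lifts_iff_coeff_lifts]
    intro n
    have h1 : ‖(C (P.coeff i)⁻¹ * P).coeff n‖ ≤ 1 := by
      rw [Polynomial.coeff_C_mul, norm_mul, norm_inv]
      by_cases hn : n ∈ P.support
      · have := hmax n hn
        rw [inv_mul_le_iff₀ hcn, mul_one]
        exact this
      · rw [Polynomial.notMem_support_iff.mp hn, norm_zero, mul_zero]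
        exact zero_le_one
    exact ⟨⟨_, h1⟩, rfl⟩
  obtain ⟨P1, hP1⟩ := (Polynomial.mem_lifts _).mp hl
  refine ⟨P1, ?_, hP1⟩
  intro h0
  rw [gR_eq_zero] at h0
  have h2 : P1.coeff i = 1 := by
    apply coe_inj p
    rw [map_one, ← Polynomial.coeff_map, hP1, Polynomial.coeff_C_mul, inv_mul_cancel₀ hc]
  have h3 := congrArg (fun q => q.coeff i) h0
  simp only [Polynomial.coeff_map, h2, map_one, Polynomial.coeff_zero] at h3
  exact one_ne_zero h3

variable (p)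

/-- The Gauss valuation ring. -/
noncomputable def GO : ValuationSubring (RatFunc ℚ_[p]) where
  carrier := {u | ∃ P Q : ℤ_[p][X], gR p Q ≠ 0 ∧ u * gI p Q = gI p P}
  mul_mem' {u v} hu hv := by
    obtain ⟨P, Q, h1, h2⟩ := hu
    obtain ⟨P', Q', h1', h2'⟩ := hv
    refine ⟨P * P', Q * Q', ?_, ?_⟩
    · rw [map_mul]
      exact mul_ne_zero h1 h1'
    · rw [map_mul, map_mul, ← h2, ← h2']
      ring
  add_mem' {u v} hu hv := by
    obtain ⟨P, Q, h1, h2⟩ := hu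
    obtain ⟨P', Q', h1', h2'⟩ := hv
    refine ⟨P * Q' + P' * Q, Q * Q', ?_, ?_⟩
    · rw [map_mul]
      exact mul_ne_zero h1 h1'
    · rw [map_mul, map_add, map_mul, map_mul, ← h2, ← h2']
      ring
  one_mem' := ⟨1, 1, by rw [map_one]; exact one_ne_zero, by rw [one_mul]⟩
  zero_mem' := ⟨0, 1, by rw [map_one]; exact one_ne_zero, by rw [zero_mul, map_zero]⟩
  neg_mem' {u} hu := by
    obtain ⟨P, Q, h1, h2⟩ := hu
    exact ⟨-P, Q, h1, by rw [map_neg, ← h2]; ring⟩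
  mem_or_inv_mem' u := by
    by_cases hu : u = 0
    · left
      exact ⟨0, 1, by rw [map_one]; exact one_ne_zero, by rw [hu, zero_mul, map_zero]⟩
    · have hn : u.num ≠ 0 := RatFunc.num_ne_zero hu
      have hd : u.denom ≠ 0 := RatFunc.denom_ne_zero u
      obtain ⟨c, hc, P, hP, hPe⟩ := exists_prim hn
      obtain ⟨d, hd', Q, hQ, hQe⟩ := exists_prim hd
      have h1 : gI p P = RatFunc.C c⁻¹ * algebraMap ℚ_[p][X] (RatFunc ℚ_[p]) u.num := by
        rw [gI_apply, hPe, map_mul, RatFunc.algebraMap_C]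
      have h2 : gI p Q = RatFunc.C d⁻¹ * algebraMap ℚ_[p][X] (RatFunc ℚ_[p]) u.denom := by
        rw [gI_apply, hQe, map_mul, RatFunc.algebraMap_C]
      have h3 : u * algebraMap ℚ_[p][X] (RatFunc ℚ_[p]) u.denom =
          algebraMap ℚ_[p][X] (RatFunc ℚ_[p]) u.num := by
        have := RatFunc.num_div_denom u
        rw [div_eq_iff (RatFunc.algebraMap_ne_zero hd)] at this
        exact this.symm
      have hcd : RatFunc.C c * RatFunc.C c⁻¹ = (1 : RatFunc ℚ_[p]) := by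
        rw [← map_mul, mul_inv_cancel₀ hc, map_one]
      have hdd : RatFunc.C d * RatFunc.C d⁻¹ = (1 : RatFunc ℚ_[p]) := by
        rw [← map_mul, mul_inv_cancel₀ hd', map_one]
      -- u * C d * gI Q = C c * gI P
      have h4 : u * (RatFunc.C d * gI p Q) = RatFunc.C c * gI p P := by
        rw [h1, h2, ← mul_assoc (RatFunc.C d), hdd, one_mul, ← mul_assoc (RatFunc.C c), hcd,
          one_mul, h3]
      rcases le_total ‖c‖ ‖d‖ with hle | hle
      · left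
        have hz : ‖c * d⁻¹‖ ≤ 1 := by
          rw [norm_mul, norm_inv, ← div_eq_mul_inv]
          exact div_le_one_of_le₀ hle (norm_nonneg _)
        refine ⟨C (zp (c * d⁻¹) hz) * P, Q, hQ, ?_⟩
        have h5 : gI p (C (zp (c * d⁻¹) hz)) = RatFunc.C c * RatFunc.C d⁻¹ := by
          rw [gI_zp, ← map_mul]
        rw [map_mul, h5]
        have h6 : u * gI p Q = RatFunc.C d⁻¹ * (u * (RatFunc.C d * gI p Q)) := by
          rw [show RatFunc.C d⁻¹ * (u * (RatFunc.C d * gI p Q)) =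
            (RatFunc.C d * RatFunc.C d⁻¹) * (u * gI p Q) by ring, hdd, one_mul]
        rw [h6, h4]
        ring
      · right
        have hz : ‖d * c⁻¹‖ ≤ 1 := by
          rw [norm_mul, norm_inv, ← div_eq_mul_inv]
          exact div_le_one_of_le₀ hle (norm_nonneg _)
        refine ⟨C (zp (d * c⁻¹) hz) * Q, P, hP, ?_⟩
        have h5 : gI p (C (zp (d * c⁻¹) hz)) = RatFunc.C d * RatFunc.C c⁻¹ := by
          rw [gI_zp, ← map_mul]
        rw [map_mul, h5]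
        have h6 : gI p P = RatFunc.C c⁻¹ * (RatFunc.C c * gI p P) := by
          rw [← mul_assoc, mul_comm (RatFunc.C c⁻¹), hcd, one_mul]
        rw [h6, ← h4, show u⁻¹ * (RatFunc.C c⁻¹ * (u * (RatFunc.C d * gI p Q))) =
          (u⁻¹ * u) * (RatFunc.C c⁻¹ * (RatFunc.C d * gI p Q)) by ring, inv_mul_cancel₀ hu]
        ring

variable {p}

theorem mem_GO {u : RatFunc ℚ_[p]} :
    u ∈ GO p ↔ ∃ P Q : ℤ_[p][X], gR p Q ≠ 0 ∧ u * gI p Q = gI p P := Iff.rfl

/-- numerator of an element of `GO` -/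
noncomputable def gP (u : GO p) : ℤ_[p][X] := (mem_GO.mp u.2).choose

/-- denominator of an element of `GO` -/
noncomputable def gQ (u : GO p) : ℤ_[p][X] := (mem_GO.mp u.2).choose_spec.choose

theorem gQ_ne (u : GO p) : gR p (gQ u) ≠ 0 := (mem_GO.mp u.2).choose_spec.choose_spec.1

theorem gPQ (u : GO p) : (u : RatFunc ℚ_[p]) * gI p (gQ u) = gI p (gP u) :=
  (mem_GO.mp u.2).choose_spec.choose_spec.2

theorem g_cross {u : RatFunc ℚ_[p]} {P Q P' Q' : ℤ_[p][X]} (h : u * gI p Q = gI p P)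
    (h' : u * gI p Q' = gI p P') : P * Q' = P' * Q := by
  apply gI_inj
  rw [map_mul, map_mul, ← h, ← h']
  ring

/-- value of the residue map, as a fraction -/
theorem g_val (u : GO p) {P Q : ℤ_[p][X]} (h : (u : RatFunc ℚ_[p]) * gI p Q = gI p P) :
    gR p (gP u) / gR p (gQ u) * gR p Q = gR p P := by
  have h1 := congrArg (gR p) (g_cross h (gPQ u))
  rw [map_mul, map_mul] at h1
  rw [div_mul_eq_mul_div, div_eq_iff (gQ_ne u)]
  exact h1.symm

theorem g_unique (u : GO p) {w : RatFunc (ZMod p)} {P Q : ℤ_[p][X]} (hQ : gR p Q ≠ 0)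
    (h : (u : RatFunc ℚ_[p]) * gI p Q = gI p P) (hw : w * gR p Q = gR p P) :
    gR p (gP u) / gR p (gQ u) = w :=
  mul_right_cancel₀ hQ ((g_val u h).trans hw.symm)

variable (p)

/-- The residue map `GO → F_p(x)`. -/
noncomputable def gr : GO p →+* RatFunc (ZMod p) where
  toFun u := gR p (gP u) / gR p (gQ u)
  map_one' := g_unique (1 : GO p) (P := 1) (Q := 1) (by rw [map_one]; exact one_ne_zero)
    (by rw [map_one, mul_one]; rfl) (by rw [map_one, mul_one])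
  map_zero' := g_unique (0 : GO p) (P := 0) (Q := 1) (by rw [map_one]; exact one_ne_zero)
    (by rw [map_one, mul_one, map_zero]; rfl) (by rw [map_zero, zero_mul])
  map_mul' u v := by
    refine g_unique (u * v) (P := gP u * gP v) (Q := gQ u * gQ v) ?_ ?_ ?_
    · rw [map_mul]
      exact mul_ne_zero (gQ_ne u) (gQ_ne v)
    · rw [map_mul, map_mul, ← gPQ u, ← gPQ v]
      change (u : RatFunc ℚ_[p]) * (v : RatFunc ℚ_[p]) * _ = _
      ring
    · have h1 := gQ_ne u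
      have h2 := gQ_ne v
      rw [map_mul, map_mul]
      field_simp
  map_add' u v := by
    refine g_unique (u + v) (P := gP u * gQ v + gP v * gQ u) (Q := gQ u * gQ v) ?_ ?_ ?_
    · rw [map_mul]
      exact mul_ne_zero (gQ_ne u) (gQ_ne v)
    · rw [map_mul, map_add, map_mul, map_mul, ← gPQ u, ← gPQ v]
      change ((u : RatFunc ℚ_[p]) + (v : RatFunc ℚ_[p])) * _ = _
      ring
    · have h1 := gQ_ne u
      have h2 := gQ_ne v
      rw [map_mul, map_add, map_mul, map_mul]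
      field_simp

variable {p}

/-- the residue is `w` if `u = P / Q` and `w = (P mod p) / (Q mod p)` -/
theorem gr_eq (u : GO p) {w : RatFunc (ZMod p)} {P Q : ℤ_[p][X]} (hQ : gR p Q ≠ 0)
    (h : (u : RatFunc ℚ_[p]) * gI p Q = gI p P) (hw : w * gR p Q = gR p P) : gr p u = w :=
  g_unique u hQ h hw

theorem gr_mul (u : GO p) {P Q : ℤ_[p][X]} (h : (u : RatFunc ℚ_[p]) * gI p Q = gI p P) :
    gr p u * gR p Q = gR p P := g_val u h

instance : IsLocalHom (gr p) where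
  map_nonunit u hu := by
    have h0 : gr p u ≠ 0 := hu.ne_zero
    have h1 : gR p (gP u) ≠ 0 := by
      intro h
      apply h0
      change gR p (gP u) / gR p (gQ u) = 0
      rw [h, zero_div]
    have hu0 : (u : RatFunc ℚ_[p]) ≠ 0 := by
      intro h
      have h2 := gPQ u
      rw [h, zero_mul] at h2
      exact gI_ne h1 h2.symm
    have hinv : (u : RatFunc ℚ_[p])⁻¹ ∈ GO p := by
      refine ⟨gQ u, gP u, h1, ?_⟩
      rw [← gPQ u, ← mul_assoc, inv_mul_cancel₀ hu0, one_mul]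
    refine IsUnit.of_mul_eq_one ⟨(u : RatFunc ℚ_[p])⁻¹, hinv⟩ ?_
    apply Subtype.ext
    exact mul_inv_cancel₀ hu0

theorem rdc_iff_gauss {u : RatFunc ℚ_[p]} {w : RatFunc (ZMod p)} :
    Rdc (GO p) (gr p) u w ↔ ∃ P Q : ℤ_[p][X], gR p Q ≠ 0 ∧ u * gI p Q = gI p P ∧
      w * gR p Q = gR p P := by
  constructor
  · rintro ⟨z, rfl, rfl⟩
    exact ⟨gP z, gQ z, gQ_ne z, gPQ z, gr_mul z (gPQ z)⟩
  · rintro ⟨P, Q, h1, h2, h3⟩
    exact ⟨⟨u, P, Q, h1, h2⟩, rfl, gr_eq _ h1 h2 h3⟩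

theorem rdc_poly (P : ℤ_[p][X]) : Rdc (GO p) (gr p) (gI p P) (gR p P) :=
  rdc_iff_gauss.mpr ⟨P, 1, by rw [map_one]; exact one_ne_zero, by rw [map_one, mul_one],
    by rw [map_one, mul_one]⟩

theorem rdc_C (z : ℤ_[p]) :
    Rdc (GO p) (gr p) (RatFunc.C (z : ℚ_[p])) (RatFunc.C (PadicInt.toZMod z)) := by
  have h := rdc_poly (C z)
  have h1 : gI p (C z) = RatFunc.C (z : ℚ_[p]) := by
    rw [gI_apply, Polynomial.map_C, RatFunc.algebraMap_C]
    rfl
  have h2 : gR p (C z) = RatFunc.C (PadicInt.toZMod z) := by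
    rw [gR_apply, Polynomial.map_C, RatFunc.algebraMap_C]
  rwa [h1, h2] at h

theorem rdc_X : Rdc (GO p) (gr p) RatFunc.X RatFunc.X := by
  have h := rdc_poly (p := p) X
  have h1 : gI p X = RatFunc.X := by
    rw [gI_apply, Polynomial.map_X, RatFunc.algebraMap_X]
  have h2 : gR p X = RatFunc.X := by
    rw [gR_apply, Polynomial.map_X, RatFunc.algebraMap_X]
  rwa [h1, h2] at h

/-- An element of `GO` with residue `w` is `N / D` with `N`, `D` in `ℤ_p[X]` proportional to its numerator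
and denominator, `D` nonzero modulo `p`. -/
theorem gauss_rep {u : RatFunc ℚ_[p]} {w : RatFunc (ZMod p)} (h : Rdc (GO p) (gr p) u w) :
    ∃ (N D : ℤ_[p][X]) (c : ℚ_[p]), c ≠ 0 ∧ D.map PadicInt.toZMod ≠ 0 ∧
      N.map PadicInt.Coe.ringHom = C c * u.num ∧ D.map PadicInt.Coe.ringHom = C c * u.denom ∧
      w * gR p D = gR p N := by
  obtain ⟨z, rfl, rfl⟩ := h
  have hd : (z : RatFunc ℚ_[p]).denom ≠ 0 := RatFunc.denom_ne_zero _
  obtain ⟨d, hd', D, hD, hDe⟩ := exists_prim hd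
  have h3 : (z : RatFunc ℚ_[p]) * algebraMap ℚ_[p][X] (RatFunc ℚ_[p]) (z : RatFunc ℚ_[p]).denom =
      algebraMap ℚ_[p][X] (RatFunc ℚ_[p]) (z : RatFunc ℚ_[p]).num := by
    have := RatFunc.num_div_denom (z : RatFunc ℚ_[p])
    rw [div_eq_iff (RatFunc.algebraMap_ne_zero hd)] at this
    exact this.symm
  by_cases hn : (z : RatFunc ℚ_[p]).num = 0
  · have hz : z = 0 := by
      apply Subtype.ext
      exact RatFunc.num_eq_zero_iff.mp hn
    refine ⟨0, D, d⁻¹, inv_ne_zero hd', fun h => hD (gR_eq_zero.mpr h), ?_, hDe, ?_⟩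
    · rw [hn, Polynomial.map_zero, mul_zero]
    · rw [hz, map_zero, map_zero, zero_mul]
  obtain ⟨c, hc, P, hP, hPe⟩ := exists_prim hn
  -- `c / d` is integral
  have hcd : ‖c * d⁻¹‖ ≤ 1 := by
    by_contra hcon
    push Not at hcon
    have hne : c * d⁻¹ ≠ 0 := mul_ne_zero hc (inv_ne_zero hd')
    have hlt : ‖(c * d⁻¹)⁻¹‖ < 1 := by
      rw [norm_inv]
      exact inv_lt_one_of_one_lt₀ hcon
    have hw : PadicInt.toZMod (zp (c * d⁻¹)⁻¹ hlt.le) = 0 := toZMod_eq_zero.mpr hlt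
    have e1 : P * gQ z = C (zp (c * d⁻¹)⁻¹ hlt.le) * (gP z * D) := by
      apply gI_inj
      have e2 := gPQ z
      have e3 : gI p (C (zp (c * d⁻¹)⁻¹ hlt.le)) = RatFunc.C (c * d⁻¹)⁻¹ := gI_zp _
      have e4 : gI p P = RatFunc.C c⁻¹ * algebraMap ℚ_[p][X] (RatFunc ℚ_[p])
          (z : RatFunc ℚ_[p]).num := by
        rw [gI_apply, hPe, map_mul, RatFunc.algebraMap_C]
      have e5 : gI p D = RatFunc.C d⁻¹ * algebraMap ℚ_[p][X] (RatFunc ℚ_[p])
          (z : RatFunc ℚ_[p]).denom := by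
        rw [gI_apply, hDe, map_mul, RatFunc.algebraMap_C]
      rw [map_mul, map_mul, map_mul, e3, e4, e5, ← e2, ← h3]
      have e6 : RatFunc.C (c * d⁻¹)⁻¹ * RatFunc.C d⁻¹ = (RatFunc.C c⁻¹ : RatFunc ℚ_[p]) := by
        rw [← map_mul]
        congr 1
        field_simp
      rw [← e6]
      ring
    have e7 := congrArg (gR p) e1
    rw [map_mul, map_mul] at e7
    have e8 : gR p (C (zp (c * d⁻¹)⁻¹ hlt.le)) = 0 := by
      rw [gR_apply, Polynomial.map_C, hw, map_zero, map_zero]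
    rw [e8, zero_mul] at e7
    exact mul_ne_zero hP (gQ_ne z) e7
  refine ⟨C (zp (c * d⁻¹) hcd) * P, D, d⁻¹, inv_ne_zero hd',
    fun h => hD (gR_eq_zero.mpr h), ?_, hDe, ?_⟩
  · rw [Polynomial.map_mul, Polynomial.map_C, hPe, ← mul_assoc]
    congr 1
    change C (c * d⁻¹) * C c⁻¹ = C d⁻¹
    rw [← C_mul]
    congr 1
    field_simp
  · apply gr_mul z
    have e4 : gI p P = RatFunc.C c⁻¹ * algebraMap ℚ_[p][X] (RatFunc ℚ_[p])
        (z : RatFunc ℚ_[p]).num := by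
      rw [gI_apply, hPe, map_mul, RatFunc.algebraMap_C]
    have e5 : gI p D = RatFunc.C d⁻¹ * algebraMap ℚ_[p][X] (RatFunc ℚ_[p])
        (z : RatFunc ℚ_[p]).denom := by
      rw [gI_apply, hDe, map_mul, RatFunc.algebraMap_C]
    have e3 : gI p (C (zp (c * d⁻¹) hcd)) = RatFunc.C (c * d⁻¹) := gI_zp _
    rw [map_mul, e3, e4, e5, ← h3]
    have e6 : RatFunc.C (c * d⁻¹) * RatFunc.C c⁻¹ = (RatFunc.C d⁻¹ : RatFunc ℚ_[p]) := by
      rw [← map_mul]
      congr 1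
      field_simp
    rw [← mul_assoc (RatFunc.C (c * d⁻¹)), e6]
    ring

end

end GaussAux

open GaussAux

theorem em_eq (P : ℤ_[p][X]) : em p P = gI p P := rfl

theorem er_eq (P : ℤ_[p][X]) : er p P = gR p P := rfl

theorem gauss_exists : ∃ (O : ValuationSubring (RatFunc ℚ_[p])) (r : O →+* RatFunc (ZMod p)),
    IsLocalHom r ∧
    (∀ P Q : ℤ_[p][X], er p Q ≠ 0 → Rdc O r (em p P / em p Q) (er p P / er p Q)) ∧
    (∀ (u : RatFunc ℚ_[p]) (w : RatFunc (ZMod p)), Rdc O r u w →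
      ∃ P Q : ℤ_[p][X], er p Q ≠ 0 ∧ u * em p Q = em p P ∧ w * er p Q = er p P) := by
  refine ⟨GO p, gr p, inferInstance, ?_, ?_⟩
  · intro P Q hQ
    rw [em_eq, em_eq, er_eq, er_eq]
    rw [er_eq] at hQ
    exact rdc_iff_gauss.mpr ⟨P, Q, hQ, div_mul_cancel₀ _ (gI_ne hQ), div_mul_cancel₀ _ hQ⟩
  · intro u w h
    obtain ⟨P, Q, h1, h2, h3⟩ := rdc_iff_gauss.mp h
    exact ⟨P, Q, h1, h2, h3⟩

/-- If `u Q = P` with `Q` nonzero modulo `p`, and `w` is the residue of `u`, then `u = N / D` with `N`, `D` in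
`ℤ_p[X]` proportional to numerator and denominator of `u`, `D` nonzero modulo `p`, `w D = N mod p`. -/
theorem gauss_num_denom {u : RatFunc ℚ_[p]} {w : RatFunc (ZMod p)} {P Q : ℤ_[p][X]}
    (hQ : er p Q ≠ 0) (h : u * em p Q = em p P) (hw : w * er p Q = er p P) :
    ∃ (N D : ℤ_[p][X]) (c : ℚ_[p]), c ≠ 0 ∧ D.map PadicInt.toZMod ≠ 0 ∧
      N.map (algebraMap ℤ_[p] ℚ_[p]) = C c * u.num ∧
      D.map (algebraMap ℤ_[p] ℚ_[p]) = C c * u.denom ∧ w * er p D = er p N := by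
  obtain ⟨N, D, c, h1, h2, h3, h4, h5⟩ := gauss_rep (rdc_iff_gauss.mpr ⟨P, Q, hQ, h, hw⟩)
  exact ⟨N, D, c, h1, h2, h3, h4, h5⟩

end SunQ1
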