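import Pool.Agent.Lib_MP_f1937f_nt.FPar
import Pool.Agent.Lib_MP_f1937f_nt.KLat

/-!
# MP_d8ed36_nt Q1, piece LAT: the degree is the norm form

`hh_par` and the lemmas of `KLat` (`bb_quad`): `hh(ι - φ) = hh φ' = 3`, so `hh(ι + φ) = 5`.
-/

namespace SunQ1

open Polynomial LT

theorem hh_lat {k : Type} [Field k] [DecidableEq (RatFunc k)] (h2 : (2 : k) ≠ 0) {a b : k}
    (hd : dsc a b ≠ 0) {ι φ φ' : MM a b a b} (h : φ + φ' = ι) (h1 : hh ι = 1) (h3 : hh φ = 3)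
    (h3' : hh φ' = 3) (m n : ℤ) :
    (hh (m • ι + n • φ) : ℤ) = m ^ 2 + m * n + 3 * n ^ 2 := by
  have hpar : ∀ x y : MM a b a b, (hh (x + y) : ℤ) + (hh (x - y) : ℤ) =
      2 * (hh x : ℤ) + 2 * (hh y : ℤ) := by
    intro x y
    exact_mod_cast hh_par h2 hd x y
  have e0 : ι - φ = φ' := by
    rw [← h]
    abel
  have e1 := hpar ι φ
  rw [e0, h1, h3, h3'] at e1
  have e2 := LT.K.bb_quad (fun x : MM a b a b => (hh x : ℤ)) hpar ι φ m n
  have e3 : LT.K.bb (fun x : MM a b a b => (hh x : ℤ)) ι φ = 1 := by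
    unfold LT.K.bb
    simp only [h1, h3]
    push_cast at e1 ⊢
    linarith
  rw [e3] at e2
  simp only [h1, h3] at e2
  rw [e2]
  push_cast
  ring

end SunQ1
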