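import Pool.Agent.Lib_MP_d8ed36_q1.Phi
import Pool.Agent.Lib_MP_d8ed36_q1.Lat
import Pool.Agent.Lib_MP_d8ed36_q1.FrobX
import Pool.Agent.Lib_MP_d8ed36_q1.Gauss

/-!
# MP_d8ed36_nt Q1, piece REDX2: the reduction of the endomorphism `π` in polynomials

`u = num/denom`; scaling and the lemma of Gauss: the pair is integral up to a constant and the reduction
is `X^p : 1`.
-/

namespace SunQ1

open Polynomial LT

section

variable {p : ℕ} [Fact p.Prime]

private theorem inj_redx2 : Function.Injective (algebraMap ℤ_[p] ℚ_[p]) :=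
  Subtype.coe_injective

private theorem mapinj_redx2 :
    Function.Injective (Polynomial.map (algebraMap ℤ_[p] ℚ_[p])) :=
  Polynomial.map_injective _ inj_redx2

private theorem range_redx2 {x : ℚ_[p]} (hx : ‖x‖ ≤ 1) :
    x ∈ Set.range (algebraMap ℤ_[p] ℚ_[p]) := ⟨⟨x, hx⟩, rfl⟩

private theorem lift_redx2 {g : ℚ_[p][X]} (h : ∀ i, ‖g.coeff i‖ ≤ 1) :
    ∃ G : ℤ_[p][X], G.map (algebraMap ℤ_[p] ℚ_[p]) = g := by
  have := (Polynomial.lifts_iff_coeff_lifts (f := algebraMap ℤ_[p] ℚ_[p]) g).2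
    (fun i => range_redx2 (h i))
  rw [Polynomial.mem_lifts] at this
  exact this

private theorem zmod_zero_redx2 {x : ℤ_[p]} (hx : PadicInt.toZMod x = 0) : (p : ℤ_[p]) ∣ x := by
  have h : x ∈ RingHom.ker (PadicInt.toZMod (p := p)) := hx
  rw [PadicInt.ker_toZMod, PadicInt.maximalIdeal_eq_span_p, Ideal.mem_span_singleton] at h
  exact h

private theorem unit_redx2 {x : ℤ_[p]} (hx : PadicInt.toZMod x ≠ 0) : IsUnit x := by
  by_contra h
  apply hx
  have h2 : x ∈ IsLocalRing.maximalIdeal ℤ_[p] := (IsLocalRing.mem_maximalIdeal x).2 h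
  rw [← PadicInt.ker_toZMod] at h2
  exact h2

private theorem scale_redx2 {g : ℚ_[p][X]} (hg : g ≠ 0) :
    ∃ c : ℚ_[p], c ≠ 0 ∧ ∃ G : ℤ_[p][X],
      G.map (algebraMap ℤ_[p] ℚ_[p]) = C c * g ∧ G.map PadicInt.toZMod ≠ 0 := by
  obtain ⟨i, hi, hmax⟩ := Finset.exists_max_image g.support (fun i => ‖g.coeff i‖)
    (Polynomial.support_nonempty.2 hg)
  have hi0 : g.coeff i ≠ 0 := Polynomial.mem_support_iff.1 hi
  have hc0 : (g.coeff i)⁻¹ ≠ 0 := inv_ne_zero hi0
  refine ⟨(g.coeff i)⁻¹, hc0, ?_⟩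
  have hle : ∀ j, ‖(C (g.coeff i)⁻¹ * g).coeff j‖ ≤ 1 := by
    intro j
    rw [Polynomial.coeff_C_mul, norm_mul, norm_inv]
    by_cases hj : g.coeff j = 0
    · rw [hj, norm_zero, mul_zero]
      exact zero_le_one
    · have h1 := hmax j (Polynomial.mem_support_iff.2 hj)
      have h2 : 0 < ‖g.coeff i‖ := norm_pos_iff.2 hi0
      rw [inv_mul_le_iff₀ h2, mul_one]
      exact h1
  obtain ⟨G, hG⟩ := lift_redx2 hle
  refine ⟨G, hG, ?_⟩
  intro h0
  have h1 : algebraMap ℤ_[p] ℚ_[p] (G.coeff i) = 1 := by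
    have := congrArg (fun q => Polynomial.coeff q i) hG
    simp only [Polynomial.coeff_map, Polynomial.coeff_C_mul] at this
    rw [this, inv_mul_cancel₀ hi0]
  have h2 : G.coeff i = 1 := inj_redx2 (h1.trans (map_one _).symm)
  have h3 := congrArg (fun q => Polynomial.coeff q i) h0
  simp only [Polynomial.coeff_map, Polynomial.coeff_zero, h2, map_one] at h3
  exact one_ne_zero h3

private theorem gauss_redx2 {H : ℚ_[p][X]} {G P : ℤ_[p][X]}
    (hG : G.map PadicInt.toZMod ≠ 0)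
    (h : H * G.map (algebraMap ℤ_[p] ℚ_[p]) = P.map (algebraMap ℤ_[p] ℚ_[p])) :
    ∃ H' : ℤ_[p][X], H'.map (algebraMap ℤ_[p] ℚ_[p]) = H := by
  by_cases hH : H = 0
  · exact ⟨0, by rw [hH, Polynomial.map_zero]⟩
  obtain ⟨c, hc0, H₀, hH₀, hne⟩ := scale_redx2 hH
  have hc1 : 1 ≤ ‖c‖ := by
    by_contra hlt
    push Not at hlt
    have hcle : ‖c‖ ≤ 1 := hlt.le
    let c' : ℤ_[p] := ⟨c, hcle⟩
    have hc' : algebraMap ℤ_[p] ℚ_[p] c' = c := rfl
    have hz : PadicInt.toZMod c' = 0 := by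
      by_contra hcne
      have hu := unit_redx2 hcne
      rw [PadicInt.isUnit_iff] at hu
      have : ‖c'‖ = ‖c‖ := rfl
      rw [this] at hu
      exact absurd hu hlt.ne
    have he : H₀ * G = C c' * P := by
      apply mapinj_redx2
      simp only [Polynomial.map_mul, Polynomial.map_C]
      rw [hH₀, hc', mul_assoc, h]
    have he2 := congrArg (Polynomial.map (PadicInt.toZMod (p := p))) he
    simp only [Polynomial.map_mul, Polynomial.map_C, hz, map_zero, zero_mul] at he2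
    rcases mul_eq_zero.1 he2 with h1 | h1
    · exact hne h1
    · exact hG h1
  have hci : ‖c⁻¹‖ ≤ 1 := by
    rw [norm_inv]
    exact inv_le_one_of_one_le₀ hc1
  let c' : ℤ_[p] := ⟨c⁻¹, hci⟩
  have hc' : algebraMap ℤ_[p] ℚ_[p] c' = c⁻¹ := rfl
  refine ⟨C c' * H₀, ?_⟩
  rw [Polynomial.map_mul, Polynomial.map_C, hc', hH₀, ← mul_assoc, ← C_mul, inv_mul_cancel₀ hc0,
    C_1, one_mul]

private theorem natDegree_map_redx2 (G : ℤ_[p][X]) :
    (G.map (algebraMap ℤ_[p] ℚ_[p])).natDegree = G.natDegree :=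
  Polynomial.natDegree_map_eq_of_injective inj_redx2 G

/-- The integral form of numerator and denominator. -/
private theorem pair_redx2 {u : RatFunc ℚ_[p]} (h3 : u.num.natDegree = p)
    (h4 : u.denom.natDegree < p)
    (h6 : ∃ P Q : ℤ_[p][X], er p Q ≠ 0 ∧ u * em p Q = em p P ∧
      RatFunc.X ^ p * er p Q = er p P) :
    ∃ (κ : ℚ_[p]) (N D : ℤ_[p][X]), κ ≠ 0 ∧
      N.map (algebraMap ℤ_[p] ℚ_[p]) = C κ * u.num ∧
      D.map (algebraMap ℤ_[p] ℚ_[p]) = C κ * u.denom ∧ N.natDegree ≤ p ∧ D.natDegree < p ∧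
      N.map PadicInt.toZMod = X ^ p ∧ D.map PadicInt.toZMod = 1 := by
  obtain ⟨P, Q, hQ, hu, hX⟩ := h6
  have hd0 : u.denom ≠ 0 := RatFunc.denom_ne_zero u
  -- the reduction
  have hQr : Q.map (PadicInt.toZMod (p := p)) ≠ 0 := by
    intro h
    apply hQ
    rw [er, h, map_zero]
  have hXr : X ^ p * Q.map (PadicInt.toZMod (p := p)) = P.map (PadicInt.toZMod (p := p)) := by
    apply RatFunc.algebraMap_injective (ZMod p)
    rw [map_mul, map_pow, RatFunc.algebraMap_X]
    exact hX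
  have hQ0 : Q.map (algebraMap ℤ_[p] ℚ_[p]) ≠ 0 := by
    intro h
    have : Q = 0 := mapinj_redx2 (by rw [h, Polynomial.map_zero])
    rw [this, Polynomial.map_zero] at hQr
    exact hQr rfl
  -- over the fraction field
  have hnq : u.num * Q.map (algebraMap ℤ_[p] ℚ_[p]) =
      P.map (algebraMap ℤ_[p] ℚ_[p]) * u.denom := by
    apply RatFunc.algebraMap_injective ℚ_[p]
    rw [map_mul, map_mul]
    have hd1 : algebraMap ℚ_[p][X] (RatFunc ℚ_[p]) u.denom ≠ 0 := by
      intro h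
      exact hd0 (RatFunc.algebraMap_injective ℚ_[p] (by rw [h, map_zero]))
    have h1 : algebraMap ℚ_[p][X] (RatFunc ℚ_[p]) u.num =
        u * algebraMap ℚ_[p][X] (RatFunc ℚ_[p]) u.denom := by
      have := RatFunc.num_div_denom u
      rw [div_eq_iff hd1] at this
      exact this
    rw [h1]
    have h2 : u * algebraMap ℚ_[p][X] (RatFunc ℚ_[p]) (Q.map (algebraMap ℤ_[p] ℚ_[p])) =
        algebraMap ℚ_[p][X] (RatFunc ℚ_[p]) (P.map (algebraMap ℤ_[p] ℚ_[p])) := hu
    rw [← h2]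
    ring
  have hcop : IsCoprime u.denom u.num := (RatFunc.isCoprime_num_denom u).symm
  have hdvd : u.denom ∣ Q.map (algebraMap ℤ_[p] ℚ_[p]) :=
    hcop.dvd_of_dvd_mul_left ⟨P.map (algebraMap ℤ_[p] ℚ_[p]), by rw [hnq, mul_comm]⟩
  obtain ⟨g, hg⟩ := hdvd
  have hPg : P.map (algebraMap ℤ_[p] ℚ_[p]) = u.num * g := by
    have h1 : u.denom * P.map (algebraMap ℤ_[p] ℚ_[p]) = u.denom * (u.num * g) := by
      rw [mul_comm, ← hnq, hg]
      ring
    exact mul_left_cancel₀ hd0 h1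
  have hg0 : g ≠ 0 := by
    intro h
    rw [h, mul_zero] at hg
    exact hQ0 hg
  obtain ⟨c, hc0, G, hG, hGr⟩ := scale_redx2 hg0
  have hcc : C c⁻¹ * C c = (1 : ℚ_[p][X]) := by
    rw [← C_mul, inv_mul_cancel₀ hc0, C_1]
  have hdG : (C c⁻¹ * u.denom) * G.map (algebraMap ℤ_[p] ℚ_[p]) =
      Q.map (algebraMap ℤ_[p] ℚ_[p]) := by
    rw [hG, hg]
    linear_combination (u.denom * g) * hcc
  have hnG : (C c⁻¹ * u.num) * G.map (algebraMap ℤ_[p] ℚ_[p]) =
      P.map (algebraMap ℤ_[p] ℚ_[p]) := by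
    rw [hG, hPg]
    linear_combination (u.num * g) * hcc
  obtain ⟨d₁, hd₁⟩ := gauss_redx2 hGr hdG
  obtain ⟨n₁, hn₁⟩ := gauss_redx2 hGr hnG
  have e1 : d₁ * G = Q := by
    apply mapinj_redx2
    rw [Polynomial.map_mul, hd₁, hdG]
  have e2 : n₁ * G = P := by
    apply mapinj_redx2
    rw [Polynomial.map_mul, hn₁, hnG]
  have r1 : d₁.map (PadicInt.toZMod (p := p)) * G.map (PadicInt.toZMod (p := p)) =
      Q.map (PadicInt.toZMod (p := p)) := by rw [← Polynomial.map_mul, e1]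
  have r2 : n₁.map (PadicInt.toZMod (p := p)) * G.map (PadicInt.toZMod (p := p)) =
      P.map (PadicInt.toZMod (p := p)) := by rw [← Polynomial.map_mul, e2]
  have r3 : n₁.map (PadicInt.toZMod (p := p)) = X ^ p * d₁.map (PadicInt.toZMod (p := p)) := by
    apply mul_right_cancel₀ hGr
    rw [r2, ← hXr, ← r1]
    ring
  have hdr0 : d₁.map (PadicInt.toZMod (p := p)) ≠ 0 := by
    intro h
    rw [h, zero_mul] at r1
    exact hQr r1.symm
  have hcinv : c⁻¹ ≠ 0 := inv_ne_zero hc0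
  have hnd : n₁.natDegree = p := by
    rw [← natDegree_map_redx2, hn₁, Polynomial.natDegree_C_mul hcinv, h3]
  have hdd : d₁.natDegree < p := by
    rw [← natDegree_map_redx2, hd₁, Polynomial.natDegree_C_mul hcinv]
    exact h4
  have hdeg : (d₁.map (PadicInt.toZMod (p := p))).natDegree = 0 := by
    have h1 : (n₁.map (PadicInt.toZMod (p := p))).natDegree ≤ p := by
      calc _ ≤ n₁.natDegree := Polynomial.natDegree_map_le
        _ = p := hnd
    rw [r3, Polynomial.natDegree_mul (pow_ne_zero _ Polynomial.X_ne_zero) hdr0,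
      Polynomial.natDegree_X_pow] at h1
    omega
  have hC := Polynomial.eq_C_of_natDegree_eq_zero hdeg
  have hε : PadicInt.toZMod (d₁.coeff 0) ≠ 0 := by
    intro h
    apply hdr0
    rw [hC, Polynomial.coeff_map, h, C_0]
  obtain ⟨e, he⟩ := (unit_redx2 hε).exists_left_inv
  have he' : algebraMap ℤ_[p] ℚ_[p] e ≠ 0 := by
    intro h
    have h0 : e = 0 := inj_redx2 (by rw [h, map_zero])
    rw [h0, zero_mul] at he
    exact zero_ne_one he
  have hDr : (C e * d₁).map (PadicInt.toZMod (p := p)) = 1 := by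
    rw [Polynomial.map_mul, Polynomial.map_C, hC, Polynomial.coeff_map, ← C_mul, ← map_mul, he,
      map_one, C_1]
  refine ⟨algebraMap ℤ_[p] ℚ_[p] e * c⁻¹, C e * n₁, C e * d₁, mul_ne_zero he' hcinv, ?_, ?_, ?_,
    ?_, ?_, hDr⟩
  · rw [Polynomial.map_mul, Polynomial.map_C, hn₁, C_mul, mul_assoc]
  · rw [Polynomial.map_mul, Polynomial.map_C, hd₁, C_mul, mul_assoc]
  · exact (Polynomial.natDegree_C_mul_le _ _).trans hnd.le
  · exact lt_of_le_of_lt (Polynomial.natDegree_C_mul_le _ _) hdd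
  · have h1 : (C e * n₁).map (PadicInt.toZMod (p := p)) =
        X ^ p * (C e * d₁).map (PadicInt.toZMod (p := p)) := by
      rw [Polynomial.map_mul, Polynomial.map_mul, r3]
      ring
    rw [h1, hDr, mul_one]

end

/-- REDX2: polynomials. `u = num/denom`; scale the pair so that both are in `ℤ_p[X]` and one is not
`0 mod p`; by the last condition `num = X^p denom mod p`, so `denom mod p` is a nonzero constant (degree
`≤ p`); scale it to `1`. `V = v D²`, `π V = N'D - ND'`, and `N'D - ND' = 0 mod p`, `p = π π'`: so `V` is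
integral. -/
theorem redx_poly {p : ℕ} [Fact p.Prime] (h5 : 5 ≤ p) {a b π π' : ℤ_[p]}
    (hππ : π * π' = (p : ℤ_[p])) (hu : IsUnit π') {u v : RatFunc ℚ_[p]}
    (h1 : v ^ 2 * fR (a : ℚ_[p]) (b : ℚ_[p]) =
      u ^ 3 + RatFunc.C (a : ℚ_[p]) * u + RatFunc.C (b : ℚ_[p]))
    (h2 : dR u = RatFunc.C (π : ℚ_[p]) * v) (h3 : u.num.natDegree = p)
    (h4 : u.denom.natDegree < p)
    (h6 : ∃ P Q : ℤ_[p][X], er p Q ≠ 0 ∧ u * em p Q = em p P ∧
      RatFunc.X ^ p * er p Q = er p P) :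
    ∃ N D V : ℤ_[p][X], N.natDegree ≤ p ∧ D.natDegree < p ∧
      N.map PadicInt.toZMod = X ^ p ∧ D.map PadicInt.toZMod = 1 ∧
      derivative N * D - N * derivative D = C π * V ∧
      (X ^ 3 + C a * X + C b) * V ^ 2 = D * (N ^ 3 + C a * N * D ^ 2 + C b * D ^ 3) := by
  obtain ⟨κ, N, D, hκ, hN, hD, hNd, hDd, hNr, hDr⟩ := pair_redx2 h3 h4 h6
  have hpZ : (p : ℤ_[p]) ≠ 0 := by
    exact_mod_cast (Fact.out : p.Prime).ne_zero
  -- the polynomial `N'D - ND'` is divisible by `p`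
  have hW0 : (derivative N * D - N * derivative D).map (PadicInt.toZMod (p := p)) = 0 := by
    rw [Polynomial.map_sub, Polynomial.map_mul, Polynomial.map_mul, ← Polynomial.derivative_map,
      ← Polynomial.derivative_map, hNr, hDr, Polynomial.derivative_X_pow,
      CharP.cast_eq_zero (ZMod p) p]
    simp
  have hdvd : C (p : ℤ_[p]) ∣ derivative N * D - N * derivative D := by
    rw [Polynomial.C_dvd_iff_dvd_coeff]
    intro i
    apply zmod_zero_redx2
    have := congrArg (fun q => Polynomial.coeff q i) hW0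
    simpa only [Polynomial.coeff_map, Polynomial.coeff_zero] using this
  obtain ⟨W, hW⟩ := hdvd
  have hV : derivative N * D - N * derivative D = C π * (C π' * W) := by
    rw [hW, ← hππ, C_mul, mul_assoc]
  refine ⟨N, D, C π' * W, hNd, hDd, hNr, hDr, hV, ?_⟩
  set V : ℤ_[p][X] := C π' * W with hVdef
  -- over the fraction field
  set A : ℚ_[p][X] →+* RatFunc ℚ_[p] := algebraMap ℚ_[p][X] (RatFunc ℚ_[p]) with hA
  set ι : ℤ_[p] →+* ℚ_[p] := algebraMap ℤ_[p] ℚ_[p] with hι
  have hAinj : Function.Injective A := RatFunc.algebraMap_injective ℚ_[p]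
  have hAC : ∀ x : ℚ_[p], A (C x) = RatFunc.C x := fun x => RatFunc.algebraMap_C x
  have hπ0 : π ≠ 0 := by
    intro h
    rw [h, zero_mul] at hππ
    exact hpZ hππ.symm
  have hπQ : RatFunc.C (π : ℚ_[p]) ≠ 0 := by
    intro h
    apply hπ0
    have : (π : ℚ_[p]) = 0 := RatFunc.C_injective (by rw [h, map_zero])
    exact inj_redx2 (this.trans (map_zero _).symm)
  have hd0 : A u.denom ≠ 0 := by
    intro h
    exact RatFunc.denom_ne_zero u (hAinj (by rw [h, map_zero]))
  have hκR : RatFunc.C κ ≠ 0 := by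
    intro h
    exact hκ (RatFunc.C_injective (by rw [h, map_zero]))
  have hDA : A (D.map ι) = RatFunc.C κ * A u.denom := by rw [hD, map_mul, hAC]
  have hNA : A (N.map ι) = RatFunc.C κ * A u.num := by rw [hN, map_mul, hAC]
  have hD0 : A (D.map ι) ≠ 0 := by
    rw [hDA]
    exact mul_ne_zero hκR hd0
  have hu1 : u * A u.denom = A u.num := by
    have := RatFunc.num_div_denom u
    rw [div_eq_iff hd0] at this
    exact this.symm
  have hu2 : u * A (D.map ι) = A (N.map ι) := by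
    rw [hDA, hNA, ← hu1]
    ring
  have hdR : dR u * A u.denom ^ 2 =
      A (derivative u.num) * A u.denom - A u.num * A (derivative u.denom) := by
    rw [dR, map_pow, div_mul_cancel₀ _ (pow_ne_zero 2 hd0), map_sub, map_mul, map_mul]
  have hNder : A (derivative (N.map ι)) = RatFunc.C κ * A (derivative u.num) := by
    rw [hN, Polynomial.derivative_C_mul, map_mul, hAC]
  have hDder : A (derivative (D.map ι)) = RatFunc.C κ * A (derivative u.denom) := by
    rw [hD, Polynomial.derivative_C_mul, map_mul, hAC]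
  have hVA : A (derivative (N.map ι)) * A (D.map ι) - A (N.map ι) * A (derivative (D.map ι)) =
      RatFunc.C (π : ℚ_[p]) * A (V.map ι) := by
    have h := congrArg (fun q => A (Polynomial.map ι q)) hV
    simp only [Polynomial.map_sub, Polynomial.map_mul, Polynomial.map_C, map_sub, map_mul,
      ← Polynomial.derivative_map, hAC] at h
    rw [h]
    simp only [hVdef, Polynomial.map_mul, Polynomial.map_C, map_mul, hAC]
    rfl
  have hv : v * A (D.map ι) ^ 2 = A (V.map ι) := by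
    apply mul_left_cancel₀ hπQ
    rw [← hVA, ← mul_assoc, ← h2, hNder, hDder, hDA, hNA]
    linear_combination (RatFunc.C κ) ^ 2 * hdR
  have hfin : A ((X ^ 3 + C (a : ℚ_[p]) * X + C (b : ℚ_[p])) * (V.map ι) ^ 2) =
      A (D.map ι * ((N.map ι) ^ 3 + C (a : ℚ_[p]) * N.map ι * (D.map ι) ^ 2 +
        C (b : ℚ_[p]) * (D.map ι) ^ 3)) := by
    have hf : A (X ^ 3 + C (a : ℚ_[p]) * X + C (b : ℚ_[p])) = fR (a : ℚ_[p]) (b : ℚ_[p]) := rfl
    rw [map_mul, hf, map_pow, ← hv, map_mul, map_add, map_add, map_mul, map_mul, map_mul, map_pow,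
      map_pow, map_pow, hAC, hAC, ← hu2]
    linear_combination A (D.map ι) ^ 4 * h1
  apply mapinj_redx2
  have hfin2 := hAinj hfin
  simp only [Polynomial.map_mul, Polynomial.map_add, Polynomial.map_pow, Polynomial.map_X,
    Polynomial.map_C]
  exact hfin2

end SunQ1
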