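import Pool.Agent.Lib_MP_d8ed36_q1.RedX1
import Pool.Agent.Lib_MP_d8ed36_q1.RedX2

/-!
# MP_d8ed36_nt Q1, piece REDX: the endomorphism `π` over `ℚ_p` and its reduction

The statements `SunQ1.redx_map` and `SunQ1.redx_poly` are in the files `RedX1` and `RedX2`.
-/
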