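import Pool.Agent.Lib_MP_f1937f_nt.Defs

/-!
# MP_d8ed36_nt Q1: the curve and its isogeny of degree 3

`y² = x³ + 48(s-5) x + 16(77-28s)`, `s² = -11`. The point `(12, 4(4+s))` has order 3 and generates the
kernel of `φ`, multiplication by `c = (1-s)/2` (`1/c² = (s-5)/18`, `1/c³ = -(4+s)/27`); `φ'` is
multiplication by `1 - c = (1+s)/2` with kernel at `x = 10-2s` (`1/c'² = -(5+s)/18`, `1/c'³ = (s-4)/27`).
All formulas and `φ + φ' = id` were checked numerically.
-/

namespace SunQ1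

open Polynomial LT

section

variable {k : Type} [Field k]

def ca {R : Type} [CommRing R] (s : R) : R := 48 * (s - 5)

def cb {R : Type} [CommRing R] (s : R) : R := 16 * (77 - 28 * s)

noncomputable def phU (s : k) : RatFunc k :=
  RatFunc.C ((s - 5) / 18) * (RatFunc.X + RatFunc.C (96 * (4 + s)) / (RatFunc.X - RatFunc.C 12) +
    RatFunc.C (64 * (4 + s) ^ 2) / (RatFunc.X - RatFunc.C 12) ^ 2)

noncomputable def phV (s : k) : RatFunc k :=
  RatFunc.C (-(4 + s) / 27) * (1 - RatFunc.C (96 * (4 + s)) / (RatFunc.X - RatFunc.C 12) ^ 2 -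
    RatFunc.C (128 * (4 + s) ^ 2) / (RatFunc.X - RatFunc.C 12) ^ 3)

noncomputable def phU' (s : k) : RatFunc k :=
  RatFunc.C (-(5 + s) / 18) * (RatFunc.X - RatFunc.C (144 * (1 + s)) /
      (RatFunc.X - RatFunc.C (10 - 2 * s)) -
    RatFunc.C 1728 / (RatFunc.X - RatFunc.C (10 - 2 * s)) ^ 2)

noncomputable def phV' (s : k) : RatFunc k :=
  RatFunc.C ((s - 4) / 27) * (1 + RatFunc.C (144 * (1 + s)) /
      (RatFunc.X - RatFunc.C (10 - 2 * s)) ^ 2 +
    RatFunc.C 3456 / (RatFunc.X - RatFunc.C (10 - 2 * s)) ^ 3)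

end

end SunQ1
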