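import Pool.Agent.Lib_MP_d8ed36_q1.Defs
import Pool.Agent.Lib_MP_d8ed36_q1.PhiDefs

/-!
# MP_d8ed36_nt Q1, piece SHIFT: from `x` to `X`, `x = 144X + 12`

`D₁ = D(144X+12)`, `N₁ = (N(144X+12) - 12 D(144X+12))/144`, `V₁ = V(144X+12)`; with `216 t = 4 + s`:
`f(144X+12) = 746496 F(X)` (`= 12^6/4 F(X)`), and `12^p = 12`, `144^p = 144` in `ZMod p`.
-/

namespace SunQ1

open Polynomial

/-- an integer which is nonzero modulo `p` is a unit of the `p`-adic integers -/
private theorem unit_of_toZMod {p : ℕ} [Fact p.Prime] {x : ℤ_[p]}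
    (hx : PadicInt.toZMod x ≠ 0) : IsUnit x := by
  by_contra h
  apply hx
  have h1 : x ∈ IsLocalRing.maximalIdeal ℤ_[p] := by
    rw [IsLocalRing.mem_maximalIdeal, mem_nonunits_iff]
    exact h
  rw [← PadicInt.ker_toZMod] at h1
  exact h1

private theorem two_three_ne {p : ℕ} [hp : Fact p.Prime] (h5 : 5 ≤ p) (a b : ℕ) :
    ((2 ^ a * 3 ^ b : ℕ) : ZMod p) ≠ 0 := by
  intro h
  rw [ZMod.natCast_eq_zero_iff] at h
  rcases (Nat.Prime.dvd_mul hp.out).mp h with h | h
  · have := Nat.le_of_dvd (by norm_num) (hp.out.dvd_of_dvd_pow h)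
    omega
  · have := Nat.le_of_dvd (by norm_num) (hp.out.dvd_of_dvd_pow h)
    omega

private theorem unit_two_three {p : ℕ} [Fact p.Prime] (h5 : 5 ≤ p) (a b : ℕ) :
    IsUnit ((2 ^ a * 3 ^ b : ℕ) : ℤ_[p]) := by
  apply unit_of_toZMod
  rw [map_natCast]
  exact two_three_ne h5 a b

private theorem alg_id {R : Type*} [CommRing R] (S T N D : R) (hS : S ^ 2 = -11)
    (hT : 216 * T = 4 + S) :
    (144 * N + 12 * D) ^ 3 + 48 * (S - 5) * (144 * N + 12 * D) * D ^ 2 +
      16 * (77 - 28 * S) * D ^ 3 = 746496 * (4 * N ^ 3 + D * (N + T * D) ^ 2) := by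
  linear_combination (-6912 * N * D ^ 2 - 16 * (216 * T + 4 + S) * D ^ 3) * hT -
    16 * D ^ 3 * hS

theorem shift {p : ℕ} [Fact p.Prime] (h5 : 5 ≤ p) {s π : ℤ_[p]} (hs : s ^ 2 = -11)
    {N D V : ℤ_[p][X]} (hN : N.natDegree ≤ p) (hD : D.natDegree < p)
    (hNr : N.map PadicInt.toZMod = X ^ p) (hDr : D.map PadicInt.toZMod = 1)
    (E1 : derivative N * D - N * derivative D = C π * V)
    (E2 : (X ^ 3 + C (ca s) * X + C (cb s)) * V ^ 2 =
      D * (N ^ 3 + C (ca s) * N * D ^ 2 + C (cb s) * D ^ 3)) :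
    ∃ t : ℤ_[p], 216 * t = 4 + s ∧ IsUnit t ∧ ∃ N D V : ℤ_[p][X], N.natDegree ≤ p ∧
      D.natDegree < p ∧ N.map PadicInt.toZMod = X ^ p ∧ D.map PadicInt.toZMod = 1 ∧
      derivative N * D - N * derivative D = C π * V ∧
      FF t * V ^ 2 = D * (4 * N ^ 3 + D * (N + C t * D) ^ 2) := by
  have h216 : IsUnit (216 : ℤ_[p]) := by
    have := unit_two_three h5 3 3
    norm_num at this
    exact this
  have h144 : IsUnit (144 : ℤ_[p]) := by
    have := unit_two_three h5 4 2
    norm_num at this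
    exact this
  have h27 : IsUnit (27 : ℤ_[p]) := by
    have := unit_two_three h5 0 3
    norm_num at this
    exact this
  obtain ⟨v, hv⟩ := h216.exists_right_inv
  obtain ⟨u, hu⟩ := h144.exists_right_inv
  have ht : 216 * (v * (4 + s)) = 4 + s := by linear_combination (4 + s) * hv
  have h4s : IsUnit (4 + s) := by
    have h1 : (4 + s) * (4 - s) = 27 := by linear_combination -hs
    exact isUnit_of_mul_isUnit_left (h1 ▸ h27)
  have hvu : IsUnit v := IsUnit.of_mul_eq_one 216 (by rw [mul_comm]; exact hv)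
  refine ⟨v * (4 + s), ht, hvu.mul h4s, ?_⟩
  set t := v * (4 + s) with htdef
  set q : ℤ_[p][X] := 144 * X + 12 with hq
  have hqd : q.natDegree ≤ 1 := by
    rw [hq]
    compute_degree
  have hq' : derivative q = 144 := by
    rw [hq]
    simp
  have hqm : q.map PadicInt.toZMod = 144 * X + 12 := by
    rw [hq]
    simp
  have hU : (144 : ℤ_[p][X]) * C u = 1 := by
    have : (144 : ℤ_[p][X]) = C 144 := (map_ofNat C 144).symm
    rw [this, ← C_mul, hu, C_1]
  set D₁ := D.comp q with hD1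
  set N₁ := C u * (N.comp q - 12 * D.comp q) with hN1
  have hNq : N.comp q = 144 * N₁ + 12 * D₁ := by
    rw [hN1, hD1]
    linear_combination (-(N.comp q) + 12 * D.comp q) * hU
  have hdD : D₁.natDegree ≤ D.natDegree := by
    refine le_trans natDegree_comp_le ?_
    calc D.natDegree * q.natDegree ≤ D.natDegree * 1 := Nat.mul_le_mul_left _ hqd
      _ = D.natDegree := mul_one _
  have hdN : (N.comp q).natDegree ≤ p := by
    refine le_trans natDegree_comp_le ?_
    calc N.natDegree * q.natDegree ≤ p * 1 := Nat.mul_le_mul hN hqd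
      _ = p := mul_one _
  refine ⟨N₁, D₁, V.comp q, ?_, lt_of_le_of_lt hdD hD, ?_, ?_, ?_, ?_⟩
  · rw [hN1]
    refine le_trans (natDegree_C_mul_le _ _) (le_trans (natDegree_sub_le _ _) (max_le hdN ?_))
    have h12 : (12 : ℤ_[p][X]) = C 12 := (map_ofNat C 12).symm
    rw [h12]
    exact le_trans (natDegree_C_mul_le _ _) (le_trans hdD hD.le)
  · rw [hN1, Polynomial.map_mul, Polynomial.map_sub, Polynomial.map_mul, Polynomial.map_comp,
      Polynomial.map_comp, hNr, hDr, hqm, X_pow_comp, one_comp, map_C]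
    have h1 : (144 * X + 12 : (ZMod p)[X]) ^ p = 144 * X ^ p + 12 := by
      have e1 : (144 : (ZMod p)[X]) = C 144 := (map_ofNat C 144).symm
      have e2 : (12 : (ZMod p)[X]) = C 12 := (map_ofNat C 12).symm
      rw [add_pow_char, mul_pow, e1, e2, ← C_pow, ← C_pow, ZMod.pow_card, ZMod.pow_card]
    have h2 : (144 : (ZMod p)[X]) * C (PadicInt.toZMod u) = 1 := by
      have := congrArg (Polynomial.map (PadicInt.toZMod (p := p))) hU
      simpa using this
    rw [h1, Polynomial.map_ofNat]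
    linear_combination X ^ p * h2
  · rw [hD1, Polynomial.map_comp, hDr, one_comp]
  · have h1 := congrArg (fun P => P.comp q) E1
    simp only [sub_comp, mul_comp, C_comp] at h1
    have hdN1 : derivative N₁ = C u * (144 * (derivative N).comp q -
        12 * (144 * (derivative D).comp q)) := by
      rw [hN1, derivative_C_mul, derivative_sub, derivative_comp, hq']
      have h12 : (12 : ℤ_[p][X]) = C 12 := (map_ofNat C 12).symm
      rw [h12, derivative_C_mul, derivative_comp, hq']
    have hdD1 : derivative D₁ = 144 * (derivative D).comp q := by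
      rw [hD1, derivative_comp, hq']
    rw [hdN1, hdD1, hN1, hD1]
    linear_combination (144 * C u) * h1 + (C π * V.comp q) * hU
  · have h1 := congrArg (fun P => P.comp q) E2
    simp only [mul_comp, add_comp, C_comp, pow_comp, X_comp] at h1
    have hca : C (ca s) = (48 * (C s - 5) : ℤ_[p][X]) := by
      rw [ca, map_mul, map_sub, map_ofNat, map_ofNat]
    have hcb : C (cb s) = (16 * (77 - 28 * C s) : ℤ_[p][X]) := by
      rw [cb, map_mul, map_sub, map_mul, map_ofNat, map_ofNat, map_ofNat]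
    have hS : (C s : ℤ_[p][X]) ^ 2 = -11 := by
      rw [← C_pow, hs, map_neg, map_ofNat]
    have hT : (216 : ℤ_[p][X]) * C t = 4 + C s := by
      have := congrArg (C : ℤ_[p] → ℤ_[p][X]) ht
      rw [map_mul, map_add, map_ofNat, map_ofNat] at this
      exact this
    rw [hca, hcb, hNq] at h1
    have h2 := alg_id (C s) (C t) (X : ℤ_[p][X]) 1 hS hT
    have h3 := alg_id (C s) (C t) N₁ D₁ hS hT
    have hne : (746496 : ℤ_[p][X]) ≠ 0 := by
      norm_num
    apply mul_left_cancel₀ hne
    rw [FF]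
    rw [hq] at h1 ⊢
    rw [← hD1] at h1
    linear_combination h1 - (V.comp (144 * X + 12)) ^ 2 * h2 + D₁ * h3

end SunQ1
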