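import Pool.Agent.Lib_MP_d8ed36_q1.Core
import Pool.Agent.Lib_MP_d8ed36_q1.InertC
import Pool.Agent.Lib_MP_d8ed36_q1.Arith
import Pool.Agent.Lib_MP_d8ed36_q1.RedX
import Pool.Agent.Lib_MP_d8ed36_q1.Shift

/-!
# MP_d8ed36_nt Q1, piece FINAL
-/

namespace SunQ1

private theorem t_rel {R : Type} [CommRing R] [IsDomain R] (h6 : (6 : R) ≠ 0) {s t : R}
    (hs : s ^ 2 = -11) (ht : 216 * t = 4 + s) : 64 * (t * (1 - 27 * t)) = 1 := by
  have h216 : (216 : R) ^ 2 ≠ 0 := by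
    have : (216 : R) ^ 2 = 6 ^ 6 := by norm_num
    rw [this]
    exact pow_ne_zero _ h6
  apply mul_left_cancel₀ h216
  have e : (216 : R) ^ 2 * (64 * (t * (1 - 27 * t))) =
      64 * ((216 * t) * (216 - 27 * (216 * t))) := by ring
  rw [e, ht]
  linear_combination (-1728 : R) * hs

private theorem sint_split {p : ℕ} [Fact p.Prime] (h5 : 5 ≤ p) {t : ℤ_[p]}
    (ht : 64 * (t * (1 - 27 * t)) = 1) :
    (p : ℤ_[p]) ^ 2 ∣ (Sint p : ℤ_[p]) - 64 ^ (p - 1) * (AA p t) ^ 2 := by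
  have hp : p.Prime := Fact.out
  rw [← Ideal.mem_span_singleton, ← Ideal.Quotient.eq_zero_iff_mem]
  set I : Ideal ℤ_[p] := Ideal.span {(p : ℤ_[p]) ^ 2} with hI
  have hR : ((p : ℕ) : ℤ_[p] ⧸ I) ^ 2 = 0 := by
    have h1 : (Ideal.Quotient.mk I) ((p : ℤ_[p]) ^ 2) = 0 :=
      Ideal.Quotient.eq_zero_iff_mem.mpr (Ideal.mem_span_singleton_self _)
    rw [map_pow, map_natCast] at h1
    exact h1
  have hx : 64 * ((Ideal.Quotient.mk I t) * (1 - 27 * (Ideal.Quotient.mk I t))) = 1 := by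
    have h1 := congrArg (Ideal.Quotient.mk I) ht
    have h64 : (Ideal.Quotient.mk I) (64 : ℤ_[p]) = 64 := map_ofNat _ _
    have h27 : (Ideal.Quotient.mk I) (27 : ℤ_[p]) = 27 := map_ofNat _ _
    rw [map_mul, map_mul, map_sub, map_mul, map_one, h64, h27] at h1
    exact h1
  have h := Sint_eq hp h5 hR (Ideal.Quotient.mk I t) hx
  rw [map_sub, map_mul, map_pow, map_pow, map_natCast, h]
  have hA : (Ideal.Quotient.mk I) (AA p t) = AA p (Ideal.Quotient.mk I t) := by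
    unfold AA
    rw [map_sum]
    refine Finset.sum_congr rfl fun k _ => ?_
    rw [map_mul, map_pow, map_natCast]
  rw [hA]
  have h64 : (Ideal.Quotient.mk I) (64 : ℤ_[p]) = 64 := map_ofNat _ _
  rw [h64, sub_self]

theorem split_dvd {p : ℕ} [Fact p.Prime] (h5 : 5 ≤ p) (h11 : p ≠ 11)
    (hj : jacobiSym (p : ℤ) 11 = 1) {x y : ℤ} (hxy : 4 * (p : ℤ) = x ^ 2 + 11 * y ^ 2) :
    (p : ℤ) ^ 2 ∣ (Sint p : ℤ) - 64 ^ (p - 1) * (x ^ 2 - 2 * (p : ℤ)) := by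
  have hp : p.Prime := Fact.out
  obtain ⟨s, hs⟩ := exists_sqrt h5 h11 hj
  obtain ⟨m, n, π, π', hmn, hπ, hππ, hu, hlast⟩ := exists_pi h5 h11 hs hxy
  obtain ⟨u, v, h1, h2, h3, h4, h6⟩ := redx_map h5 h11 hs hmn hπ hππ hu
  have ea : ca (s : ℚ_[p]) = ((ca s : ℤ_[p]) : ℚ_[p]) := by
    unfold ca
    push_cast
    rfl
  have eb : cb (s : ℚ_[p]) = ((cb s : ℤ_[p]) : ℚ_[p]) := by
    unfold cb
    push_cast
    rfl
  rw [ea, eb] at h1
  obtain ⟨N, D, V, hN, hD, hNr, hDr, E1, E2⟩ := redx_poly h5 hππ hu h1 h2 h3 h4 h6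
  obtain ⟨t, ht, htu, N1, D1, V1, hN1, hD1, hNr1, hDr1, F1, F2⟩ :=
    shift h5 hs hN hD hNr hDr E1 E2
  have h60 : (6 : ℤ_[p]) ≠ 0 := by norm_num
  have hA := sint_split h5 (t_rel h60 hs ht)
  have hAA : (p : ℤ_[p]) ^ 2 ∣ π' ^ 2 - (AA p t) ^ 2 := by
    rcases core h5 htu hu hππ hN1 hD1 hNr1 hDr1 F1 F2 with h | h
    · have e : π' ^ 2 - (AA p t) ^ 2 = (π' - AA p t) * (π' + AA p t) := by ring
      rw [e]
      exact Dvd.dvd.mul_right h _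
    · have e : π' ^ 2 - (AA p t) ^ 2 = (π' + AA p t) * (π' - AA p t) := by ring
      rw [e]
      exact Dvd.dvd.mul_right h _
  have key : (p : ℤ_[p]) ^ 2 ∣
      (((Sint p : ℤ) - 64 ^ (p - 1) * (x ^ 2 - 2 * (p : ℤ)) : ℤ) : ℤ_[p]) := by
    have e : (((Sint p : ℤ) - 64 ^ (p - 1) * (x ^ 2 - 2 * (p : ℤ)) : ℤ) : ℤ_[p]) =
        ((Sint p : ℤ_[p]) - 64 ^ (p - 1) * (AA p t) ^ 2) +
        64 ^ (p - 1) * ((π' ^ 2 - ((x : ℤ_[p]) ^ 2 - 2 * (p : ℤ_[p]))) -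
          (π' ^ 2 - (AA p t) ^ 2)) := by
      push_cast
      ring
    rw [e]
    exact dvd_add hA (Dvd.dvd.mul_left (dvd_sub hlast hAA) _)
  exact (PadicInt.pow_p_dvd_int_iff 2 _).mp key

end SunQ1
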