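import Pool.Agent.Lib_MP_d8ed36_q1.Defs

/-!
# MP_d8ed36_nt Q1, piece INERTA: the Cartier argument for inert primes

`G = F^((p-1)/2)` has degree `3(p-1)/2 < 2p-1`. With `R = N3/X²`: `X^6 F(R) = F U²`, so
`∑_j g_j N3^j X^(3p-3-2j) = X^(3p-3) G(R) = G U^(p-1)`. Multiply by `N3' X - 2 N3 = c U` and take the
coefficient of `X^(4p-1)`: for `j ≠ p-1` both `X^j U^p` and `N3^j X^(3p-3-2j) (N3' X - 2 N3)` are, up to the
factor `j+1`, derivatives, so their coefficients vanish.
-/

namespace SunQ1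

open Polynomial

namespace InertA

variable {k : Type} [Field k] {p : ℕ}

/-- the coefficient of `X^(4p-1)` of a derivative is `0` in characteristic `p`. -/
theorem coeff_der [CharP k p] (hp : 0 < p) (g : k[X]) : (derivative g).coeff (4 * p - 1) = 0 := by
  rw [coeff_derivative]
  have h : ((4 * p - 1 : ℕ) : k) + 1 = ((4 * p : ℕ) : k) := by
    rw [show 4 * p = (4 * p - 1) + 1 by omega]
    push_cast
    simp
  rw [h, Nat.cast_mul, CharP.cast_eq_zero k p]
  ring

theorem coeff_zero_of_der [CharP k p] (hp : 0 < p) {n : ℕ} (hn : (n : k) ≠ 0) {f g : k[X]}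
    (h : derivative g = C (n : k) * f) : f.coeff (4 * p - 1) = 0 := by
  have h1 := coeff_der (k := k) (p := p) hp g
  rw [h, coeff_C_mul] at h1
  exact (mul_eq_zero.mp h1).resolve_left hn

/-- `X^j U^p`. -/
theorem left_zero [CharP k p] (hp : 0 < p) (U : k[X]) {j : ℕ} (hj : ((j + 1 : ℕ) : k) ≠ 0) :
    (X ^ j * U ^ p).coeff (4 * p - 1) = 0 := by
  refine coeff_zero_of_der hp hj (g := X ^ (j + 1) * U ^ p) ?_
  have h0 : derivative (U ^ p) = 0 := by
    rw [derivative_pow, CharP.cast_eq_zero k p]; simp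
  rw [derivative_mul, h0, mul_zero, add_zero, derivative_X_pow]
  simp [mul_assoc]

/-- `N^j X^(3p-3-2j) (N' X - 2 N)`. -/
theorem right_zero [CharP k p] (hp : 0 < p) (N : k[X]) {j : ℕ} (hj : ((j + 1 : ℕ) : k) ≠ 0)
    (hj2 : 2 * j + 3 ≤ 3 * p) :
    (N ^ j * X ^ (3 * p - 3 - 2 * j) * (derivative N * X - 2 * N)).coeff (4 * p - 1) = 0 := by
  refine coeff_zero_of_der hp hj (g := N ^ (j + 1) * X ^ (3 * p - 3 - 2 * j + 1)) ?_
  rw [derivative_mul, derivative_pow, derivative_X_pow]
  have h1 : ((3 * p - 3 - 2 * j + 1 : ℕ) : k) = -2 * ((j + 1 : ℕ) : k) := by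
    have h2 : (3 * p - 3 - 2 * j + 1) + 2 * (j + 1) = 3 * p := by omega
    have h3 : (((3 * p - 3 - 2 * j + 1) + 2 * (j + 1) : ℕ) : k) = ((3 * p : ℕ) : k) := by
      rw [h2]
    rw [Nat.cast_add, Nat.cast_mul 3 p, CharP.cast_eq_zero k p, Nat.cast_mul 2] at h3
    push_cast at h3 ⊢
    linear_combination h3
  rw [h1]
  simp only [Nat.add_sub_cancel]
  have h4 : C (-2 * ((j + 1 : ℕ) : k)) = -2 * C (((j + 1 : ℕ) : k)) := by
    rw [C_mul, C_neg]; rfl
  rw [h4]
  ring

end InertA

open InertA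

theorem inert_poly {k : Type} [Field k] {p : ℕ} [Fact p.Prime] [CharP k p] (h5 : 5 ≤ p)
    {t c : k} {N3 U : k[X]} (hN : N3.natDegree ≤ 3) (hN0 : N3.coeff 3 ≠ 0) (hU : U.natDegree ≤ 3)
    (hF : 4 * N3 ^ 3 + X ^ 2 * (N3 + C t * X ^ 2) ^ 2 = FF t * U ^ 2)
    (hd : derivative N3 * X - 2 * N3 = C c * U) (hc0 : c ≠ 0) (hc : c ^ p ≠ c) :
    ((FF t) ^ ((p - 1) / 2)).coeff (p - 1) = 0 := by
  have hp : p.Prime := Fact.out
  have hp0 : 0 < p := hp.pos
  have hodd : p % 2 = 1 := by
    rcases hp.eq_two_or_odd with h | h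
    · omega
    · exact h
  set h := (p - 1) / 2 with hh
  have hh2 : 2 * h = p - 1 := by omega
  set G : k[X] := (FF t) ^ h with hG
  -- degree of G
  have hFd : (FF t).natDegree ≤ 3 := by
    unfold FF
    compute_degree
  have hGd : G.natDegree ≤ 3 * h := by
    calc G.natDegree ≤ h * (FF t).natDegree := natDegree_pow_le
      _ ≤ h * 3 := Nat.mul_le_mul_left _ hFd
      _ = 3 * h := by ring
  -- the substitution identity
  have hsub : ∑ j ∈ Finset.range (3 * h + 1), C (G.coeff j) * (N3 ^ j * X ^ (3 * p - 3 - 2 * j)) =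
      G * U ^ (p - 1) := by
    apply IsFractionRing.injective k[X] (RatFunc k)
    set φ := algebraMap k[X] (RatFunc k) with hφ
    have hX : φ X ≠ 0 := by
      rw [hφ, RatFunc.algebraMap_X]; exact RatFunc.X_ne_zero
    set R : RatFunc k := φ N3 / φ X ^ 2 with hR
    have e1 : aeval R (FF t) * φ X ^ 6 = φ (FF t * U ^ 2) := by
      rw [← hF]
      unfold FF
      simp only [map_add, map_mul, map_pow, aeval_X, aeval_C, map_ofNat]
      have : φ (C t) = algebraMap k (RatFunc k) t := by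
        rw [hφ, RatFunc.algebraMap_C]; rfl
      rw [this, hR]
      field_simp
    have e2 : aeval R G * φ X ^ (6 * h) = φ (G * U ^ (p - 1)) := by
      rw [hG, map_pow, pow_mul, ← mul_pow, e1, ← map_pow, mul_pow, ← pow_mul, hh2]
    rw [← e2, map_sum, aeval_eq_sum_range' (n := 3 * h + 1) (by omega), Finset.sum_mul]
    refine Finset.sum_congr rfl fun j hj => ?_
    have hj' : j ≤ 3 * h := by
      have := Finset.mem_range.mp hj; omega
    rw [map_mul, map_mul, map_pow, map_pow, hR, Algebra.smul_def, div_pow]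
    have h6 : φ X ^ (6 * h) = φ X ^ (3 * p - 3 - 2 * j) * (φ X ^ 2) ^ j := by
      rw [← pow_mul, ← pow_add]; congr 1; omega
    have : φ (C (G.coeff j)) = algebraMap k (RatFunc k) (G.coeff j) := by
      rw [hφ, RatFunc.algebraMap_C]; rfl
    rw [h6, this]
    field_simp
  -- coefficients
  have hGs : G = ∑ j ∈ Finset.range (3 * h + 1), C (G.coeff j) * X ^ j :=
    G.as_sum_range_C_mul_X_pow' (by omega)
  have key : c * (G * U ^ p).coeff (4 * p - 1) =
      ∑ j ∈ Finset.range (3 * h + 1), G.coeff j *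
        (N3 ^ j * X ^ (3 * p - 3 - 2 * j) * (derivative N3 * X - 2 * N3)).coeff (4 * p - 1) := by
    rw [← coeff_C_mul]
    have : C c * (G * U ^ p) = ∑ j ∈ Finset.range (3 * h + 1), C (G.coeff j) *
        (N3 ^ j * X ^ (3 * p - 3 - 2 * j) * (derivative N3 * X - 2 * N3)) := by
      have h1 : U ^ p = U ^ (p - 1) * U := by
        rw [← pow_succ]; congr 1; omega
      calc C c * (G * U ^ p) = (G * U ^ (p - 1)) * (C c * U) := by rw [h1]; ring
        _ = _ := by
          rw [← hsub, ← hd, Finset.sum_mul]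
          refine Finset.sum_congr rfl fun j _ => by ring
    rw [this, finsetSum_coeff]
    refine Finset.sum_congr rfl fun j _ => by rw [coeff_C_mul]
  have hcast : ∀ j ∈ Finset.range (3 * h + 1), j ≠ p - 1 → ((j + 1 : ℕ) : k) ≠ 0 := by
    intro j hj hne h0
    have hj' := Finset.mem_range.mp hj
    rw [CharP.cast_eq_zero_iff k p] at h0
    obtain ⟨m, hm⟩ := h0
    have hm1 : m ≠ 0 := by rintro rfl; simp at hm
    have hm2 : m ≠ 1 := by rintro rfl; omega
    have : 2 ≤ m := by omega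
    have : 2 * p ≤ p * m := by nlinarith
    omega
  have hmem : p - 1 ∈ Finset.range (3 * h + 1) := by
    rw [Finset.mem_range]; omega
  have hright : ∑ j ∈ Finset.range (3 * h + 1), G.coeff j *
        (N3 ^ j * X ^ (3 * p - 3 - 2 * j) * (derivative N3 * X - 2 * N3)).coeff (4 * p - 1) =
      G.coeff (p - 1) * (N3.coeff 3 ^ (p - 1) * (c * U.coeff 3)) := by
    rw [Finset.sum_eq_single (p - 1)]
    · congr 1
      rw [hd, show 3 * p - 3 - 2 * (p - 1) = p - 1 by omega,
        show N3 ^ (p - 1) * X ^ (p - 1) * (C c * U) = X ^ (p - 1) * (N3 ^ (p - 1) * (C c * U)) by ring,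
        show 4 * p - 1 = 3 * p + (p - 1) by omega, coeff_X_pow_mul]
      rw [show 3 * p = (p - 1) * 3 + 3 by omega,
        coeff_mul_add_eq_of_natDegree_le (df := (p - 1) * 3) (dg := 3)
          (le_trans natDegree_pow_le (Nat.mul_le_mul_left _ hN))
          (le_trans (natDegree_C_mul_le _ _) hU), coeff_C_mul,
        coeff_pow_of_natDegree_le hN]
    · intro j hj hne
      rw [right_zero hp0 N3 (hcast j hj hne)]
      · ring
      · have := Finset.mem_range.mp hj; omega
    · intro h0; exact absurd hmem h0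
  have hleft : (G * U ^ p).coeff (4 * p - 1) = G.coeff (p - 1) * U.coeff 3 ^ p := by
    conv_lhs => rw [hGs]
    rw [Finset.sum_mul, finsetSum_coeff, Finset.sum_eq_single (p - 1)]
    · rw [mul_assoc, coeff_C_mul, show 4 * p - 1 = 3 * p + (p - 1) by omega, coeff_X_pow_mul,
        mul_comm 3 p, coeff_pow_of_natDegree_le hU]
    · intro j hj hne
      rw [mul_assoc, coeff_C_mul, left_zero hp0 U (hcast j hj hne), mul_zero]
    · intro h0; exact absurd hmem h0
  rw [hleft, hright] at key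
  -- the leading coefficients
  have hlead : N3.coeff 3 = c * U.coeff 3 := by
    have h1 := congrArg (fun q : k[X] => q.coeff 3) hd
    simp only [coeff_sub, coeff_C_mul] at h1
    rw [show (3 : ℕ) = 2 + 1 from rfl, coeff_mul_X, coeff_derivative] at h1
    have h2 : ((2 : k[X]) * N3).coeff (2 + 1) = 2 * N3.coeff (2 + 1) := by
      rw [show (2 : k[X]) = C 2 from rfl, coeff_C_mul]
    rw [h2] at h1
    have h3 : N3.coeff (2 + 1) = c * U.coeff (2 + 1) := by
      rw [← h1]; push_cast; ring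
    exact h3
  have hu0 : U.coeff 3 ≠ 0 := by
    intro h0; rw [h0, mul_zero] at hlead; exact hN0 hlead
  rw [hlead] at key
  have h7 : G.coeff (p - 1) * (U.coeff 3 ^ p * (c - c ^ p)) = 0 := by
    have h8 : (c * U.coeff 3) ^ (p - 1) * (c * U.coeff 3) = c ^ p * U.coeff 3 ^ p := by
      rw [← pow_succ, Nat.sub_add_cancel hp.one_le, mul_pow]
    rw [h8] at key
    linear_combination key
  rcases mul_eq_zero.mp h7 with h8 | h8
  · exact h8
  · exfalso
    rcases mul_eq_zero.mp h8 with h9 | h9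
    · exact (pow_ne_zero _ hu0) h9
    · exact hc (sub_eq_zero.mp h9).symm

end SunQ1
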