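import Pool.Agent.Lib_MP_d8ed36_q1.InertA

/-!
# MP_d8ed36_nt Q1, piece INERTB: the explicit isogeny of degree 3

`t = (4+s)/216`, `s² = -11`, `c = (1-s)/2`, `N3 = ((s-5)/18)(X³+tX+t²) + ((s-23)/216) X²`,
`U = ((s-5)/18)/c · (X³-tX-2t²)`, `1/c = (1+s)/6`. `27t² - t + 1/64 = 0`. `c^p ≠ c` since `s^p ≠ s`.
In terms of `t`: `s = 216t-4`, `8 N3 = (96t-4)(X³+tX+t²) + (8t-1)X²`, `4U = (24t-1)(72t-1)(X³-tX-2t²)`.
-/

namespace SunQ1

open Polynomial

/-- the 3-isogeny as an identity of polynomials (up to the factor `512`). -/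
theorem isog_id {R : Type} [CommRing R] {T Y : R} (hT : 1728 * T ^ 2 - 64 * T + 1 = 0) :
    4 * ((96 * T - 4) * (Y ^ 3 + T * Y + T ^ 2) + (8 * T - 1) * Y ^ 2) ^ 3 +
      8 * Y ^ 2 * ((96 * T - 4) * (Y ^ 3 + T * Y + T ^ 2) + (8 * T - 1) * Y ^ 2 + 8 * T * Y ^ 2) ^ 2 =
    32 * (4 * Y ^ 3 + (Y + T) ^ 2) *
      ((24 * T - 1) * (72 * T - 1) * (Y ^ 3 - T * Y - 2 * T ^ 2)) ^ 2 := by
  linear_combination
    ((4)*T^0*Y^6 + (16)*T^0*Y^7 + (-96)*T^0*Y^8 + (-384)*T^0*Y^9 + (16)*T^1*Y^5 + (32)*T^1*Y^6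
      + (-192)*T^1*Y^7 + (4608)*T^1*Y^8 + (18432)*T^1*Y^9 + (-80)*T^2*Y^4 + (-384)*T^2*Y^5
      + (-6944)*T^2*Y^6 + (-18432)*T^2*Y^7 + (-55296)*T^2*Y^8 + (-221184)*T^2*Y^9 + (-576)*T^3*Y^3
      + (3264)*T^3*Y^4 + (-9216)*T^3*Y^5 + (55296)*T^3*Y^6 + (331776)*T^3*Y^7 + (-1248)*T^4*Y^2
      + (26496)*T^4*Y^3 + (-18432)*T^4*Y^4 + (221184)*T^4*Y^5 + (829440)*T^4*Y^6 + (-1152)*T^5*Y^1
      + (59904)*T^5*Y^2 + (-276480)*T^5*Y^3 + (-331776)*T^5*Y^4 + (-384)*T^6*Y^0
      + (55296)*T^6*Y^1 + (-718848)*T^6*Y^2 + (-663552)*T^6*Y^3 + (18432)*T^7*Y^0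
      + (-663552)*T^7*Y^1 + (-221184)*T^8*Y^0) * hT

theorem inert_hasse {k : Type} [Field k] {p : ℕ} [Fact p.Prime] [CharP k p] (h5 : 5 ≤ p)
    {s : k} (hs : s ^ 2 = -11) (hsp : s ^ p ≠ s) :
    ((FF ((4 + s) / 216)) ^ ((p - 1) / 2)).coeff (p - 1) = 0 := by
  have hp : p.Prime := Fact.out
  have h2 : (2 : k) ≠ 0 := by
    intro h0
    have h1 : ((2 : ℕ) : k) = 0 := by exact_mod_cast h0
    rw [CharP.cast_eq_zero_iff k p] at h1
    have := Nat.le_of_dvd (by norm_num) h1
    omega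
  have h3 : (3 : k) ≠ 0 := by
    intro h0
    have h1 : ((3 : ℕ) : k) = 0 := by exact_mod_cast h0
    rw [CharP.cast_eq_zero_iff k p] at h1
    have := Nat.le_of_dvd (by norm_num) h1
    omega
  have h216 : (216 : k) ≠ 0 := by
    have : (216 : k) = 2 ^ 3 * 3 ^ 3 := by norm_num
    rw [this]
    exact mul_ne_zero (pow_ne_zero _ h2) (pow_ne_zero _ h3)
  have h512 : (512 : k[X]) ≠ 0 := by
    have h1 : (512 : k[X]) = C ((2 : k) ^ 9) := by
      rw [show ((2 : k) ^ 9) = 512 by norm_num]; rfl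
    rw [h1]
    exact C_ne_zero.mpr (pow_ne_zero _ h2)
  set t : k := (4 + s) / 216 with ht
  have hst : s = 216 * t - 4 := by
    rw [ht]; field_simp; ring
  have hrel : 1728 * t ^ 2 - 64 * t + 1 = 0 := by
    have h1 : (27 : k) * (1728 * t ^ 2 - 64 * t + 1) = 0 := by
      rw [hst] at hs
      linear_combination hs
    have h27 : (27 : k) ≠ 0 := by
      rw [show (27 : k) = 3 ^ 3 by norm_num]; exact pow_ne_zero _ h3
    exact (mul_eq_zero.mp h1).resolve_left h27
  -- the coefficients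
  set a : k := 12 * t - 1 / 2 with ha
  set b : k := t - 1 / 8 with hb
  set ci : k := 36 * t - 1 / 2 with hci
  set c : k := (1 - s) / 2 with hc
  have h8 : (8 : k) ≠ 0 := by
    rw [show (8 : k) = 2 ^ 3 by norm_num]; exact pow_ne_zero _ h2
  have hcci : c * ci = 1 := by
    rw [hc, hci, hst]
    field_simp
    linear_combination (-9 : k) * hrel
  have hac : a = ci ^ 2 := by
    rw [ha, hci]
    field_simp
    linear_combination (-3 : k) * hrel
  have hci0 : ci ≠ 0 := by
    intro h0; rw [h0, mul_zero] at hcci; exact zero_ne_one hcci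
  have hc0 : c ≠ 0 := by
    intro h0; rw [h0, zero_mul] at hcci; exact zero_ne_one hcci
  have ha0 : a ≠ 0 := by rw [hac]; exact pow_ne_zero _ hci0
  refine inert_poly (k := k) (p := p) h5 (t := t) (c := c)
    (N3 := C a * (X ^ 3 + C t * X + C t ^ 2) + C b * X ^ 2)
    (U := C (a * ci) * (X ^ 3 - C t * X - 2 * C t ^ 2)) ?_ ?_ ?_ ?_ ?_ hc0 ?_
  · compute_degree
  · have h1 : (C a * (X ^ 3 + C t * X + C t ^ 2) + C b * X ^ 2 : k[X]).coeff 3 = a := by
      rw [← C_pow, coeff_add, coeff_C_mul, coeff_C_mul, coeff_add, coeff_add, coeff_C_mul,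
        coeff_X_pow, coeff_X_pow, coeff_X, coeff_C]
      simp
    rw [h1]; exact ha0
  · compute_degree
  · apply mul_left_cancel₀ h512
    have e1 : 96 * t - 4 = 8 * a := by rw [ha]; field_simp; ring
    have e2 : 8 * t - 1 = 8 * b := by rw [hb]; field_simp
    have e3 : (24 * t - 1) * (72 * t - 1) = 4 * (a * ci) := by rw [ha, hci]; field_simp; ring
    have hT : 1728 * (C t : k[X]) ^ 2 - 64 * C t + 1 = 0 := by
      have := congrArg (C : k → k[X]) hrel
      simpa only [map_sub, map_add, map_mul, map_pow, map_ofNat, map_one, map_zero] using this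
    have key := isog_id (Y := (X : k[X])) hT
    have e1' : (96 : k[X]) * C t - 4 = 8 * C a := by
      have := congrArg (C : k → k[X]) e1
      simpa only [map_sub, map_mul, map_ofNat, map_one] using this
    have e2' : (8 : k[X]) * C t - 1 = 8 * C b := by
      have := congrArg (C : k → k[X]) e2
      simpa only [map_sub, map_mul, map_ofNat, map_one] using this
    have e3' : (24 * C t - 1) * (72 * C t - 1) = 4 * (C (a * ci) : k[X]) := by
      have h24 : (C (24 * t - 1) : k[X]) = 24 * C t - 1 := by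
        simp only [map_sub, map_mul, map_ofNat, map_one]
      have h72 : (C (72 * t - 1) : k[X]) = 72 * C t - 1 := by
        simp only [map_sub, map_mul, map_ofNat, map_one]
      have h4 : (C (4 * (a * ci)) : k[X]) = 4 * C (a * ci) := by
        rw [C_mul (a := (4 : k)), map_ofNat]
      rw [← h24, ← h72, ← h4, ← C_mul, e3]
    rw [e1', e2', e3'] at key
    unfold FF
    linear_combination key
  · have e : C c * C (a * ci) = (C a : k[X]) := by
      rw [← C_mul]; congr 1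
      linear_combination a * hcci
    rw [← mul_assoc, e]
    have d1 : derivative (C a * (X ^ 3 + C t * X + C t ^ 2) + C b * X ^ 2 : k[X]) =
        C a * (3 * X ^ 2 + C t) + C b * (2 * X) := by
      rw [← C_pow]
      simp only [derivative_add, derivative_mul, derivative_C, derivative_X_pow, derivative_X,
        Nat.cast_ofNat, map_ofNat]
      ring
    rw [d1]
    ring
  · intro h0
    apply hsp
    have h4 : c ^ p = (1 - s ^ p) / 2 := by
      have h2p : (2 : k) ^ p = 2 := by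
        have := map_natCast (frobenius k p) 2
        rw [frobenius_def] at this
        exact_mod_cast this
      rw [hc, div_pow, sub_pow_char, one_pow, h2p]
    rw [h4, hc] at h0
    field_simp at h0
    linear_combination -h0

end SunQ1
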