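import Pool.Agent.Lib_MP_f1937f_nt.FDif
import Pool.Agent.Lib_MP_f1937f_nt.FIno
import Pool.Agent.Lib_MP_f1937f_nt.FPar
import Pool.Agent.Lib_MP_d8ed36_q1.PhiDefs

/-!
# MP_d8ed36_nt Q1, piece PHI: the maps `id`, `φ`, `φ'` with `φ + φ' = id`

`dsc = -186624 (4+s)²`, `(4+s)(4-s) = 27`. Points are made by `LT.mk_exists` (FPt.lean), see `id_exists` there
for the pattern; the sum by `LT.FDif.add_uv` (then `U`, `V` of the sum are `X`, `1`, and `mm_ext`). The slope
of the line through `φ`, `φ'`, `-id` is `-(2/3) (x - 22 + 2s) / ((x - 12) (x - 10 + 2s))`.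
-/

namespace SunQ1

open Polynomial LT

namespace PhiAux

section ring

variable {K : Type} [CommRing K]

/-- numerator of `U` (in terms of `x` and `w = x - 12`) -/
def nU (s x w : K) : K := x * w ^ 2 + 96 * (4 + s) * w + 64 * (4 + s) ^ 2

def nV (s w : K) : K := w ^ 3 - 96 * (4 + s) * w - 128 * (4 + s) ^ 2

/-- numerator of `U'` (in terms of `x` and `w = x - 10 + 2 s`) -/
def nU' (s x w : K) : K := x * w ^ 2 - 144 * (1 + s) * w - 1728

def nV' (s w : K) : K := w ^ 3 + 144 * (1 + s) * w + 3456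

/-- the cubic -/
def ff (s x : K) : K := x ^ 3 + 48 * (s - 5) * x + 16 * (77 - 28 * s)

theorem e1 {s : K} (hs : s ^ 2 = -11) (w : K) :
    8 * (-(4 + s)) ^ 2 * nV s w ^ 2 * ff s (w + 12) = (s - 5) ^ 3 * nU s (w + 12) w ^ 3 +
      324 * (48 * (s - 5)) * (s - 5) * nU s (w + 12) w * w ^ 4 +
      5832 * (16 * (77 - 28 * s)) * w ^ 6 := by
  unfold nU nV ff
  linear_combination ((-1)*w^9*s^1 + (23)*w^9 + (-36)*w^8*s^1 + (828)*w^8 + (-288)*w^7*s^2 + (1584)*w^7*s^1 +
      (-24048)*w^7 + (-192)*w^6*s^3 + (-7616)*w^6*s^2 + (-5056)*w^6*s^1 + (-1077056)*w^6 +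
      (-32256)*w^5*s^3 + (110592)*w^5*s^2 + (-926208)*w^5*s^1 + (-7538688)*w^5 +
      (-36864)*w^4*s^4 + (-150528)*w^4*s^3 + (8451072)*w^4*s^2 + (65396736)*w^4*s^1 +
      (126173184)*w^4 + (-12288)*w^3*s^5 + (-1208320)*w^3*s^4 + (18464768)*w^3*s^3 +
      (329711616)*w^3*s^2 + (1457782784)*w^3*s^1 + (2034237440)*w^3 + (-1916928)*w^2*s^5 +
      (12238848)*w^2*s^4 + (502530048)*w^2*s^3 + (3628597248)*w^2*s^2 + (10494148608)*w^2*s^1 +
      (10984882176)*w^2 + (-1179648)*w^1*s^6 + (393216)*w^1*s^5 + (290979840)*w^1*s^4 +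
      (3082813440)*w^1*s^3 + (13841203200)*w^1*s^2 + (29494345728)*w^1*s^1 + (24561844224)*w^1 +
      (-262144)*s^7 + (-2359296)*s^6 + (31457280)*s^5 + (608174080)*s^4 + (4026531840)*s^3 +
      (13488881664)*s^2 + (23085449216)*s^1 + (16106127360)) * hs

theorem e2 {s : K} (hs : s ^ 2 = -11) (w : K) :
    8 * (s - 4) ^ 2 * nV' s w ^ 2 * ff s (w + 10 - 2 * s) =
      (-(5 + s)) ^ 3 * nU' s (w + 10 - 2 * s) w ^ 3 +
      324 * (48 * (s - 5)) * (-(5 + s)) * nU' s (w + 10 - 2 * s) w * w ^ 4 +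
      5832 * (16 * (77 - 28 * s)) * w ^ 6 := by
  unfold nU' nV' ff
  linear_combination ((1)*w^9*s^1 + (23)*w^9 + (-6)*w^8*s^2 + (-108)*w^8*s^1 + (690)*w^8 + (12)*w^7*s^3 +
      (-276)*w^7*s^2 + (-6684)*w^7*s^1 + (-32796)*w^7 + (-8)*w^6*s^4 + (1664)*w^6*s^3 +
      (6576)*w^6*s^2 + (125312)*w^6*s^1 + (-973352)*w^6 + (-1728)*w^5*s^4 + (79488)*w^5*s^3 +
      (981504)*w^5*s^2 + (4399488)*w^5*s^1 + (6982848)*w^5 + (-142848)*w^4*s^4 +
      (-2324736)*w^4*s^3 + (11222784)*w^4*s^2 + (49353984)*w^4*s^1 + (102304512)*w^4 +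
      (-995328)*w^3*s^4 + (-81063936)*w^3*s^3 + (-348475392)*w^3*s^2 + (215212032)*w^3*s^1 +
      (724930560)*w^3 + (-1327104)*w^2*s^5 + (11943936)*w^2*s^4 + (-37158912)*w^2*s^3 +
      (-3187040256)*w^2*s^2 + (-6255968256)*w^2*s^1 + (4620312576)*w^2 + (-63700992)*w^1*s^4 +
      (637009920)*w^1*s^3 + (-1990656000)*w^1*s^2 + (-39622017024)*w^1*s^1 + (-8265203712)*w^1 +
      (-764411904)*s^3 + (8408530944)*s^2 + (-35736256512)*s^1 + (-81983176704)) * hs

theorem e3 {s : K} (hs : s ^ 2 = -11) (w : K) :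
    (w - 10 + 2 * s) * ((s - 5) * nU s (w + 12) w * (w + 2 + 2 * s) ^ 2 +
      (5 + s) * nU' s (w + 12) (w + 2 + 2 * s) * w ^ 2) =
      (4 + s) * nV s w * (w + 2 + 2 * s) ^ 3 + (s - 4) * nV' s (w + 2 + 2 * s) * w ^ 3 := by
  unfold nU nU' nV nV'
  linear_combination ((-48)*w^4 + (672)*w^3*s^1 + (3264)*w^3 + (3072)*w^2*s^2 + (17088)*w^2*s^1 + (24384)*w^2 +
      (3840)*w^1*s^3 + (27648)*w^1*s^2 + (57600)*w^1*s^1 + (33792)*w^1 + (1536)*s^4 +
      (15360)*s^3 + (50688)*s^2 + (61440)*s^1 + (24576)) * hs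

theorem e4 {s : K} (hs : s ^ 2 = -11) (w : K) :
    8 * ff s (w + 12) * (w - 10 + 2 * s) ^ 2 - ((s - 5) * nU s (w + 12) w * (w + 2 + 2 * s) ^ 2 -
      (5 + s) * nU' s (w + 12) (w + 2 + 2 * s) * w ^ 2) =
      18 * (w + 12) * w ^ 2 * (w + 2 + 2 * s) ^ 2 := by
  unfold nU nU' ff
  linear_combination ((-240)*w^3 + (-736)*w^2*s^1 + (96)*w^2 + (-640)*w^1*s^2 + (128)*w^1*s^1 + (15360)*w^1 +
      (-256)*s^3 + (-1280)*s^2 + (11264)*s^1 + (7680)) * hs

theorem e5 {s : K} (hs : s ^ 2 = -11) (w : K) :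
    27 * w ^ 3 * (w + 2 + 2 * s) - (4 + s) * nV s w * (w + 2 + 2 * s) =
      -((w - 10 + 2 * s) * ((s - 5) * nU s (w + 12) w - 18 * (w + 12) * w ^ 2)) := by
  unfold nU nV
  linear_combination ((216)*w^2 + (576)*w^1*s^1 + (2304)*w^1 + (384)*s^2 + (3072)*s^1 + (6144)) * hs

end ring

section field

variable {K : Type} [Field K]

theorem cancel1 {w U V f a b Nu Nv c d : K} (h : (5832 * w ^ 6 : K) ≠ 0)
    (hU : 18 * w ^ 2 * U = c * Nu) (hV : 27 * w ^ 3 * V = d * Nv)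
    (e : 8 * d ^ 2 * Nv ^ 2 * f = c ^ 3 * Nu ^ 3 + 324 * a * c * Nu * w ^ 4 + 5832 * b * w ^ 6) :
    V ^ 2 * f = U ^ 3 + a * U + b := by
  apply mul_left_cancel₀ h
  linear_combination e + 8 * f * (27 * w ^ 3 * V + d * Nv) * hV -
    ((18 * w ^ 2 * U) ^ 2 + 18 * w ^ 2 * U * (c * Nu) + (c * Nu) ^ 2) * hU -
    324 * a * w ^ 4 * hU

/-- the slope -/
theorem slope {w w' t U V U' V' L c Nu d Nv c' Nu' d' Nv' : K} (h : (54 * w ^ 3 * w' ^ 3 : K) ≠ 0)
    (hU : 18 * w ^ 2 * U = c * Nu) (hV : 27 * w ^ 3 * V = d * Nv)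
    (hU' : 18 * w' ^ 2 * U' = c' * Nu') (hV' : 27 * w' ^ 3 * V' = d' * Nv')
    (hL : 3 * w * w' * L = -2 * t)
    (e : t * (c * Nu * w' ^ 2 - c' * Nu' * w ^ 2) = -(d * Nv * w' ^ 3 - d' * Nv' * w ^ 3)) :
    L * (U - U') = V - V' := by
  apply mul_left_cancel₀ h
  linear_combination (-2 : K) * e + (18 * w ^ 2 * w' ^ 2 * (U - U')) * hL -
    (2 * t * w' ^ 2) * hU + (2 * t * w ^ 2) * hU' - 2 * w' ^ 3 * hV + 2 * w ^ 3 * hV'

theorem third {w w' t U U' L f c Nu c' Nu' x : K} (h : (18 * w ^ 2 * w' ^ 2 : K) ≠ 0)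
    (hU : 18 * w ^ 2 * U = c * Nu) (hU' : 18 * w' ^ 2 * U' = c' * Nu')
    (hL : 3 * w * w' * L = -2 * t)
    (e : 8 * f * t ^ 2 - (c * Nu * w' ^ 2 + c' * Nu' * w ^ 2) = 18 * x * w ^ 2 * w' ^ 2) :
    f * L ^ 2 - U - U' = x := by
  apply mul_left_cancel₀ h
  linear_combination e + 2 * f * (3 * w * w' * L - 2 * t) * hL - w' ^ 2 * hU - w ^ 2 * hU'

theorem third' {w w' t U V L c Nu d Nv x : K} (h : (27 * w ^ 3 * w' : K) ≠ 0)
    (hU : 18 * w ^ 2 * U = c * Nu) (hV : 27 * w ^ 3 * V = d * Nv)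
    (hL : 3 * w * w' * L = -2 * t)
    (e : 27 * w ^ 3 * w' + d * Nv * w' = -(t * (c * Nu - 18 * x * w ^ 2))) :
    -(L * (x - U) + V) = 1 := by
  apply mul_left_cancel₀ h
  linear_combination -e + (9 * w ^ 2 * (U - x)) * hL - t * hU - w' * hV

end field

end PhiAux

open PhiAux

theorem two_ne {k : Type} [Field k] (h6 : (6 : k) ≠ 0) : (2 : k) ≠ 0 := by
  intro h
  apply h6
  have : (6 : k) = 2 * 3 := by norm_num
  rw [this, h, zero_mul]

theorem three_ne {k : Type} [Field k] (h6 : (6 : k) ≠ 0) : (3 : k) ≠ 0 := by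
  intro h
  apply h6
  have : (6 : k) = 3 * 2 := by norm_num
  rw [this, h, zero_mul]

theorem dsc_ne {k : Type} [Field k] (h6 : (6 : k) ≠ 0) {s : k} (hs : s ^ 2 = -11) :
    dsc (ca s) (cb s) ≠ 0 := by
  have e : dsc (ca s) (cb s) = -(6 ^ 6 * 2 ^ 2) * (4 + s) ^ 2 := by
    unfold dsc ca cb
    linear_combination (442368 * s - 1029888 : k) * hs
  have h3 : (4 + s) * (4 - s) = 3 ^ 3 := by linear_combination -hs
  have h4 : 4 + s ≠ 0 := by
    intro h
    rw [h, zero_mul] at h3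
    exact pow_ne_zero 3 (three_ne h6) h3.symm
  rw [e]
  exact mul_ne_zero (neg_ne_zero.mpr (mul_ne_zero (pow_ne_zero 6 h6) (pow_ne_zero 2 (two_ne h6))))
    (pow_ne_zero 2 h4)

namespace PhiAux

section

variable {k : Type} [Field k]

theorem C_ne {c : k} (h : c ≠ 0) : RatFunc.C c ≠ 0 := by
  rwa [Ne, map_eq_zero]

theorem XC_ne (c : k) : (RatFunc.X - RatFunc.C c : RatFunc k) ≠ 0 := by
  have h : (RatFunc.X - RatFunc.C c : RatFunc k) = algebraMap k[X] (RatFunc k) (X - C c) := by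
    rw [map_sub, RatFunc.algebraMap_X, RatFunc.algebraMap_C]
  rw [h]
  exact RatFunc.algebraMap_ne_zero (X_sub_C_ne_zero c)

/-- degrees of numerator and denominator of a reduced fraction with monic denominator -/
theorem frac_deg {u : RatFunc k} {N D : k[X]} (hD : D.Monic) (hc : IsCoprime N D)
    (hu : u * algebraMap k[X] (RatFunc k) D = algebraMap k[X] (RatFunc k) N) :
    u.denom = D ∧ u.num = N := by
  have hdn : algebraMap k[X] (RatFunc k) u.denom ≠ 0 :=
    RatFunc.algebraMap_ne_zero (RatFunc.denom_ne_zero u)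
  have h1 : u.num * D = N * u.denom := by
    apply RatFunc.algebraMap_injective k
    rw [map_mul, map_mul, ← hu]
    have h2 := RatFunc.num_div_denom u
    rw [div_eq_iff hdn] at h2
    rw [h2]
    ring
  have h2 : u.denom ∣ D :=
    (RatFunc.isCoprime_num_denom u).symm.dvd_of_dvd_mul_left ⟨N, by rw [h1]; ring⟩
  have h3 : D ∣ u.denom := hc.symm.dvd_of_dvd_mul_left ⟨u.num, by rw [← h1]; ring⟩
  have h4 : u.denom = D :=
    eq_of_monic_of_associated (RatFunc.monic_denom u) hD (associated_of_dvd_dvd h2 h3)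
  refine ⟨h4, ?_⟩
  rw [h4] at h1
  exact mul_right_cancel₀ hD.ne_zero h1

/-- the shape of `U` and `U'` -/
theorem shape {c A B d : k} (hc : c ≠ 0) (hB : B ≠ 0) {u : RatFunc k}
    (hu : u = RatFunc.C c * (RatFunc.X + RatFunc.C A / (RatFunc.X - RatFunc.C d) +
      RatFunc.C B / (RatFunc.X - RatFunc.C d) ^ 2)) :
    u.denom = (X - C d) ^ 2 ∧ u.num = C c * (X * (X - C d) ^ 2 + C A * (X - C d) + C B) ∧
      u.denom.natDegree = 2 ∧ u.num.natDegree = 3 := by
  have hcop : IsCoprime (C c * (X * (X - C d) ^ 2 + C A * (X - C d) + C B)) ((X - C d) ^ 2) := by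
    apply IsCoprime.pow_right
    refine ⟨C (c⁻¹ * B⁻¹), -(C B⁻¹ * (X * (X - C d) + C A)), ?_⟩
    have h1 : C (c⁻¹ * B⁻¹) * C c = C (B⁻¹ : k) := by
      rw [← map_mul]
      congr 1
      field_simp
    have h2 : C (B⁻¹ : k) * C B = 1 := by
      rw [← map_mul, inv_mul_cancel₀ hB, map_one]
    linear_combination (X * (X - C d) ^ 2 + C A * (X - C d) + C B) * h1 + h2
  have hD : ((X - C d) ^ 2 : k[X]).Monic := (monic_X_sub_C d).pow 2
  have hw := XC_ne d
  have hmain := frac_deg (u := u) hD hcop (by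
    rw [hu]
    simp only [map_mul, map_add, map_sub, map_pow, RatFunc.algebraMap_X, RatFunc.algebraMap_C]
    field_simp)
  refine ⟨hmain.1, hmain.2, ?_, ?_⟩
  · rw [hmain.1, natDegree_pow, natDegree_X_sub_C]
  · rw [hmain.2, natDegree_C_mul hc]
    have e : (X * (X - C d) ^ 2 + C A * (X - C d) + C B : k[X]) =
      X * (X - C d) ^ 2 + (C A * (X - C d) + C B) := by ring
    have h1 : (X * (X - C d) ^ 2 : k[X]).natDegree = 3 := by
      rw [natDegree_X_mul hD.ne_zero, natDegree_pow, natDegree_X_sub_C]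
    have h2 : (C A * (X - C d) + C B : k[X]).natDegree ≤ 1 := by
      refine natDegree_add_le_of_degree_le ?_ ?_
      · refine (natDegree_C_mul_le _ _).trans ?_
        rw [natDegree_X_sub_C]
      · rw [natDegree_C]
        exact Nat.zero_le 1
    rw [e, natDegree_add_eq_left_of_natDegree_lt, h1]
    rw [h1]
    omega

theorem dR_shape {c A B d : k} :
    dR (RatFunc.C c * (RatFunc.X + RatFunc.C A / (RatFunc.X - RatFunc.C d) +
      RatFunc.C B / (RatFunc.X - RatFunc.C d) ^ 2)) =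
    RatFunc.C c * (1 - RatFunc.C A / (RatFunc.X - RatFunc.C d) ^ 2 -
      2 * RatFunc.C B / (RatFunc.X - RatFunc.C d) ^ 3) := by
  have hw := XC_ne d
  have h2 : dR ((RatFunc.X - RatFunc.C d) ^ 2 : RatFunc k) = 2 * (RatFunc.X - RatFunc.C d) := by
    have := dR_pow (RatFunc.X - RatFunc.C d : RatFunc k) 1
    norm_num at this
    rw [this, dR_sub, dR_X, dR_C, sub_zero, mul_one]
  rw [dR_mul, dR_C, dR_add, dR_add, dR_X, dR_div, dR_div, dR_C, dR_C, dR_sub, dR_X, dR_C, h2]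
  field_simp
  ring

end

end PhiAux

theorem phi_exists {k : Type} [Field k] [DecidableEq k] [DecidableEq (RatFunc k)]
    (h6 : (6 : k) ≠ 0) {s : k} (hs : s ^ 2 = -11) :
    ∃ ι φ φ' : MM (ca s) (cb s) (ca s) (cb s), ι ≠ .zero ∧ φ ≠ .zero ∧
      uu ι = RatFunc.X ∧ vv ι = 1 ∧ HasC ι 1 ∧ InO ι ∧ hh ι = 1 ∧
      uu φ = phU s ∧ vv φ = phV s ∧ HasC φ ((1 - s) / 2) ∧ InO φ ∧ hh φ = 3 ∧
      hh φ' = 3 ∧ φ + φ' = ι := by
  have h2 := two_ne h6
  have h3 := three_ne h6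
  have hd := dsc_ne h6 hs
  have h6' : (6 : RatFunc k) ≠ 0 := by
    have : (6 : RatFunc k) = RatFunc.C (6 : k) := (map_ofNat RatFunc.C 6).symm
    rw [this]
    exact C_ne h6
  have h2' := two_ne h6'
  have h3' := three_ne h6'
  -- constants
  have k18 : (18 : RatFunc k) ≠ 0 := by
    have : (18 : RatFunc k) = 6 * 3 := by norm_num
    rw [this]
    exact mul_ne_zero h6' h3'
  have k27 : (27 : RatFunc k) ≠ 0 := by
    have : (27 : RatFunc k) = 3 ^ 3 := by norm_num
    rw [this]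
    exact pow_ne_zero 3 h3'
  have k54 : (54 : RatFunc k) ≠ 0 := by
    have : (54 : RatFunc k) = 2 * 27 := by norm_num
    rw [this]
    exact mul_ne_zero h2' k27
  have k5832 : (5832 : RatFunc k) ≠ 0 := by
    have : (5832 : RatFunc k) = 18 ^ 3 := by norm_num
    rw [this]
    exact pow_ne_zero 3 k18
  have l18 : (18 : k) ≠ 0 := by
    have : (18 : k) = 6 * 3 := by norm_num
    rw [this]
    exact mul_ne_zero h6 h3
  have l27 : (27 : k) ≠ 0 := by
    have : (27 : k) = 3 ^ 3 := by norm_num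
    rw [this]
    exact pow_ne_zero 3 h3
  have l36 : (36 : k) ≠ 0 := by
    have : (36 : k) = 6 ^ 2 := by norm_num
    rw [this]
    exact pow_ne_zero 2 h6
  have hS : (RatFunc.C s : RatFunc k) ^ 2 = -11 := by
    rw [← map_pow, hs, map_neg, map_ofNat]
  -- the identity
  obtain ⟨ι, hι0, hιu, hιv⟩ := mk_exists h2 (a := ca s) (b := cb s) hd RatFunc.X 1 (by
    simp [fR, fP, RatFunc.algebraMap_C, RatFunc.algebraMap_X])
  obtain ⟨S, hSd⟩ : ∃ S : RatFunc k, S = RatFunc.C s := ⟨_, rfl⟩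
  rw [← hSd] at hS
  set w : RatFunc k := RatFunc.X - RatFunc.C 12 with hw
  set w' : RatFunc k := RatFunc.X - RatFunc.C (10 - 2 * s) with hw'
  have hw0 : w ≠ 0 := XC_ne _
  have hw0' : w' ≠ 0 := XC_ne _
  have C12 : (RatFunc.C 12 : RatFunc k) = 12 := map_ofNat RatFunc.C 12
  have hX : RatFunc.X = w + 12 := by rw [hw, C12]; ring
  have hww : w' = w + 2 + 2 * S := by
    rw [hw, hw', C12, hSd]
    simp only [map_sub, map_mul, map_ofNat]
    ring
  have hX' : RatFunc.X = w' + 10 - 2 * S := by rw [hX, hww]; ring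
  have hf : fR (ca s) (cb s) = ff S RatFunc.X := by
    rw [hSd]
    simp only [fR, fP, RatFunc.algebraMap_C, RatFunc.algebraMap_X, ff, ca, cb, map_add, map_sub,
      map_mul, map_pow, map_ofNat]
  have hca : RatFunc.C (ca s) = 48 * (S - 5) := by
    rw [hSd]
    simp only [ca, map_sub, map_mul, map_ofNat]
  have hcb : RatFunc.C (cb s) = 16 * (77 - 28 * S) := by
    rw [hSd]
    simp only [cb, map_sub, map_mul, map_ofNat]
  -- U, V
  have hU : 18 * w ^ 2 * phU s = (S - 5) * nU S (w + 12) w := by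
    unfold phU nU
    rw [← hw, hX, hSd]
    simp only [map_div₀, map_sub, map_mul, map_add, map_pow, map_ofNat]
    field_simp
  have hV : 27 * w ^ 3 * phV s = -(4 + S) * nV S w := by
    unfold phV nV
    rw [← hw, hSd]
    simp only [map_div₀, map_mul, map_add, map_pow, map_ofNat, map_neg]
    field_simp
  have hU' : 18 * w' ^ 2 * phU' s = -(5 + S) * nU' S (w' + 10 - 2 * S) w' := by
    unfold phU' nU'
    rw [← hw', hX', hSd]
    simp only [map_div₀, map_mul, map_add, map_ofNat, map_neg, map_one]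
    field_simp
  have hV' : 27 * w' ^ 3 * phV' s = (S - 4) * nV' S w' := by
    unfold phV' nV'
    rw [← hw', hSd]
    simp only [map_div₀, map_sub, map_mul, map_add, map_ofNat, map_one]
    field_simp
  have eq1 : phV s ^ 2 * fR (ca s) (cb s) =
      phU s ^ 3 + RatFunc.C (ca s) * phU s + RatFunc.C (cb s) := by
    rw [hf, hca, hcb, hX]
    exact cancel1 (mul_ne_zero k5832 (pow_ne_zero 6 hw0)) hU hV (e1 hS w)
  have eq2 : phV' s ^ 2 * fR (ca s) (cb s) =
      phU' s ^ 3 + RatFunc.C (ca s) * phU' s + RatFunc.C (cb s) := by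
    rw [hf, hca, hcb, hX']
    exact cancel1 (mul_ne_zero k5832 (pow_ne_zero 6 hw0')) hU' hV' (e2 hS w')
  obtain ⟨φ, hφ0, hφu, hφv⟩ := mk_exists h2 (a := ca s) (b := cb s) hd (phU s) (phV s) eq1
  obtain ⟨φ', hφ0', hφu', hφv'⟩ := mk_exists h2 (a := ca s) (b := cb s) hd (phU' s) (phV' s) eq2
  -- shapes
  have n1 : (s - 5) / 18 ≠ 0 := by
    refine div_ne_zero ?_ l18
    intro h
    apply l36
    linear_combination hs - (s + 5) * h
  have n2 : -(5 + s) / 18 ≠ 0 := by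
    refine div_ne_zero ?_ l18
    intro h
    apply l36
    linear_combination hs + (s - 5) * h
  have n3 : 4 + s ≠ 0 := by
    intro h
    apply l27
    linear_combination (4 - s) * h + hs
  have n4 : 64 * (4 + s) ^ 2 ≠ 0 := by
    have : (64 : k) = 2 ^ 6 := by norm_num
    rw [this]
    exact mul_ne_zero (pow_ne_zero 6 h2) (pow_ne_zero 2 n3)
  have n5 : (-1728 : k) ≠ 0 := by
    have : (-1728 : k) = -(6 ^ 3 * 2 ^ 3) := by norm_num
    rw [this]
    exact neg_ne_zero.mpr (mul_ne_zero (pow_ne_zero 3 h6) (pow_ne_zero 3 h2))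
  obtain ⟨s1, s2, s3, s4⟩ := shape (u := phU s) n1 n4 rfl
  obtain ⟨t1, t2, t3, t4⟩ := shape (u := phU' s) (c := -(5 + s) / 18) (A := -(144 * (1 + s)))
    (B := -1728) (d := 10 - 2 * s) n2 n5 (by
      unfold phU'
      rw [map_neg, map_neg]
      ring)
  have hne : phU s ≠ phU' s := by
    intro h
    have h1 : ((X - C 12) ^ 2 : k[X]) = (X - C (10 - 2 * s)) ^ 2 := by
      rw [← s1, ← t1, h]
    have h4 := congrArg (eval (12 : k)) h1
    simp only [eval_pow, eval_sub, eval_X, eval_C, sub_self] at h4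
    rw [zero_pow two_ne_zero] at h4
    have h5 : (12 - (10 - 2 * s) : k) = 0 := pow_eq_zero_iff two_ne_zero |>.mp h4.symm
    have h7 : (12 : k) = 0 := by
      have h8 : (2 : k) * (1 + s) = 0 := by linear_combination h5
      have h9 : 1 + s = 0 := (mul_eq_zero.mp h8).resolve_left h2
      linear_combination (1 - s) * h9 + hs
    apply h6
    have h8 : (2 : k) * 6 = 0 := by linear_combination h7
    exact (mul_eq_zero.mp h8).resolve_left h2
  -- the sum
  have hsum0 : φ + φ' ≠ 0 := by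
    intro h
    have h1 : φ' = -φ := (neg_eq_of_add_eq_zero_right h).symm
    apply hne
    rw [← hφu, ← hφu', h1, uu_neg]
  obtain ⟨L', hsu, hsv, hL'⟩ := FDif.add_uv h2 hφ0 hφ0' hsum0
  rw [hφu, hφu'] at hsu
  rw [hφu, hφv] at hsv
  obtain ⟨L, hL⟩ : ∃ L : RatFunc k, 3 * w * w' * L = -2 * (w - 10 + 2 * S) :=
    ⟨-2 * (w - 10 + 2 * S) / (3 * w * w'), by field_simp⟩
  have hXw : w' + 10 - 2 * S = w + 12 := by rw [hww]; ring
  rw [hXw] at hU'
  have hsl : L * (phU s - phU' s) = phV s - phV' s := by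
    refine slope (mul_ne_zero (mul_ne_zero k54 (pow_ne_zero 3 hw0)) (pow_ne_zero 3 hw0'))
      hU hV hU' hV' hL ?_
    have := e3 hS w
    rw [← hww] at this
    linear_combination this
  have hLL : L' = L := by
    rcases hL' with ⟨_, h⟩ | ⟨h, _⟩
    · rw [hφu, hφu', hφv, hφv', ← hsl] at h
      exact mul_right_cancel₀ (sub_ne_zero.mpr hne) h
    · rw [hφu, hφu'] at h
      exact absurd h hne
  rw [hLL] at hsu hsv
  have hsu' : uu (φ + φ') = RatFunc.X := by
    rw [hsu, hf, hX]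
    refine third (mul_ne_zero (mul_ne_zero k18 (pow_ne_zero 2 hw0)) (pow_ne_zero 2 hw0'))
      hU hU' hL ?_
    have := e4 hS w
    rw [← hww] at this
    linear_combination this
  have hsv' : vv (φ + φ') = 1 := by
    rw [hsv, hsu', hX]
    refine third' (mul_ne_zero (mul_ne_zero k27 (pow_ne_zero 3 hw0)) hw0') hU hV hL ?_
    have := e5 hS w
    rw [← hww] at this
    linear_combination this
  refine ⟨ι, φ, φ', hι0, hφ0, hιu, hιv, ?_, ?_, ?_, hφu, hφv, ?_, ?_, ?_, ?_, ?_⟩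
  · refine ⟨?_, ?_⟩
    · rw [hιu, hιv, dR_X]
      simp
    · rw [hιv]
      intro h
      exact absurd h one_ne_zero
  · right
    rw [hιu]
    simp
  · unfold hh
    rw [hιu]
    simp
  · refine ⟨?_, ?_⟩
    · rw [hφu, hφv]
      unfold phU
      rw [dR_shape]
      unfold phV
      rw [← hw, ← mul_assoc, ← map_mul]
      have h1 : (s - 5) / 18 = (1 - s) / 2 * (-(4 + s) / 27) := by
        field_simp
        linear_combination (-18 : k) * hs
      rw [← h1]
      simp only [map_mul, map_add, map_pow, map_ofNat]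
      ring
    · rw [hφv]
      intro h
      exfalso
      rw [h, mul_zero] at hV
      have h1 : (4 + S) * nV S w = 0 := by linear_combination hV
      have h4 : (4 + S : RatFunc k) ≠ 0 := by
        have : (4 + S : RatFunc k) = RatFunc.C (4 + s) := by
          rw [hSd, map_add, map_ofNat]
        rw [this]
        exact C_ne n3
      have h5 : nV S w = algebraMap k[X] (RatFunc k) ((X - C 12) ^ 3 -
          C (96 * (4 + s)) * (X - C 12) - C (128 * (4 + s) ^ 2)) := by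
        rw [hw, hSd]
        simp only [nV, map_add, map_sub, map_mul, map_pow, map_ofNat, RatFunc.algebraMap_C,
          RatFunc.algebraMap_X]
      have h7 : ((X - C 12) ^ 3 - C (96 * (4 + s)) * (X - C 12) - C (128 * (4 + s) ^ 2) : k[X]) =
          0 := by
        apply RatFunc.algebraMap_injective k
        rw [← h5, map_zero]
        exact (mul_eq_zero.mp h1).resolve_left h4
      have h8 := congrArg (eval (12 : k)) h7
      simp only [eval_pow, eval_sub, eval_mul, eval_X, eval_C, sub_self, eval_zero, mul_zero] at h8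
      apply n4
      have h9 : (2 : k) * (64 * (4 + s) ^ 2) = 0 := by linear_combination -h8
      exact (mul_eq_zero.mp h9).resolve_left h2
  · right
    rw [hφu, s3, s4]
    omega
  · unfold hh
    rw [hφu, s3, s4]
    rfl
  · unfold hh
    rw [hφu', t3, t4]
    rfl
  · exact mm_ext hsum0 hι0 (by rw [hsu', hιu]) (by rw [hsv', hιv])

end SunQ1
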