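import Pool.Agent.Lib_MP_d8ed36_q1.Phi
import Pool.Agent.Lib_MP_d8ed36_q1.Lat
import Pool.Agent.Lib_MP_d8ed36_q1.FrobX
import Pool.Agent.Lib_MP_d8ed36_q1.Gauss

/-!
# MP_d8ed36_nt Q1, piece REDX1: the endomorphism `π` over `ℚ_p` and its reduction
-/

namespace SunQ1

open Polynomial LT

section

variable {p : ℕ} [Fact p.Prime]

private theorem em_one' : em p 1 = 1 := by
  unfold em
  rw [Polynomial.map_one, map_one]

private theorem er_one' : er p 1 = 1 := by
  unfold er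
  rw [Polynomial.map_one, map_one]

private theorem em_X' : em p X = RatFunc.X := by
  unfold em
  rw [Polynomial.map_X, RatFunc.algebraMap_X]

private theorem er_X' : er p X = RatFunc.X := by
  unfold er
  rw [Polynomial.map_X, RatFunc.algebraMap_X]

private theorem em_C' (z : ℤ_[p]) : em p (C z) = RatFunc.C (z : ℚ_[p]) := by
  unfold em
  rw [Polynomial.map_C, RatFunc.algebraMap_C]
  rfl

private theorem er_C' (z : ℤ_[p]) : er p (C z) = RatFunc.C (PadicInt.toZMod z) := by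
  unfold er
  rw [Polynomial.map_C, RatFunc.algebraMap_C]

private theorem rdc_em' {O : ValuationSubring (RatFunc ℚ_[p])} {r : O →+* RatFunc (ZMod p)}
    (h2 : ∀ P Q : ℤ_[p][X], er p Q ≠ 0 → Rdc O r (em p P / em p Q) (er p P / er p Q))
    (P : ℤ_[p][X]) : Rdc O r (em p P) (er p P) := by
  have h := h2 P 1 (by rw [er_one']; exact one_ne_zero)
  rwa [em_one', er_one', div_one, div_one] at h

end

section

variable {K κ : Type} [Field K] [Field κ] {O : ValuationSubring K} {r : O →+* κ}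

private theorem rdcN' (n : ℕ) [n.AtLeastTwo] : Rdc O r (OfNat.ofNat n : K) (OfNat.ofNat n : κ) := by
  have h := Rdc.natCast O r (OfNat.ofNat n : ℕ)
  rwa [Nat.cast_ofNat, Nat.cast_ofNat] at h

private theorem sq7' : ∀ x : ZMod 7, x ^ 2 ≠ -11 := by decide

end

section

variable {K κ : Type} [Field K] [Field κ] {O : ValuationSubring (RatFunc K)}
  {r : O →+* RatFunc κ}

private theorem ratN' {n : ℕ} [n.AtLeastTwo] (h : (OfNat.ofNat n : κ) ≠ 0) :
    (OfNat.ofNat n : RatFunc κ) ≠ 0 := by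
  intro h0
  apply h
  have h1 : RatFunc.C (OfNat.ofNat n : κ) = 0 := by
    rw [map_ofNat]
    exact h0
  exact (map_eq_zero_iff _ RatFunc.C_injective).1 h1

private theorem X_sub_ne' (c : κ) : RatFunc.X - RatFunc.C c ≠ 0 := by
  intro h
  have h1 : algebraMap κ[X] (RatFunc κ) (X - C c) = 0 := by
    rw [map_sub, RatFunc.algebraMap_X, RatFunc.algebraMap_C]
    exact h
  rw [map_eq_zero_iff _ (IsFractionRing.injective κ[X] (RatFunc κ))] at h1
  exact X_sub_C_ne_zero c h1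

private theorem rdc_fR' {a b : K} {a' b' : κ} (hX : Rdc O r RatFunc.X RatFunc.X)
    (ha : Rdc O r (RatFunc.C a) (RatFunc.C a')) (hb : Rdc O r (RatFunc.C b) (RatFunc.C b')) :
    Rdc O r (fR a b) (fR a' b') := by
  have e : ∀ {F : Type} [Field F] (c d : F),
      fR c d = RatFunc.X ^ 3 + RatFunc.C c * RatFunc.X + RatFunc.C d := by
    intro F _ c d
    simp only [fR, fP, map_add, map_mul, map_pow, RatFunc.algebraMap_X, RatFunc.algebraMap_C]
  rw [e, e]
  exact ((hX.pow 3).add (ha.mul hX)).add hb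

private theorem rdc_phU' [IsLocalHom r] {s : K} {s' : κ} (h6 : (6 : κ) ≠ 0)
    (hX : Rdc O r RatFunc.X RatFunc.X) (hs : Rdc O r (RatFunc.C s) (RatFunc.C s')) :
    Rdc O r (phU s) (phU s') := by
  have h18 : (18 : κ) ≠ 0 := by
    intro h
    apply h6
    have h1 : (6 : κ) * 6 = 0 := by linear_combination 2 * h
    exact mul_self_eq_zero.1 h1
  have h12 : RatFunc.X - (12 : RatFunc κ) ≠ 0 := by
    have := X_sub_ne' (12 : κ)
    rwa [map_ofNat] at this
  simp only [phU, map_div₀, map_sub, map_mul, map_add, map_pow, map_ofNat]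
  exact (RedAux.Rdc_div (hs.sub (rdcN' 5)) (rdcN' 18) (ratN' h18)).mul
    ((hX.add (RedAux.Rdc_div ((rdcN' 96).mul ((rdcN' 4).add hs)) (hX.sub (rdcN' 12)) h12)).add
      (RedAux.Rdc_div ((rdcN' 64).mul (((rdcN' 4).add hs).pow 2)) ((hX.sub (rdcN' 12)).pow 2)
        (pow_ne_zero 2 h12)))

private theorem rdc_phV' [IsLocalHom r] {s : K} {s' : κ} (h6 : (6 : κ) ≠ 0)
    (hX : Rdc O r RatFunc.X RatFunc.X) (hs : Rdc O r (RatFunc.C s) (RatFunc.C s')) :
    Rdc O r (phV s) (phV s') := by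
  have h27 : (27 : κ) ≠ 0 := by
    intro h
    apply h6
    have h1 : (6 : κ) ^ 3 = 0 := by linear_combination 8 * h
    exact pow_eq_zero_iff (three_ne_zero) |>.1 h1
  have h12 : RatFunc.X - (12 : RatFunc κ) ≠ 0 := by
    have := X_sub_ne' (12 : κ)
    rwa [map_ofNat] at this
  simp only [phV, map_div₀, map_neg, map_mul, map_add, map_pow, map_ofNat]
  exact (RedAux.Rdc_div ((rdcN' 4).add hs).neg (rdcN' 27) (ratN' h27)).mul
    (((Rdc.one O r).sub (RedAux.Rdc_div ((rdcN' 96).mul ((rdcN' 4).add hs))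
      ((hX.sub (rdcN' 12)).pow 2) (pow_ne_zero 2 h12))).sub
      (RedAux.Rdc_div ((rdcN' 128).mul (((rdcN' 4).add hs).pow 2)) ((hX.sub (rdcN' 12)).pow 3)
        (pow_ne_zero 3 h12)))

private theorem mm_xy {k : Type} [Field k] {a b a' b' : k} {P : MM a b a' b'} (h : P ≠ .zero) :
    ∃ h', P = .some (uu P * fR a b) (vv P * fR a b ^ 2) h' := by
  have hf := fR_ne_zero a b
  rcases P with _ | ⟨x, y, hxy⟩
  · exact absurd rfl h
  · have e1 : x = uu (.some x y hxy : MM a b a' b') * fR a b := by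
      simp only [uu, xc]
      field_simp
    have e2 : y = vv (.some x y hxy : MM a b a' b') * fR a b ^ 2 := by
      simp only [vv, yc]
      field_simp
    refine ⟨?_, ?_⟩
    · rw [← e1, ← e2]
      exact hxy
    · congr 1

private theorem red_of' [DecidableEq (RatFunc K)] [DecidableEq (RatFunc κ)]
    {a b : K} {a' b' : κ} (hX : Rdc O r RatFunc.X RatFunc.X)
    (ha : Rdc O r (RatFunc.C a) (RatFunc.C a')) (hb : Rdc O r (RatFunc.C b) (RatFunc.C b'))
    (red : MM a b a b →+ MM a' b' a' b')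
    (hred : ∀ (x y : RatFunc K)
      (h : (SW (RatFunc.C a * fR a b ^ 2) (RatFunc.C b * fR a b ^ 3)).toAffine.Nonsingular x y),
      x ∈ O → ∃ (x' y' : RatFunc κ) (h' : _),
        Rdc O r x x' ∧ Rdc O r y y' ∧ red (.some x y h) = .some x' y' h')
    {P : MM a b a b} {Q : MM a' b' a' b'} (hP : P ≠ .zero) (hQ : Q ≠ .zero)
    (hu : Rdc O r (uu P) (uu Q)) (hv : Rdc O r (vv P) (vv Q)) : red P = Q := by
  obtain ⟨h1, e1⟩ := mm_xy hP
  obtain ⟨h2, e2⟩ := mm_xy hQ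
  have hf := rdc_fR' hX ha hb
  have hx := hu.mul hf
  have hy := hv.mul (hf.pow 2)
  obtain ⟨x', y', h', hx', hy', e⟩ := hred _ _ h1 hx.mem
  rw [← e1] at e
  have ex := hx'.unique hx
  have ey := hy'.unique hy
  subst ex ey
  rw [e, ← e2]

end

/-- REDX1: over `ℚ_p` the map `P = m id + n φ` has degree `p`, differential `π`, maps the origin to the
origin and its `x`-coordinate reduces to `x^p`. Proof: `phi_exists` over `ℚ_[p]` and over `ZMod p`
(with `s` and its residue), `hh_lat`, `HasC_zsmul`, `HasC_add`, `InO_zsmul`, `InO_add`; `uu_frob` over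
`ZMod p` (the residue of `π` is `0`; `a = 48(s-5) ≠ 0` as `(s-5)(s+5) = -36`; `b = 112(11-4s) ≠ 0` as
`(11-4s)(11+4s) = 297 = 27·11` and `p ≠ 7` because `-11` is not a square mod `7`); `red_exists` for the
ring of `gauss_exists` and the curves `SW (C a f²) (C b f³)`: it maps `id` to `id` and `φ` to `φ` since the
coordinates are fractions of integral polynomials. -/
theorem redx_map {p : ℕ} [Fact p.Prime] (h5 : 5 ≤ p) (h11 : p ≠ 11) {s : ℤ_[p]}
    (hs : s ^ 2 = -11) {m n : ℤ} (hmn : m ^ 2 + m * n + 3 * n ^ 2 = p) {π π' : ℤ_[p]}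
    (hπ : 2 * π = 2 * (m : ℤ_[p]) + (n : ℤ_[p]) * (1 - s)) (hππ : π * π' = (p : ℤ_[p]))
    (hu : IsUnit π') :
    ∃ u v : RatFunc ℚ_[p],
      v ^ 2 * fR (ca (s : ℚ_[p])) (cb (s : ℚ_[p])) =
        u ^ 3 + RatFunc.C (ca (s : ℚ_[p])) * u + RatFunc.C (cb (s : ℚ_[p])) ∧
      dR u = RatFunc.C (π : ℚ_[p]) * v ∧
      u.num.natDegree = p ∧ u.denom.natDegree < p ∧
      ∃ P Q : ℤ_[p][X], er p Q ≠ 0 ∧ u * em p Q = em p P ∧
        RatFunc.X ^ p * er p Q = er p P := by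
  classical
  have hp : p.Prime := Fact.out
  -- numerals
  have hZ : ∀ q : ℕ, q.Prime → q ≠ p → ((q : ℕ) : ZMod p) ≠ 0 := by
    intro q hq hqp h
    rw [ZMod.natCast_eq_zero_iff] at h
    rcases (Nat.dvd_prime hq).1 h with h1 | h1
    · exact hp.one_lt.ne' h1
    · exact hqp h1.symm
  have h2Z : (2 : ZMod p) ≠ 0 := by exact_mod_cast hZ 2 Nat.prime_two (by omega)
  have h3Z : (3 : ZMod p) ≠ 0 := by exact_mod_cast hZ 3 Nat.prime_three (by omega)
  have h11Z : (11 : ZMod p) ≠ 0 := by exact_mod_cast hZ 11 (by norm_num) (Ne.symm h11)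
  have h6Z : (6 : ZMod p) ≠ 0 := by
    rw [show (6 : ZMod p) = 2 * 3 by norm_num]
    exact mul_ne_zero h2Z h3Z
  have h6Q : (6 : ℚ_[p]) ≠ 0 := by norm_num
  have h2Q : (2 : ℚ_[p]) ≠ 0 := by norm_num
  -- the residue of `s`
  obtain ⟨s', hs'⟩ : ∃ s', s' = PadicInt.toZMod s := ⟨_, rfl⟩
  have hsZ : s' ^ 2 = -11 := by
    have h := congrArg PadicInt.toZMod hs
    rw [map_pow, map_neg, map_ofNat, ← hs'] at h
    exact h
  have hsQ : (s : ℚ_[p]) ^ 2 = -11 := by
    have h := congrArg (fun x : ℤ_[p] => (x : ℚ_[p])) hs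
    push_cast at h
    exact h
  have h7 : p ≠ 7 := by
    rintro rfl
    exact sq7' s' hsZ
  have h7Z : (7 : ZMod p) ≠ 0 := by exact_mod_cast hZ 7 (by norm_num) (Ne.symm h7)
  have haZ : ca s' ≠ 0 := by
    have h1 : s' - 5 ≠ 0 := by
      intro h
      have h36 : (6 : ZMod p) * 6 = 0 := by linear_combination (-(s' + 5)) * h + hsZ
      exact h6Z (mul_self_eq_zero.1 h36)
    have h48 : (48 : ZMod p) ≠ 0 := by
      rw [show (48 : ZMod p) = 2 ^ 4 * 3 by norm_num]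
      exact mul_ne_zero (pow_ne_zero 4 h2Z) h3Z
    exact mul_ne_zero h48 h1
  have hbZ : cb s' ≠ 0 := by
    have h1 : 11 - 4 * s' ≠ 0 := by
      intro h
      have h297 : (3 : ZMod p) ^ 3 * 11 = 0 := by
        linear_combination (11 + 4 * s') * h + 16 * hsZ
      exact mul_ne_zero (pow_ne_zero 3 h3Z) h11Z h297
    have h2 : cb s' = 2 ^ 4 * 7 * (11 - 4 * s') := by
      unfold cb
      ring
    rw [h2]
    exact mul_ne_zero (mul_ne_zero (pow_ne_zero 4 h2Z) h7Z) h1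
  have hdZ := dsc_ne h6Z hsZ
  have hdQ := dsc_ne h6Q hsQ
  -- the points
  obtain ⟨ι, φ, φ', hι0, hφ0, hιu, hιv, hιC, hιO, hι1, hφu, hφv, hφC, hφO, hφ3, hφ'3, hsum⟩ :=
    phi_exists h6Q hsQ
  obtain ⟨ι₁, φ₁, φ₁', hι0₁, hφ0₁, hιu₁, hιv₁, hιC₁, hιO₁, hι1₁, hφu₁, hφv₁, hφC₁, hφO₁, hφ3₁,
    hφ'3₁, hsum₁⟩ := phi_exists h6Z hsZ
  obtain ⟨P, hPd⟩ : ∃ P, P = m • ι + n • φ := ⟨_, rfl⟩
  obtain ⟨P₁, hPd₁⟩ : ∃ P₁, P₁ = m • ι₁ + n • φ₁ := ⟨_, rfl⟩
  have hhP : hh P = p := by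
    have h := hh_lat h2Q hdQ hsum hι1 hφ3 hφ'3 m n
    rw [← hPd, hmn] at h
    exact_mod_cast h
  have hhP₁ : hh P₁ = p := by
    have h := hh_lat h2Z hdZ hsum₁ hι1₁ hφ3₁ hφ'3₁ m n
    rw [← hPd₁, hmn] at h
    exact_mod_cast h
  have hPC : HasC P (π : ℚ_[p]) := by
    have h := HasC_add h2Q hdQ (HasC_zsmul h2Q hdQ hιC m) (HasC_zsmul h2Q hdQ hφC n)
    rw [← hPd] at h
    have h3 := congrArg (fun x : ℤ_[p] => (x : ℚ_[p])) hπ
    push_cast at h3
    have c2 : ((2 : ℤ_[p]) : ℚ_[p]) = 2 := rfl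
    rw [c2] at h3
    have e : (π : ℚ_[p]) = (m : ℚ_[p]) * 1 + (n : ℚ_[p]) * ((1 - (s : ℚ_[p])) / 2) := by
      field_simp
      linear_combination h3
    rw [e]
    exact h
  have hPO : InO P := by
    rw [hPd]
    exact InO_add h2Q hdQ (InO_zsmul h2Q hdQ hιO m) (InO_zsmul h2Q hdQ hφO n)
  have hPO₁ : InO P₁ := by
    rw [hPd₁]
    exact InO_add h2Z hdZ (InO_zsmul h2Z hdZ hιO₁ m) (InO_zsmul h2Z hdZ hφO₁ n)
  have hπ0 : PadicInt.toZMod π = 0 := by
    have h := congrArg PadicInt.toZMod hππ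
    rw [map_mul, map_natCast, ZMod.natCast_self] at h
    exact (mul_eq_zero.1 h).resolve_right (hu.map PadicInt.toZMod).ne_zero
  have hPC₁ : HasC P₁ 0 := by
    have h := HasC_add h2Z hdZ (HasC_zsmul h2Z hdZ hιC₁ m) (HasC_zsmul h2Z hdZ hφC₁ n)
    rw [← hPd₁] at h
    have h3 := congrArg PadicInt.toZMod hπ
    rw [map_mul, map_add, map_mul, map_mul, map_sub, map_one, map_intCast, map_intCast,
      map_ofNat, ← hs', hπ0, mul_zero] at h3
    have e : (0 : ZMod p) = (m : ZMod p) * 1 + (n : ZMod p) * ((1 - s') / 2) := by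
      field_simp
      linear_combination h3
    rw [e]
    exact h
  have hfrob := uu_frob h5 haZ hbZ hdZ hPC₁ hPO₁ hhP₁
  have hP0 : P ≠ .zero := by
    intro h
    rw [h, hh_zero] at hhP
    exact hp.ne_zero hhP.symm
  have hP0₁ : P₁ ≠ .zero := by
    intro h
    rw [h, hh_zero] at hhP₁
    exact hp.ne_zero hhP₁.symm
  -- the reduction
  obtain ⟨O, r, hloc, hfrac, hback⟩ := gauss_exists p
  have hX : Rdc O r RatFunc.X RatFunc.X := by
    have h := rdc_em' hfrac X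
    rwa [em_X', er_X'] at h
  have hC : ∀ z : ℤ_[p], Rdc O r (RatFunc.C (z : ℚ_[p])) (RatFunc.C (PadicInt.toZMod z)) := by
    intro z
    have h := rdc_em' hfrac (C z)
    rwa [em_C', er_C'] at h
  have hCs : Rdc O r (RatFunc.C (s : ℚ_[p])) (RatFunc.C s') := by
    rw [hs']
    exact hC s
  have hCa : Rdc O r (RatFunc.C (ca (s : ℚ_[p]))) (RatFunc.C (ca s')) := by
    simp only [ca, map_mul, map_sub, map_ofNat]
    exact (rdcN' 48).mul (hCs.sub (rdcN' 5))
  have hCb : Rdc O r (RatFunc.C (cb (s : ℚ_[p]))) (RatFunc.C (cb s')) := by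
    simp only [cb, map_mul, map_sub, map_ofNat]
    exact (rdcN' 16).mul ((rdcN' 77).sub ((rdcN' 28).mul hCs))
  have hf := rdc_fR' hX hCa hCb
  have hW : RdcW O r
      (SW (RatFunc.C (ca (s : ℚ_[p])) * fR (ca (s : ℚ_[p])) (cb (s : ℚ_[p])) ^ 2)
        (RatFunc.C (cb (s : ℚ_[p])) * fR (ca (s : ℚ_[p])) (cb (s : ℚ_[p])) ^ 3))
      (SW (RatFunc.C (ca s') * fR (ca s') (cb s') ^ 2)
        (RatFunc.C (cb s') * fR (ca s') (cb s') ^ 3)) :=
    ⟨Rdc.zero O r, Rdc.zero O r, Rdc.zero O r, hCa.mul (hf.pow 2), hCb.mul (hf.pow 3)⟩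
  have hΔ : (SW (RatFunc.C (ca s') * fR (ca s') (cb s') ^ 2)
      (RatFunc.C (cb s') * fR (ca s') (cb s') ^ 3)).Δ ≠ 0 := by
    rw [sw_disc]
    have e : dsc (RatFunc.C (ca s') * fR (ca s') (cb s') ^ 2)
        (RatFunc.C (cb s') * fR (ca s') (cb s') ^ 3) =
        RatFunc.C (dsc (ca s') (cb s')) * fR (ca s') (cb s') ^ 6 := by
      simp only [dsc, map_add, map_mul, map_pow, map_ofNat]
      ring
    rw [e]
    have h16 : (-16 : RatFunc (ZMod p)) ≠ 0 := by
      have h : (16 : ZMod p) ≠ 0 := by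
        rw [show (16 : ZMod p) = 2 ^ 4 by norm_num]
        exact pow_ne_zero 4 h2Z
      exact neg_ne_zero.2 (ratN' h)
    refine mul_ne_zero h16 (mul_ne_zero ?_ (pow_ne_zero 6 (fR_ne_zero _ _)))
    exact fun h => hdZ ((map_eq_zero_iff _ RatFunc.C_injective).1 h)
  obtain ⟨red, hred0, hred1⟩ := red_exists O r hW hΔ
  have hredι : red ι = ι₁ := by
    refine red_of' hX hCa hCb red hred1 hι0 ?_ ?_ ?_
    · intro h
      rw [h, hh_zero] at hι1₁
      exact zero_ne_one hι1₁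
    · rw [hιu, hιu₁]
      exact hX
    · rw [hιv, hιv₁]
      exact Rdc.one O r
  have hredφ : red φ = φ₁ := by
    refine red_of' hX hCa hCb red hred1 hφ0 hφ0₁ ?_ ?_
    · rw [hφu, hφu₁]
      exact rdc_phU' h6Z hX hCs
    · rw [hφv, hφv₁]
      exact rdc_phV' h6Z hX hCs
  have hredP : red P = P₁ := by
    rw [hPd, hPd₁, map_add, map_zsmul, map_zsmul, hredι, hredφ]
  have huP : Rdc O r (uu P) (RatFunc.X ^ p) := by
    rw [← hfrob]
    obtain ⟨h1, e1⟩ := mm_xy hP0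
    by_cases hx : uu P * fR (ca (s : ℚ_[p])) (cb (s : ℚ_[p])) ∈ O
    · obtain ⟨x', y', h', hx', -, e⟩ := hred1 _ _ h1 hx
      rw [← e1, hredP] at e
      have h3 := RedAux.Rdc_div hx' hf (fR_ne_zero _ _)
      rw [mul_div_cancel_right₀ _ (fR_ne_zero _ _)] at h3
      rw [e]
      exact h3
    · have e := hred0 _ _ h1 hx
      rw [← e1, hredP] at e
      exact absurd e hP0₁
  obtain ⟨A, B, hB, hAB, hAB'⟩ := hback _ _ huP
  have hdeg : (uu P).denom.natDegree < (uu P).num.natDegree := hPO.resolve_left hP0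
  have hmax : max (uu P).num.natDegree (uu P).denom.natDegree = p := hhP
  rw [max_eq_left hdeg.le] at hmax
  exact ⟨uu P, vv P, uu_vv_eq hP0, hPC.1, hmax, lt_of_lt_of_eq hdeg hmax, A, B, hB, hAB, hAB'⟩

end SunQ1
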